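import Pool.Agent.R652.CA.Bits

/-! Piece CA-APP: appending one cell of height zero is a finite-state function. -/

namespace Pool.Agent.R652.CA

open List

/-- scan for the digit after the lowest digit one -/
def feed : Option (Option Bool) → Bool → Option (Option Bool)
  | none, false => none
  | none, true => some none
  | some none, d => some (some d)
  | some (some b), _ => some (some b)

def lastBit : Option (Option Bool) → Bool
  | some (some b) => b
  | _ => false

abbrev AppQ (I : Type) : Type := Option (Option (Option Bool) × Bool × Option (Letter I))

def appStep {I : Type} (B0 : Bool → Bool → Blk) :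
    AppQ I → Option (Letter I) → AppQ I × Option (Letter I)
  | none, _ => (none, none)
  | some (s, p, pr), some (i, e, z, dg, pv, cu, nx) =>
      (some (feed s (xor dg s.isNone), if pr.isNone then xor dg s.isNone else p,
        some (i, e, z, dg, pv, cu, nx)), some (i, e, z, xor dg s.isNone, pv, cu, nx))
  | some (_, _, none), none => (none, none)
  | some (s, p, some (i, e, z, _, _, cu, nx)), none =>
      (none, some (i, e, z, s.isNone, some cu, nx, B0 (lastBit s) p))

/-- scan state before digit `n` of `N + 1` -/
def scanAt (N n : ℕ) : Option (Option Bool) :=
  if n ≤ padicValNat 2 (N + 1) then none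
  else if n = padicValNat 2 (N + 1) + 1 then some none
  else some (some ((N + 1).testBit (padicValNat 2 (N + 1) + 1)))

theorem scanAt_isNone (N n : ℕ) : (scanAt N n).isNone = decide (n ≤ padicValNat 2 (N + 1)) := by
  unfold scanAt
  split_ifs <;> simp_all

theorem feed_scanAt (N n : ℕ) : feed (scanAt N n) ((N + 1).testBit n) = scanAt N (n + 1) := by
  unfold scanAt
  rcases lt_trichotomy n (padicValNat 2 (N + 1)) with h | h | h
  · have h1 : n + 1 ≤ padicValNat 2 (N + 1) := h
    simp only [h.le, h1, if_true, testBit_succ_lt h, feed]
  · have ht := testBit_succ_val N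
    rw [← h] at ht ⊢
    simp [ht, feed]
  · have h1 : ¬ n ≤ padicValNat 2 (N + 1) := not_le.mpr h
    have h2 : ¬ n + 1 ≤ padicValNat 2 (N + 1) := by omega
    have h3 : ¬ n + 1 = padicValNat 2 (N + 1) + 1 := by omega
    rw [if_neg h1, if_neg h2, if_neg h3]
    by_cases h4 : n = padicValNat 2 (N + 1) + 1
    · rw [if_pos h4, ← h4]
      rfl
    · rw [if_neg h4]
      rfl

theorem lastBit_scanAt {N : ℕ} (hN : 1 ≤ N) : lastBit (scanAt N N) = S (N + 1) := by
  unfold scanAt S
  set v := padicValNat 2 (N + 1) with hv
  have hle : 2 ^ v ≤ N + 1 := Nat.le_of_dvd (by omega) pow_padicValNat_dvd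
  by_cases h : N ≤ v + 1
  · have hlt : N + 1 < 2 ^ (v + 1) := by
      rcases Nat.eq_zero_or_pos v with h0 | h0
      · exfalso
        have hN1 : N = 1 := by omega
        subst hN1
        have : v = 1 := by
          rw [hv]
          exact padicValNat.self (by norm_num)
        omega
      · have : v + 1 < 2 ^ (v + 1) := Nat.lt_two_pow_self
        have h3 : v + 2 < 2 ^ (v + 1) := by
          have : v + 1 ≤ 2 ^ v := Nat.lt_two_pow_self
          rw [pow_succ]
          omega
        omega
    rw [Nat.testBit_lt_two_pow hlt]
    by_cases h1 : N ≤ v
    · rw [if_pos h1]; rfl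
    · rw [if_neg h1, if_pos (by omega)]; rfl
  · rw [if_neg (by omega), if_neg (by omega)]
    rfl

theorem app_thm : StmBimL → StmB0 → StmApp := by
  intro hL hB0 I hI
  obtain ⟨B0, hB⟩ := hB0
  refine ⟨mealyL (appStep B0) (some (none, false, none)), 1, hL _ _ _ inferInstance _ _, ?_⟩
  rintro ℓ ℓ' ⟨a, i, rfl, rfl⟩ j
  refine ⟨j, le_rfl, ?_⟩
  set N := (a ++ [(i, 0)]).length with hN
  have hNa : N = a.length + 1 := by simp [hN]
  have hN' : (a ++ [(i, 0), (i, 0)]).length = N + 1 := by simp [hN]
  set ℓ := a ++ [(i, 0)] with hℓ
  set ℓ' := a ++ [(i, 0), (i, 0)] with hℓ'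
  have hel : (enc ℓ).length = N := by rw [enc_length]
  have hel' : (enc ℓ').length = N + 1 := by rw [enc_length, hN']
  -- the states
  let st : ℕ → AppQ I := fun n =>
    if n ≤ N then some (scanAt N n, if n = 0 then false else decide ((N + 1) % 2 = 1),
      if n = 0 then none else (enc ℓ)[n - 1]?) else none
  have hst0 : st 0 = some (none, false, none) := by
    simp [st, scanAt]
  rw [← hst0]
  refine mealyL_eq (appStep B0) _ _ st ?_ ?_
  · simp [hel, hel']
    omega
  · intro n hn hn'
    have hlen : n < N + (j + 1) := by
      have := hn
      simp only [List.length_append, List.length_map, List.length_replicate, hel] at this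
      exact this
    rcases lt_trichotomy n N with h | h | h
    · -- a cell of the old tape
      have hnl : n < ℓ.length := h
      have hnl' : n < ℓ'.length := by rw [hN']; omega
      have hsame : ℓ'[n] = ℓ[n] := by
        have e : ℓ' = ℓ ++ [(i, 0)] := by simp [hℓ, hℓ']
        simp only [e]
        rw [List.getElem_append_left hnl]
      have hw : ((enc ℓ).map some ++ replicate (j + 1) none)[n] =
          some (letter N n ℓ[n].1 ℓ[n].2) := by
        rw [List.getElem_append_left (by simpa [hel] using h), List.getElem_map, enc_getElem]
      have hv : ((enc ℓ').map some ++ replicate j none)[n] =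
          some (letter (N + 1) n ℓ[n].1 ℓ[n].2) := by
        rw [List.getElem_append_left (by simp [hel']; omega), List.getElem_map, enc_getElem]
        simp only [hsame, hN']
      rw [hw, hv]
      have e1 : st n = some (scanAt N n, if n = 0 then false else decide ((N + 1) % 2 = 1),
          if n = 0 then none else (enc ℓ)[n - 1]?) := by simp only [st]; rw [if_pos h.le]
      have e2 : st (n + 1) = some (scanAt N (n + 1), decide ((N + 1) % 2 = 1),
          some (letter N n ℓ[n].1 ℓ[n].2)) := by
        simp only [st]
        rw [if_pos (show n + 1 ≤ N from h)]
        have : (enc ℓ)[n]? = some (letter N n ℓ[n].1 ℓ[n].2) := by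
          rw [List.getElem?_eq_getElem (by rw [hel]; exact h), enc_getElem]
        simp [this]
      rw [e1, e2]
      have hd : xor (N.testBit n) (scanAt N n).isNone = (N + 1).testBit n := by
        rw [scanAt_isNone, testBit_succ_eq]
      simp only [letter, appStep, hd, feed_scanAt]
      congr 3
      congr 1
      rcases Nat.eq_zero_or_pos n with h0 | h0
      · subst h0
        simp [Nat.testBit_zero]
      · have hne : n ≠ 0 := by omega
        rw [if_neg hne, if_neg hne]
        rw [List.getElem?_eq_getElem (by rw [hel]; omega)]
        simp
    · -- the new cell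
      subst h
      have hw : ((enc ℓ).map some ++ replicate (j + 1) none)[N] = none := by
        rw [List.getElem_append_right (by simp [hel])]
        simp
      have hlast : ℓ[N - 1]? = some (i, 0) := by
        rw [hℓ, List.getElem?_append_right (by omega)]
        have : N - 1 - a.length = 0 := by omega
        simp [this]
      have hlast' : ℓ'[N]? = some (i, 0) := by
        rw [hℓ', List.getElem?_append_right (by omega)]
        have : N - a.length = 1 := by omega
        simp [this]
      have hv : ((enc ℓ').map some ++ replicate j none)[N] =
          some (letter (N + 1) N i 0) := by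
        rw [List.getElem_append_left (by simp [hel']), List.getElem_map, enc_getElem]
        have : ℓ'[N]'(by rw [hN']; omega) = (i, 0) := by
          rw [List.getElem?_eq_getElem (by rw [hN']; omega)] at hlast'
          exact Option.some.inj hlast'
        simp only [this, hN']
      rw [hw, hv]
      have hNne : N ≠ 0 := by omega
      have e1 : st N = some (scanAt N N, decide ((N + 1) % 2 = 1),
          some (letter N (N - 1) i 0)) := by
        simp only [st]
        rw [if_pos le_rfl, if_neg hNne, if_neg hNne]
        have : (enc ℓ)[N - 1]? = some (letter N (N - 1) i 0) := by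
          rw [List.getElem?_eq_getElem (by rw [hel]; omega), enc_getElem]
          have : ℓ[N - 1]'(by omega) = (i, 0) := by
            rw [List.getElem?_eq_getElem (by omega)] at hlast
            exact Option.some.inj hlast
          simp only [this]
          rfl
        rw [this]
      have e2 : st (N + 1) = none := by
        simp only [st]
        rw [if_neg (by omega)]
      rw [e1, e2]
      have hd : (scanAt N N).isNone = (N + 1).testBit N := by
        rw [scanAt_isNone, testBit_succ_eq, Nat.testBit_lt_two_pow (Nat.lt_two_pow_self)]
        simp
      simp only [letter, appStep, hd, lastBit_scanAt (show 1 ≤ N by omega)]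
      have hp : prevBlk N 0 = some (blk (N - 1) 0) := by simp [prevBlk, hNne]
      have hs : N - 1 + 1 = N := by omega
      rw [hp, hs, hB (N + 1)]
    · -- the rest
      have hw : ((enc ℓ).map some ++ replicate (j + 1) none)[n] = none := by
        rw [List.getElem_append_right (by simp [hel]; omega)]
        simp
      have hv : ((enc ℓ').map some ++ replicate j none)[n] = none := by
        rw [List.getElem_append_right (by simp [hel']; omega)]
        simp
      have e1 : st n = none := by
        simp only [st]
        rw [if_neg (by omega)]
      have e2 : st (n + 1) = none := by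
        simp only [st]
        rw [if_neg (by omega)]
      rw [hw, hv, e1, e2]
      rfl

end Pool.Agent.R652.CA
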