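import Pool.Agent.R652.CA.Defs

/-! # Project CA: basic lemmas on trees and tours -/

namespace Pool.Agent.R652.CA

open List

theorem onTree_cons {t : Tr} {x : Lab} {p : List Lab} (h : OnTree t (x :: p)) :
    t ≠ Tr.leaf ∧ OnTree (t.child x) p := by
  constructor
  · have := h [] x (by simp)
    simpa [IsNode, Tr.at'] using this
  · intro q y hq
    have := h (x :: q) y (by simpa using hq)
    simpa [IsNode, Tr.at'] using this

theorem onTree_nil (t : Tr) : OnTree t [] := by
  intro q x h
  have := h.length_le
  simp at this

theorem at_append (t : Tr) (p q : List Lab) : t.at' (p ++ q) = (t.at' p).at' q := by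
  induction p generalizing t with
  | nil => rfl
  | cons x p ih => simpa [Tr.at'] using ih (t.child x)

theorem onTree_snoc {t : Tr} {p : List Lab} {x : Lab} (h : OnTree t (p ++ [x])) :
    OnTree t p ∧ IsNode t p := by
  constructor
  · intro q y hq
    exact h q y (hq.trans (prefix_append _ _))
  · exact h p x (prefix_refl _)

theorem onTree_of_node {t : Tr} {p : List Lab} (x : Lab) (h : OnTree t p) (hn : IsNode t p) :
    OnTree t (p ++ [x]) := by
  intro q y hq
  rcases prefix_concat_iff.mp hq with h1 | h1
  · have : q = p := by
      have := congrArg List.dropLast h1
      simpa using this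
    rw [this]; exact hn
  · exact h q y h1

theorem put_at (t : Tr) (p : List Lab) : Tr.put (t.at' p) t p = t := by
  induction p generalizing t with
  | nil => simp [Tr.put, Tr.at']
  | cons x p ih =>
    cases t with
    | leaf => simp [Tr.put]
    | node b c0 c1 c2 c3 =>
      simp only [Tr.put, Tr.at', Tr.child]
      fin_cases x <;> simp [ih]

theorem at_put (s t : Tr) (p : List Lab) (h : OnTree t p) : (Tr.put s t p).at' p = s := by
  induction p generalizing t with
  | nil => simp [Tr.put, Tr.at']
  | cons x p ih =>
    obtain ⟨h1, h2⟩ := onTree_cons h
    cases t with
    | leaf => exact absurd rfl h1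
    | node b c0 c1 c2 c3 =>
      have := ih _ h2
      revert this
      simp only [Tr.put, Tr.at', Tr.child]
      fin_cases x <;> simp

theorem onTree_put (s t : Tr) (p : List Lab) (h : OnTree t p) : OnTree (Tr.put s t p) p := by
  induction p generalizing t with
  | nil => exact onTree_nil _
  | cons x p ih =>
    obtain ⟨h1, h2⟩ := onTree_cons h
    cases t with
    | leaf => exact absurd rfl h1
    | node b c0 c1 c2 c3 =>
      have h3 := ih _ h2
      intro q y hq
      cases q with
      | nil => simp [IsNode, Tr.at', Tr.put]
      | cons z q =>
        have hz : z = x ∧ q ++ [y] <+: p := by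
          simpa using hq
        obtain ⟨rfl, hq'⟩ := hz
        have := h3 q y hq'
        revert this
        simp only [Tr.put, IsNode, Tr.at', Tr.child]
        fin_cases z <;> simp

theorem put_thm : StmPut :=
  ⟨put_at, at_put, onTree_put, fun _ _ _ h => onTree_cons h, fun _ _ _ h => onTree_snoc h,
    fun _ _ x h h' => onTree_of_node x h h'⟩

theorem tourO_succ (t : Tr) (d : ℕ) (last : Option Lab) :
    tourO t (d + 1) last = (tourO t d last).map (fun x => (x.1, x.2 + 1)) := by
  induction t generalizing d last with
  | leaf => simp [tourO]
  | node b c0 c1 c2 c3 h0 h1 h2 h3 =>
    simp only [tourO, map_cons, map_append, map_nil]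
    rw [h0 (d + 1), h1 (d + 1), h2 (d + 1), h3 (d + 1)]

theorem out_thm : StmOut := by
  refine ⟨?_, tourO_succ⟩
  intro t d last x hx
  rw [tourO_succ] at hx
  simp only [mem_map] at hx
  obtain ⟨y, _, rfl⟩ := hx
  simp

theorem tail_thm : StmTail := by
  intro p
  induction p with
  | nil => intro last; exact ⟨[], by simp, by simp, by simp [tail, lastOf]⟩
  | cons x p ih =>
    intro last
    obtain ⟨A, h1, h2, h3⟩ := ih (some x)
    refine ⟨(Info.tl last, p.length + 1) :: A, ?_, ?_, ?_⟩
    · intro y hy
      rcases mem_cons.mp hy with rfl | hy
      · simp
      · exact h1 y hy
    · intro y hy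
      rcases mem_cons.mp hy with rfl | hy
      · exact ⟨_, rfl⟩
      · exact h2 y hy
    · simp only [tail, h3, cons_append]
      congr 3
      cases p with
      | nil => simp [lastOf]
      | cons z p =>
        simp only [lastOf, getLast?_cons_cons]
        cases h : (z :: p).getLast? with
        | none => simp at h
        | some w => rfl

theorem block_thm : StmBlock := by
  intro t p
  induction p generalizing t with
  | nil =>
    intro _ last
    exact ⟨[], [], by simp, by simp, by intro s; simp [Tr.put, lastOf, tourI]⟩
  | cons x p ih =>
    intro h last
    obtain ⟨h1, h2⟩ := onTree_cons h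
    have hl : lastOf (x :: p) last = lastOf p (some x) := by
      cases p with
      | nil => simp [lastOf]
      | cons z p =>
        simp only [lastOf, getLast?_cons_cons]
        cases h : (z :: p).getLast? with
        | none => simp at h
        | some w => rfl
    obtain ⟨A, B, hA, hB, hs⟩ := ih _ h2 (some x)
    have key : ∀ (t : Tr) (d : ℕ) (l : Option Lab), ∀ y ∈ tourO t (d + 1) l, y.2 ≠ 0 :=
      out_thm.1
    cases t with
    | leaf => exact absurd rfl h1
    | node b c0 c1 c2 c3 =>
      rw [hl]
      fin_cases x
      · refine ⟨(Info.nd b 0 last, p.length + 1) :: A, B ++ (Info.nd b 1 last, p.length + 1) ::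
          (tourO c1 (p.length + 2) (some 1) ++ (Info.nd b 2 last, p.length + 1) ::
          (tourO c2 (p.length + 2) (some 2) ++ (Info.nd b 3 last, p.length + 1) ::
          (tourO c3 (p.length + 2) (some 3) ++ [(Info.nd b 4 last, p.length + 1)]))), ?_, ?_, ?_⟩
        · intro y hy
          rcases mem_cons.mp hy with rfl | hy
          · simp
          · exact hA y hy
        · intro y hy
          simp only [mem_append, mem_cons, not_mem_nil, or_false] at hy
          rcases hy with hy | rfl | hy | rfl | hy | rfl | hy | rfl
          · exact hB y hy
          · simp
          · exact key _ _ _ y hy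
          · simp
          · exact key _ _ _ y hy
          · simp
          · exact key _ _ _ y hy
          · simp
        · intro s
          have := hs s
          simp only [Tr.child] at this
          simp at this
          simp [Tr.put, tourI, this, append_assoc]
      · refine ⟨(Info.nd b 0 last, p.length + 1) :: (tourO c0 (p.length + 2) (some 0) ++
          (Info.nd b 1 last, p.length + 1) :: A), B ++ (Info.nd b 2 last, p.length + 1) ::
          (tourO c2 (p.length + 2) (some 2) ++ (Info.nd b 3 last, p.length + 1) ::
          (tourO c3 (p.length + 2) (some 3) ++ [(Info.nd b 4 last, p.length + 1)])), ?_, ?_, ?_⟩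
        · intro y hy
          simp only [mem_append, mem_cons] at hy
          rcases hy with rfl | hy | rfl | hy
          · simp
          · exact key _ _ _ y hy
          · simp
          · exact hA y hy
        · intro y hy
          simp only [mem_append, mem_cons, not_mem_nil, or_false] at hy
          rcases hy with hy | rfl | hy | rfl | hy | rfl
          · exact hB y hy
          · simp
          · exact key _ _ _ y hy
          · simp
          · exact key _ _ _ y hy
          · simp
        · intro s
          have := hs s
          simp only [Tr.child] at this
          simp at this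
          simp [Tr.put, tourI, this, append_assoc]
      · refine ⟨(Info.nd b 0 last, p.length + 1) :: (tourO c0 (p.length + 2) (some 0) ++
          (Info.nd b 1 last, p.length + 1) :: (tourO c1 (p.length + 2) (some 1) ++
          (Info.nd b 2 last, p.length + 1) :: A)), B ++ (Info.nd b 3 last, p.length + 1) ::
          (tourO c3 (p.length + 2) (some 3) ++ [(Info.nd b 4 last, p.length + 1)]), ?_, ?_, ?_⟩
        · intro y hy
          simp only [mem_append, mem_cons] at hy
          rcases hy with rfl | hy | rfl | hy | rfl | hy
          · simp
          · exact key _ _ _ y hy
          · simp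
          · exact key _ _ _ y hy
          · simp
          · exact hA y hy
        · intro y hy
          simp only [mem_append, mem_cons, not_mem_nil, or_false] at hy
          rcases hy with hy | rfl | hy | rfl
          · exact hB y hy
          · simp
          · exact key _ _ _ y hy
          · simp
        · intro s
          have := hs s
          simp only [Tr.child] at this
          simp at this
          simp [Tr.put, tourI, this, append_assoc]
      · refine ⟨(Info.nd b 0 last, p.length + 1) :: (tourO c0 (p.length + 2) (some 0) ++
          (Info.nd b 1 last, p.length + 1) :: (tourO c1 (p.length + 2) (some 1) ++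
          (Info.nd b 2 last, p.length + 1) :: (tourO c2 (p.length + 2) (some 2) ++
          (Info.nd b 3 last, p.length + 1) :: A))),
          B ++ [(Info.nd b 4 last, p.length + 1)], ?_, ?_, ?_⟩
        · intro y hy
          simp only [mem_append, mem_cons] at hy
          rcases hy with rfl | hy | rfl | hy | rfl | hy | rfl | hy
          · simp
          · exact key _ _ _ y hy
          · simp
          · exact key _ _ _ y hy
          · simp
          · exact key _ _ _ y hy
          · simp
          · exact hA y hy
        · intro y hy
          simp only [mem_append, mem_cons, not_mem_nil, or_false] at hy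
          rcases hy with hy | rfl
          · exact hB y hy
          · simp
        · intro s
          have := hs s
          simp only [Tr.child] at this
          simp at this
          simp [Tr.put, tourI, this, append_assoc]

end Pool.Agent.R652.CA
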