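import Pool.Agent.R652.CA.Defs

/-! # Project CA, piece BIM1: basic bimachines -/

set_option autoImplicit false

namespace Pool.Agent.R652.CA

open List

theorem bim_map : StmBimMap := by
  intro A B φ
  refine ⟨Unit, Unit, inferInstance, inferInstance, (), (), fun _ _ => (), fun _ _ => (),
    fun _ a _ => φ a, ?_⟩
  intro w
  induction w with
  | nil => rfl
  | cons a w ih => simp only [List.map_cons, bimRun, ih]

theorem foldr_prod {A R₁ R₂ : Type} (dr₁ : A → R₁ → R₁) (dr₂ : A → R₂ → R₂) (r₁ : R₁) (r₂ : R₂)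
    (w : List A) : w.foldr (fun a (r : R₁ × R₂) => (dr₁ a r.1, dr₂ a r.2)) (r₁, r₂) =
      (w.foldr dr₁ r₁, w.foldr dr₂ r₂) := by
  induction w with
  | nil => rfl
  | cons a w ih => simp only [List.foldr_cons, ih]

theorem bim_zip : StmBimZip := by
  rintro A B C f g ⟨Q₁, R₁, hQ₁, hR₁, q₁, r₁, dl₁, dr₁, out₁, hf⟩
    ⟨Q₂, R₂, hQ₂, hR₂, q₂, r₂, dl₂, dr₂, out₂, hg⟩
  refine ⟨Q₁ × Q₂, R₁ × R₂, inferInstance, inferInstance, (q₁, q₂), (r₁, r₂),
    fun q a => (dl₁ q.1 a, dl₂ q.2 a), fun a r => (dr₁ a r.1, dr₂ a r.2),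
    fun q a r => (out₁ q.1 a r.1, out₂ q.2 a r.2), ?_⟩
  intro w
  show (f w).zip (g w) = _
  rw [hf, hg]
  clear hf hg
  induction w generalizing q₁ q₂ with
  | nil => rfl
  | cons a w ih =>
    simp only [bimRun, List.zip_cons_cons, foldr_prod]
    rw [ih]

theorem bim_L : StmBimL := by
  intro A B Q hQ step q0
  refine ⟨Q, Unit, hQ, inferInstance, q0, (), fun q a => (step q a).1, fun _ _ => (),
    fun q a _ => (step q a).2, ?_⟩
  intro w
  induction w generalizing q0 with
  | nil => rfl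
  | cons a w ih => simp only [mealyL, bimRun, ih]

theorem mealyRaux_fst {A B Q : Type} (step : A → Q → Q × B) (q0 : Q) (w : List A) :
    (mealyRaux step q0 w).1 = w.foldr (fun a r => (step a r).1) q0 := by
  induction w with
  | nil => rfl
  | cons a w ih => simp only [mealyRaux, List.foldr_cons, ih]

theorem bim_R : StmBimR := by
  intro A B Q hQ step q0
  refine ⟨Unit, Q, inferInstance, hQ, (), q0, fun _ _ => (), fun a r => (step a r).1,
    fun _ a r => (step a r).2, ?_⟩
  intro w
  unfold mealyR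
  induction w with
  | nil => rfl
  | cons a w ih =>
    simp only [mealyRaux, bimRun]
    rw [ih, mealyRaux_fst]

end Pool.Agent.R652.CA
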