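import Pool.Agent.R652.CA.Defs

/-! # Project CA, piece BIM2: contexts, padding, case distinction -/

set_option autoImplicit false

namespace Pool.Agent.R652.CA

open List

theorem bim_ctx : StmBimCtx := by
  intro A hA
  refine ⟨Option A, Option A, inferInstance, inferInstance, none, none, fun _ a => some a,
    fun a _ => some a, fun p a r => (p, a, r), ?_⟩
  have hf : ∀ w : List A, w.foldr (fun a (_ : Option A) => some a) none = w.head? := by
    intro w
    cases w <;> rfl
  have : ∀ (w : List A) (p : Option A), ctx p w = bimRun (fun (_ : Option A) a => some a)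
      (fun a (_ : Option A) => some a) none (fun p a r => (p, a, r)) p w := by
    intro w
    induction w with
    | nil => intro p; rfl
    | cons a w ih =>
      intro p
      simp only [ctx, bimRun, hf, ih]
  exact fun w => this w none

theorem bim_pad : StmBimPad := by
  rintro A B f ⟨Q, R, hQ, hR, q0, r0, dl, dr, out, hf⟩
  let dl' : Q → Option A → Q := fun q a => match a with
    | some a => dl q a
    | none => q
  let dr' : Option A → R → R := fun a r => match a with
    | some a => dr a r
    | none => r0
  let out' : Q → Option A → R → Option B := fun q a r => match a with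
    | some a => some (out q a r)
    | none => none
  refine ⟨bimRun dl' dr' r0 out' q0, ⟨Q, R, hQ, hR, q0, r0, dl', dr', out', fun _ => rfl⟩, ?_⟩
  have h1 : ∀ j : ℕ, (replicate j (none : Option A)).foldr dr' r0 = r0 := by
    intro j
    cases j with
    | zero => rfl
    | succ j => rfl
  have h2 : ∀ (w : List A) (j : ℕ),
      (w.map some ++ replicate j none).foldr dr' r0 = w.foldr dr r0 := by
    intro w j
    induction w with
    | nil => exact h1 j
    | cons a w ih =>
      simp only [List.map_cons, List.cons_append, List.foldr_cons, ih]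
      rfl
  have h3 : ∀ (j : ℕ) (q : Q), bimRun dl' dr' r0 out' q (replicate j none) = replicate j none := by
    intro j
    induction j with
    | zero => intro q; rfl
    | succ j ih =>
      intro q
      simp only [List.replicate_succ, bimRun]
      rw [ih]
  have h4 : ∀ (w : List A) (j : ℕ) (q : Q), bimRun dl' dr' r0 out' q (w.map some ++
      replicate j none) = (bimRun dl dr r0 out q w).map some ++ replicate j none := by
    intro w j
    induction w with
    | nil => intro q; exact h3 j q
    | cons a w ih =>
      intro q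
      simp only [List.map_cons, List.cons_append, bimRun, h2]
      rw [ih]
  intro w j
  rw [hf]
  exact h4 w j q0

theorem bim_ite : StmBimIte := by
  rintro A B Q hQ step q0 acc f g ⟨Q₁, R₁, hQ₁, hR₁, q₁, r₁, dl₁, dr₁, out₁, hf⟩
    ⟨Q₂, R₂, hQ₂, hR₂, q₂, r₂, dl₂, dr₂, out₂, hg⟩
  let DL : Q₁ × Q₂ × Q → A → Q₁ × Q₂ × Q := fun q a => (dl₁ q.1 a, dl₂ q.2.1 a, step q.2.2 a)
  let DR : A → R₁ × R₂ × (Q → Q) → R₁ × R₂ × (Q → Q) := fun a r =>
    (dr₁ a r.1, dr₂ a r.2.1, fun s => r.2.2 (step s a))
  let OUT : Q₁ × Q₂ × Q → A → R₁ × R₂ × (Q → Q) → B := fun q a r =>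
    if acc (r.2.2 (step q.2.2 a)) = true then out₁ q.1 a r.1 else out₂ q.2.1 a r.2.1
  refine ⟨Q₁ × Q₂ × Q, R₁ × R₂ × (Q → Q), inferInstance, inferInstance, (q₁, q₂, q0),
    (r₁, r₂, id), DL, DR, OUT, ?_⟩
  have h1 : ∀ w : List A, w.foldr DR (r₁, r₂, id) =
      (w.foldr dr₁ r₁, w.foldr dr₂ r₂, fun s => w.foldl step s) := by
    intro w
    induction w with
    | nil => rfl
    | cons a w ih =>
      rw [List.foldr_cons, ih]
      rfl
  have h2 : ∀ (w : List A) (a₁ : Q₁) (a₂ : Q₂) (s : Q),
      bimRun DL DR (r₁, r₂, id) OUT (a₁, a₂, s) w =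
        if acc (w.foldl step s) = true then bimRun dl₁ dr₁ r₁ out₁ a₁ w
          else bimRun dl₂ dr₂ r₂ out₂ a₂ w := by
    intro w
    induction w with
    | nil => intro a₁ a₂ s; simp only [bimRun, ite_self]
    | cons a w ih =>
      intro a₁ a₂ s
      have h3 := ih (dl₁ a₁ a) (dl₂ a₂ a) (step s a)
      rw [List.foldl_cons]
      simp only [bimRun, h1]
      rw [show DL (a₁, a₂, s) a = (dl₁ a₁ a, dl₂ a₂ a, step s a) from rfl, h3]
      by_cases h4 : acc (w.foldl step (step s a)) = true
      · rw [if_pos h4, if_pos h4]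
        congr 1
        exact if_pos h4
      · rw [if_neg h4, if_neg h4]
        congr 1
        exact if_neg h4
  intro w
  show (if acc (w.foldl step q0) = true then f w else g w) = _
  rw [h2, hf, hg]

end Pool.Agent.R652.CA
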