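import Pool.Agent.R652.CA.Defs

/-! Binary counter lemmas, shared by `App.lean` and `Trim.lean` (pieces CA-APP, CA-TRIM). -/

namespace Pool.Agent.R652.CA

open List

/-- Adding one flips exactly the digits up to the 2-adic valuation of the sum. -/
theorem testBit_succ_eq (N n : ℕ) :
    (N + 1).testBit n = xor (N.testBit n) (decide (n ≤ padicValNat 2 (N + 1))) := by
  obtain ⟨q, hq⟩ : 2 ^ padicValNat 2 (N + 1) ∣ N + 1 := pow_padicValNat_dvd
  set v := padicValNat 2 (N + 1) with hv
  have hodd : q % 2 = 1 := by
    by_contra hne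
    have h2 : 2 ∣ q := by omega
    obtain ⟨r, hr⟩ := h2
    have : 2 ^ (v + 1) ∣ N + 1 := ⟨r, by rw [hq, hr, pow_succ]; ring⟩
    exact pow_succ_padicValNat_not_dvd (p := 2) (n := N + 1) (by omega) this
  obtain ⟨i, hi⟩ : ∃ i, q = 2 * i + 1 := ⟨q / 2, by omega⟩
  have hpos : 0 < 2 ^ v := by positivity
  have hN : N = 2 ^ v * (2 * i) + (2 ^ v - 1) := by
    have : N + 1 = 2 ^ v * (2 * i) + 2 ^ v := by rw [hq, hi]; ring
    omega
  have h1 : (N + 1).testBit n = if n < v then false else (2 * i + 1).testBit (n - v) := by
    have : N + 1 = 2 ^ v * (2 * i + 1) + 0 := by rw [hq, hi]; ring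
    rw [this, Nat.testBit_two_pow_mul_add _ (by positivity)]
    simp
  have h2 : N.testBit n = if n < v then true else (2 * i).testBit (n - v) := by
    conv_lhs => rw [hN]
    rw [Nat.testBit_two_pow_mul_add _ (by omega)]
    simp only [Nat.testBit_two_pow_sub_one]
    split_ifs with h <;> simp [h]
  rw [h1, h2]
  rcases lt_trichotomy n v with h | h | h
  · simp [h, h.le]
  · subst h
    simp
  · have hk : n - v = (n - v - 1) + 1 := by omega
    rw [hk, Nat.testBit_succ, Nat.testBit_succ]
    have e1 : (2 * i + 1) / 2 = i := by omega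
    have e2 : (2 * i) / 2 = i := by omega
    rw [e1, e2]
    simp [not_lt.mpr h.le, not_le.mpr h]

theorem testBit_succ_lt {N n : ℕ} (h : n < padicValNat 2 (N + 1)) : (N + 1).testBit n = false := by
  obtain ⟨q, hq⟩ : 2 ^ padicValNat 2 (N + 1) ∣ N + 1 := pow_padicValNat_dvd
  rw [hq, Nat.testBit_two_pow_mul]
  simp [h]

theorem testBit_succ_val (N : ℕ) : (N + 1).testBit (padicValNat 2 (N + 1)) = true := by
  obtain ⟨q, hq⟩ : 2 ^ padicValNat 2 (N + 1) ∣ N + 1 := pow_padicValNat_dvd
  have hodd : q % 2 = 1 := by
    by_contra hne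
    have h2 : 2 ∣ q := by omega
    obtain ⟨r, hr⟩ := h2
    have : 2 ^ (padicValNat 2 (N + 1) + 1) ∣ N + 1 :=
      ⟨r, by conv_lhs => rw [hq, hr]
             rw [pow_succ]; ring⟩
    exact pow_succ_padicValNat_not_dvd (p := 2) (n := N + 1) (by omega) this
  conv_lhs => rw [hq]
  have : padicValNat 2 (2 ^ padicValNat 2 (N + 1) * q) = padicValNat 2 (N + 1) := by rw [← hq]
  rw [this, Nat.testBit_two_pow_mul]
  simp [hodd]

/-- running a left-to-right Mealy machine with explicitly given states -/
theorem mealyL_eq {A B Q : Type} (step : Q → A → Q × B) (w : List A) :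
    ∀ (v : List B) (st : ℕ → Q) (_ : w.length = v.length),
      (∀ (n : ℕ) (hn : n < w.length) (hn' : n < v.length),
        step (st n) (w[n]) = (st (n + 1), v[n])) →
      mealyL step (st 0) w = v := by
  induction w with
  | nil =>
    intro v st hl _
    have : v = [] := List.length_eq_zero_iff.mp hl.symm
    subst this
    rfl
  | cons a w ih =>
    intro v st hl h
    cases v with
    | nil => simp at hl
    | cons b v =>
      have h0 := h 0 (by simp) (by simp)
      simp only [List.getElem_cons_zero] at h0
      simp only [mealyL, h0]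
      congr 1
      refine ih v (fun n => st (n + 1)) (by simpa using hl) ?_
      intro n hn hn'
      have := h (n + 1) (by simpa using hn) (by simpa using hn')
      simpa using this

/-- running a bimachine with explicitly given left states -/
theorem bimRun_eq {A B Q R : Type} (dl : Q → A → Q) (dr : A → R → R) (r0 : R)
    (out : Q → A → R → B) (w : List A) :
    ∀ (v : List B) (st : ℕ → Q) (_ : w.length = v.length),
      (∀ (n : ℕ) (hn : n < w.length) (hn' : n < v.length),
        dl (st n) (w[n]) = st (n + 1) ∧ out (st n) (w[n]) ((w.drop (n + 1)).foldr dr r0) = v[n]) →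
      bimRun dl dr r0 out (st 0) w = v := by
  induction w with
  | nil =>
    intro v st hl _
    have : v = [] := List.length_eq_zero_iff.mp hl.symm
    subst this
    rfl
  | cons a w ih =>
    intro v st hl h
    cases v with
    | nil => simp at hl
    | cons b v =>
      have h0 := h 0 (by simp) (by simp)
      simp only [List.getElem_cons_zero, zero_add, List.drop_one, List.tail_cons] at h0
      simp only [bimRun, h0.1, h0.2]
      congr 1
      refine ih v (fun n => st (n + 1)) (by simpa using hl) ?_
      intro n hn hn'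
      have := h (n + 1) (by simpa using hn) (by simpa using hn')
      simpa using this

theorem enc_length {I : Type} (ℓ : List (I × ℕ)) : (enc ℓ).length = ℓ.length := by
  simp [enc]

theorem enc_getElem {I : Type} (ℓ : List (I × ℕ)) (n : ℕ) (hn : n < (enc ℓ).length) :
    (enc ℓ)[n] = letter ℓ.length n (ℓ[n]'(by simpa [enc] using hn)).1
      (ℓ[n]'(by simpa [enc] using hn)).2 := by
  simp [enc]

end Pool.Agent.R652.CA
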