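import Pool.Agent.R652.CA.Defs

/-! Project CA, piece CA-BLK: `blk_thm : StmUp → StmDown → StmBlk`. -/

namespace Pool.Agent.R652.CA

namespace BlkAux

/-- local rules -/
abbrev Rule : Type := Option T0 → Option T0 → T0 → T0 → T0 → T0

/-- one step on a row -/
def stp (U : Rule) (R : ℤ → Option T0) (y : ℤ) : Option T0 :=
  match R y, R (y + 1), R (y + 2) with
  | some c, some b1, some b2 => some (U (R (y - 2)) (R (y - 1)) c b1 b2)
  | _, _, _ => none

/-- row number `t` of the tiling -/
def row (t : ℕ) (y : ℤ) : Option T0 := if 0 ≤ y then some (T y.toNat t) else none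

theorem row_nat (t y : ℕ) : row t (y : ℤ) = some (T y t) := by
  simp [row]

theorem row_neg (t : ℕ) {y : ℤ} (h : y < 0) : row t y = none := by
  simp [row, h]

theorem stp_congr (U : Rule) (R R' : ℤ → Option T0) (a b : ℤ)
    (h : ∀ y, a - 2 ≤ y → y ≤ b + 2 → R y = R' y) :
    ∀ y, a ≤ y → y ≤ b → stp U R y = stp U R' y := by
  intro y h1 h2
  unfold stp
  rw [h y (by omega) (by omega), h (y + 1) (by omega) (by omega), h (y + 2) (by omega) (by omega),
    h (y - 2) (by omega) (by omega), h (y - 1) (by omega) (by omega)]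

theorem iter_congr (U : Rule) (j : ℕ) : ∀ (R R' : ℤ → Option T0) (a b : ℤ),
    (∀ y, a - 2 * j ≤ y → y ≤ b + 2 * j → R y = R' y) →
    ∀ y, a ≤ y → y ≤ b → (stp U)^[j] R y = (stp U)^[j] R' y := by
  induction j with
  | zero =>
    intro R R' a b h y h1 h2
    exact h y (by push_cast; omega) (by push_cast; omega)
  | succ j ih =>
    intro R R' a b h y h1 h2
    rw [Function.iterate_succ_apply, Function.iterate_succ_apply]
    refine ih _ _ a b ?_ y h1 h2
    intro z hz1 hz2
    exact stp_congr U R R' (a - 2 * j) (b + 2 * j)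
      (fun w hw1 hw2 => h w (by push_cast; omega) (by push_cast; omega)) z hz1 hz2

/-- `U` computes row `t'` from row `t` -/
def Step (U : Rule) (t t' : ℕ) : Prop := ∀ y : ℕ,
  T y t' = U (if 2 ≤ y then some (T (y - 2) t) else none)
    (if 1 ≤ y then some (T (y - 1) t) else none) (T y t) (T (y + 1) t) (T (y + 2) t)

theorem stp_row {U : Rule} {t t' : ℕ} (h : Step U t t') (s : ℤ) :
    stp U (fun x => row t (x + s)) = fun x => row t' (x + s) := by
  funext x
  by_cases hx : 0 ≤ x + s
  · obtain ⟨y, hy⟩ := Int.eq_ofNat_of_zero_le hx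
    have e0 : row t (x + s) = some (T y t) := by rw [hy, row_nat]
    have e1 : row t (x + 1 + s) = some (T (y + 1) t) := by
      rw [show x + 1 + s = ((y + 1 : ℕ) : ℤ) by push_cast; omega, row_nat]
    have e2 : row t (x + 2 + s) = some (T (y + 2) t) := by
      rw [show x + 2 + s = ((y + 2 : ℕ) : ℤ) by push_cast; omega, row_nat]
    have f1 : row t (x - 1 + s) = if 1 ≤ y then some (T (y - 1) t) else none := by
      split_ifs with h1
      · rw [show x - 1 + s = ((y - 1 : ℕ) : ℤ) by omega, row_nat]
      · exact row_neg t (by omega)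
    have f2 : row t (x - 2 + s) = if 2 ≤ y then some (T (y - 2) t) else none := by
      split_ifs with h1
      · rw [show x - 2 + s = ((y - 2 : ℕ) : ℤ) by omega, row_nat]
      · exact row_neg t (by omega)
    have e3 : row t' (x + s) = some (T y t') := by rw [hy, row_nat]
    simp only [stp, e0, e1, e2, f1, f2, e3]
    rw [← h y]
  · have e0 : row t (x + s) = none := row_neg t (by omega)
    have e3 : row t' (x + s) = none := row_neg t' (by omega)
    simp only [stp, e0, e3]

/-- the row read off from three blocks -/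
def rw3 (p : Option Blk) (c n : Blk) (x : ℤ) : Option T0 :=
  if h : 0 ≤ x ∧ x < 32 then p.map (fun b => b ⟨x.toNat, by omega⟩)
  else if h : 32 ≤ x ∧ x < 64 then some (c ⟨(x - 32).toNat, by omega⟩)
  else if h : 64 ≤ x ∧ x < 96 then some (n ⟨(x - 64).toNat, by omega⟩)
  else none

theorem rw3_eq (n t : ℕ) (x : ℤ) (h0 : 0 ≤ x) (h1 : x < 96) :
    row t (x + (32 * n - 32)) = rw3 (prevBlk n t) (blk n t) (blk (n + 1) t) x := by
  unfold rw3
  split_ifs with a b c
  · rcases Nat.eq_zero_or_pos n with hn | hn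
    · subst hn
      rw [row_neg t (by push_cast; omega)]
      simp [prevBlk]
    · have hn' : n ≠ 0 := by omega
      rw [show x + (32 * (n : ℤ) - 32) = ((32 * (n - 1) + x.toNat : ℕ) : ℤ) by push_cast; omega, row_nat]
      simp [prevBlk, hn', blk]
  · rw [show x + (32 * (n : ℤ) - 32) = ((32 * n + (x - 32).toNat : ℕ) : ℤ) by push_cast; omega, row_nat]
    simp [blk]
  · rw [show x + (32 * (n : ℤ) - 32) = ((32 * (n + 1) + (x - 64).toNat : ℕ) : ℤ) by push_cast; omega,
      row_nat]
    simp [blk]
  · omega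

/-- the block computed by iterating a rule -/
noncomputable def itBlk (U : Rule) (j : ℕ) (p : Option Blk) (c n : Blk) : Blk :=
  fun i => (((stp U)^[j] (rw3 p c n)) (32 + (i : ℤ))).getD (c 0)

theorem itBlk_eq (U : Rule) (j : ℕ) (hj : j ≤ 10) (n t t' : ℕ)
    (h : (stp U)^[j] (fun x => row t (x + (32 * n - 32))) = fun x => row t' (x + (32 * n - 32))) :
    blk n t' = itBlk U j (prevBlk n t) (blk n t) (blk (n + 1) t) := by
  funext i
  have hi : (i : ℕ) < 32 := i.2
  unfold itBlk
  rw [← iter_congr U j (fun x => row t (x + (32 * n - 32))) _ (32 + (i : ℤ)) (32 + (i : ℤ))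
    (fun y h1 h2 => rw3_eq n t y (by omega) (by omega)) _ le_rfl le_rfl, h]
  show blk n t' i = (row t' (32 + (i : ℤ) + (32 * n - 32))).getD _
  rw [show (32 + (i : ℤ) + (32 * n - 32)) = ((32 * n + i : ℕ) : ℤ) by push_cast; omega, row_nat]
  rfl

end BlkAux

open BlkAux in
theorem blk_thm : StmUp → StmDown → StmBlk := by
  rintro ⟨U, hU⟩ ⟨V, hV⟩
  have up : ∀ (s : ℤ) (j t : ℕ), (stp U)^[j] (fun x => row t (x + s)) = fun x => row (t + j) (x + s) := by
    intro s j
    induction j with
    | zero => intro t; rfl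
    | succ j ih =>
      intro t
      rw [Function.iterate_succ_apply, stp_row (t' := t + 1) (fun y => hU y t), ih (t + 1)]
      rw [show t + 1 + j = t + (j + 1) by omega]
  have down : ∀ (s : ℤ) (j t : ℕ), (stp V)^[j] (fun x => row (t + j) (x + s)) = fun x => row t (x + s) := by
    intro s j
    induction j with
    | zero => intro t; rfl
    | succ j ih =>
      intro t
      rw [Function.iterate_succ_apply, show t + (j + 1) = (t + j) + 1 by omega,
        stp_row (t' := t + j) (fun y => hV y (t + j)), ih t]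
  refine ⟨fun z p c n => if 0 ≤ z then itBlk U z.toNat p c n else itBlk V (-z).toNat p c n, ?_⟩
  intro n t t' htt
  rw [abs_le] at htt
  show blk n t' = if 0 ≤ (t' : ℤ) - t then _ else _
  split_ifs with h
  · refine itBlk_eq U _ (by omega) n t t' ?_
    obtain ⟨j, rfl⟩ : ∃ j, t' = t + j := ⟨t' - t, by omega⟩
    rw [show (((t + j : ℕ) : ℤ) - t).toNat = j by push_cast; omega]
    exact up _ j t
  · refine itBlk_eq V _ (by omega) n t t' ?_
    obtain ⟨j, rfl⟩ : ∃ j, t = t' + j := ⟨t - t', by omega⟩
    rw [show (-((t' : ℤ) - ((t' + j : ℕ) : ℤ))).toNat = j by push_cast; omega]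
    exact down _ j t'

end Pool.Agent.R652.CA
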