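import Pool.Agent.R652.CA.TrB

/-!
# CA-CAN : canonical states, the identity, toggling a lamp
-/

namespace Pool.Agent.R652.CA

open List

theorem can_node : StmCanNode := fun t p h => ⟨canI_node p t h.1, canI_onTree p t h.1⟩

theorem lit_bud (q : List Lab) : Tr.bud.lit q = false := by
  cases q with
  | nil => rfl
  | cons x q => rw [lit_cons, child_bud, lit_leaf]

theorem lamps_bud : lamps Tr.bud = 0 := by
  ext g
  unfold lamps
  split_ifs with h
  · simp [Finsupp.onFinset_apply, lit_bud]
  · rfl

theorem can1 : StmCan1 := by
  refine ⟨⟨?_, ?_⟩, ?_⟩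
  · simp [Tr.bud, CanI, CanO]
  · simp [Tr.bud, RedO]
  · unfold Psi
    rw [lamps_bud]
    rfl

theorem canI_flip : ∀ (p : List Lab) (t : Tr), CanI t p → CanI (Tr.put (t.at' p).flip t p) p
  | [], t, h => by
    rw [put_nil]
    simp only [Tr.at']
    rw [canI_nil] at h ⊢
    refine ⟨fun e => h.1 ((flip_eq_leaf t).1 e), fun y => ?_⟩
    rw [child_flip]
    exact h.2 y
  | x :: p, t, h => by
    rw [canI_cons] at h ⊢
    refine ⟨put_ne_leaf _ x p h.1, fun y => ?_⟩
    have h2 := h.2 y
    split_ifs with hy
    · subst hy
      rw [if_pos rfl] at h2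
      rw [child_put _ y p h.1, if_pos rfl]
      exact canI_flip p _ h2
    · rw [if_neg hy] at h2
      rw [child_put _ x p h.1, if_neg hy]
      exact h2

theorem put_flip_leaf (p : List Lab) : Tr.put (Tr.leaf.at' p).flip Tr.leaf p = Tr.leaf := by
  cases p with
  | nil => rfl
  | cons x p => rfl

theorem redO_flip : ∀ (p : List Lab) (t : Tr) (last : Option Lab), RedO t last →
    RedO (Tr.put (t.at' p).flip t p) last
  | [], t, last, h => by
    rw [put_nil]
    simp only [Tr.at']
    rw [redO_iff] at h ⊢
    intro y
    rw [child_flip]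
    exact h y
  | x :: p, t, last, h => by
    by_cases ht : t = Tr.leaf
    · subst ht
      exact h
    rw [redO_iff] at h ⊢
    intro y
    have h2 := h y
    rw [child_put _ x p ht]
    split_ifs with hy
    · subst hy
      refine ⟨fun e => ?_, ?_⟩
      · have := h2.1 e
        simp only [Tr.at']
        rw [this]
        exact put_flip_leaf p
      · exact redO_flip p _ _ h2.2
    · exact h2

theorem toggleG : StmFin → StmToggleG := by
  intro hF t p h
  have hn : t.at' p ≠ Tr.leaf := canI_node p t h.1
  have hp : redp none p := redp_of_redO p t none h.2 hn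
  refine ⟨⟨canI_flip p t h.1, redO_flip p t none h.2⟩, ?_⟩
  have hl : lamps (Tr.put (t.at' p).flip t p) = lamps t + Finsupp.single (val p) 1 := by
    ext g
    rw [Finsupp.add_apply, lamps_apply hF, lamps_apply hF, lit_put_flip p t hn]
    by_cases hg : pathOf g = p
    · have hg2 : g = val p := by rw [← hg, val_pathOf]
      subst hg2
      rw [if_pos hg]
      rw [Finsupp.single_eq_same]
      cases t.lit (pathOf (val p))
      · simp
      · simp only [Bool.not_true, if_true]
        decide
    · rw [if_neg hg]
      have hg2 : val p ≠ g := by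
        intro e
        apply hg
        rw [← e]
        exact pathOf_val hp
      rw [Finsupp.single_eq_of_ne hg2.symm, add_zero]
  unfold Psi lamp
  rw [hl]
  ext1
  · change Multiplicative.ofAdd (lamps t + Finsupp.single (val p) 1) =
      Multiplicative.ofAdd (lamps t) * (act F2 (val p)) (Multiplicative.ofAdd (Finsupp.single 1 1))
    have h3 : (act F2 (val p)) (Multiplicative.ofAdd (Finsupp.single 1 1)) =
        Multiplicative.ofAdd (Finsupp.single (val p) 1) := by
      change Multiplicative.ofAdd (Finsupp.equivMapDomain (Equiv.mulLeft (val p))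
        (Finsupp.single 1 1)) = _
      rw [Finsupp.equivMapDomain_single]
      simp
    rw [h3, ofAdd_add]
  · simp

end Pool.Agent.R652.CA
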