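import Pool.Agent.R652.CA.Defs

/-! # Project CA, piece COMP: composition of bimachines -/

set_option autoImplicit false

namespace Pool.Agent.R652.CA

open List

section comp

variable {A B C Q R Q' R' : Type}

/-- right transition of the composition -/
def compDR (dl : Q → A → Q) (dr : A → R → R) (out : Q → A → R → B) (dr' : B → R' → R') (a : A)
    (x : R × (Q → R')) : R × (Q → R') :=
  (dr a x.1, fun q => dr' (out q a x.1) (x.2 (dl q a)))

/-- left transition of the composition -/
def compDL (dl : Q → A → Q) (dr : A → R → R) (out : Q → A → R → B) (dl' : Q' → B → Q')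
    (x : Q × (R → Q')) (a : A) : Q × (R → Q') :=
  (dl x.1 a, fun r => dl' (x.2 (dr a r)) (out x.1 a r))

/-- output of the composition -/
def compOut (dl : Q → A → Q) (dr : A → R → R) (out : Q → A → R → B) (out' : Q' → B → R' → C)
    (x : Q × (R → Q')) (a : A) (y : R × (Q → R')) : C :=
  out' (x.2 (dr a y.1)) (out x.1 a y.1) (y.2 (dl x.1 a))

theorem comp_foldr (dl : Q → A → Q) (dr : A → R → R) (r0 : R) (out : Q → A → R → B)
    (dr' : B → R' → R') (r0' : R') (w : List A) :
    w.foldr (compDR dl dr out dr') (r0, fun _ => r0') =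
      (w.foldr dr r0, fun q => (bimRun dl dr r0 out q w).foldr dr' r0') := by
  induction w with
  | nil => rfl
  | cons a w ih =>
    rw [List.foldr_cons, ih]
    rfl

theorem comp_run (dl : Q → A → Q) (dr : A → R → R) (r0 : R) (out : Q → A → R → B)
    (dl' : Q' → B → Q') (dr' : B → R' → R') (r0' : R') (out' : Q' → B → R' → C)
    (w : List A) : ∀ (q : Q) (φ : R → Q'),
    bimRun (compDL dl dr out dl') (compDR dl dr out dr') (r0, fun _ => r0')
      (compOut dl dr out out') (q, φ) w =
    bimRun dl' dr' r0' out' (φ (w.foldr dr r0)) (bimRun dl dr r0 out q w) := by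
  induction w with
  | nil => intro q φ; rfl
  | cons a w ih =>
    intro q φ
    simp only [bimRun, List.foldr_cons]
    rw [comp_foldr]
    congr 1
    exact ih _ _

end comp

theorem bim_comp : StmBimComp := by
  rintro A B C f g ⟨Q, R, hQ, hR, q0, r0, dl, dr, out, hf⟩
    ⟨Q', R', hQ', hR', q0', r0', dl', dr', out', hg⟩
  refine ⟨Q × (R → Q'), R × (Q → R'), inferInstance, inferInstance, (q0, fun _ => q0'),
    (r0, fun _ => r0'), compDL dl dr out dl', compDR dl dr out dr', compOut dl dr out out', ?_⟩
  intro w
  show g (f w) = _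
  rw [comp_run, hg, hf]

end Pool.Agent.R652.CA
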