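import Pool.Agent.R652.CA.Exp

/-!
# Project CA: replacing a bud at the position by a leaf (`StmContract`)
-/

namespace Pool.Agent.R652.CA

open List

namespace Que

/-- push a letter at the front of a queue -/
def push (a : I2) (q : Fin 8 → I2) : Fin 8 → I2 := ![a, q 0, q 1, q 2, q 3, q 4, q 5, q 6]

theorem push_eq (q : Fin 8 → I2) (a : I2) :
    a :: List.ofFn q = List.ofFn (push a q) ++ [q 7] := by
  simp [push, List.ofFn_succ]

/-- is the letter the first cell of a node at height zero -/
def isTop (a : I3) : Bool :=
  match a with
  | (Info.nd _ 0 _, _, true) => true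
  | _ => false

theorem isTop_false (i : Info) (e : Fin 64) : isTop (i, e, false) = false := by
  unfold isTop
  split
  · rename_i heq
    simp at heq
  · rfl

/-- last letter of the vertex of a cell -/
def lastI : Info → Option Lab
  | Info.nd _ _ l => l
  | Info.lf l => l
  | Info.tl l => l
  | Info.en => none

/-- the step of the contracting machine -/
def stepC (a : I3) : Option (Fin 8 → I2) → Option (Fin 8 → I2) × I2
  | none => (none, fg a)
  | some q => if isTop a = true then (none, (Info.lf (lastI a.1), md 0))
      else (some (push (fg a) q), q 7)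

/-- the last eight letters -/
theorem runR_some (q0 : Fin 8 → I2) (w : List I3) (hw : ∀ a ∈ w, isTop a = false) :
    ∃ q : Fin 8 → I2, (mealyRaux stepC (some q0) w).1 = some q ∧
      w.map fg ++ List.ofFn q0 = List.ofFn q ++ (mealyRaux stepC (some q0) w).2 := by
  induction w with
  | nil => exact ⟨q0, rfl, by simp [mealyRaux]⟩
  | cons a w ih =>
    obtain ⟨q, h1, h2⟩ := ih (fun x hx => hw x (by simp [hx]))
    have ha : isTop a = false := hw a (by simp)
    refine ⟨push (fg a) q, ?_, ?_⟩
    · simp only [mealyRaux, h1, stepC, ha]
      rfl
    · have h3 : (mealyRaux stepC (some q0) (a :: w)).2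
          = q 7 :: (mealyRaux stepC (some q0) w).2 := by
        simp only [mealyRaux, h1, stepC, ha]
        rfl
      rw [h3, List.map_cons, List.cons_append, h2]
      have h4 := push_eq q (fg a)
      rw [← List.cons_append, h4]
      simp

theorem runR_none (A : List (Info × ℕ)) (q0 : Option (Fin 8 → I2)) (w : List I3)
    (hw : (mealyRaux stepC q0 w).1 = none) :
    (mealyRaux stepC q0 (A.map sl ++ w)).1 = none ∧
      (mealyRaux stepC q0 (A.map sl ++ w)).2 = A.map sl' ++ (mealyRaux stepC q0 w).2 := by
  induction A with
  | nil => exact ⟨hw, rfl⟩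
  | cons a A ih =>
    obtain ⟨h1, h2⟩ := ih
    simp only [List.map_cons, List.cons_append, mealyRaux, h1, h2, stepC]
    exact ⟨trivial, rfl⟩

end Que

open Que in
theorem contract (hR : StmBimR) (hBlock : StmBlock) (hTail : StmTail) (hPut : StmPut)
    (hValid : StmValid) (_hOut : StmOut) : StmContract := by
  refine ⟨mealyR stepC (some (fun _ => (Info.en, md 0))), hR _ _ _ inferInstance _ _, ?_⟩
  intro t p j hOn hbud
  obtain ⟨A, B, _, hB, hAB⟩ := hBlock t p hOn none
  set l := lastOf p none with hl
  obtain ⟨A', hA', hA'', htail⟩ := hTail p none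
  set R : List (Info × ℕ) := A' ++ [(Info.tl l, 0)] with hRdef
  have e1 : tourI t p none = A ++ (tourO Tr.bud 0 l ++ B) := by
    have h1 := hAB (t.at' p)
    rw [hPut.1, hbud] at h1
    exact h1
  have e2 : tourI (Tr.put Tr.leaf t p) p none = A ++ ([(Info.lf l, 0)] ++ B) := hAB Tr.leaf
  have v1 := hValid t p j hOn
  have v2 := hValid (Tr.put Tr.leaf t p) p (j + 8) (hPut.2.2.1 _ _ _ hOn)
  set rest : List (Info × ℕ) := B ++ (R ++ replicate (j + 8 + 1) (Info.en, 0)) with hrest
  set Y : List (Info × ℕ) := List.ofFn (qu l) ++ (B ++ (R ++ replicate (j + 1) (Info.en, 0)))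
    with hY
  have g1 : tape t p j = A ++ (Info.nd false 0 l, 0) :: Y := by
    simp only [tape, e1, htail, tour_bud, List.append_assoc, List.cons_append, hY, hRdef]
  have g2 : tape (Tr.put Tr.leaf t p) p (j + 8) = A ++ (Info.lf l, 0) :: rest := by
    simp only [tape, e2, htail, List.append_assoc, List.cons_append, List.nil_append, hrest,
      hRdef]
  have hrest' : rest = (B ++ (R ++ replicate (j + 1) (Info.en, 0))) ++ replicate 8 (Info.en, 0) := by
    rw [hrest]
    simp only [List.append_assoc]
    rw [← List.replicate_add]
  have hX : Y ++ replicate 8 (Info.en, 0) = List.ofFn (qu l) ++ rest := by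
    rw [hY, hrest', List.append_assoc]
  have hlen : Y.length = rest.length := by
    have h1 := congrArg List.length hX
    simp only [List.length_append, List.length_replicate, List.length_ofFn] at h1
    omega
  have hchain : Lip (Y ++ replicate 8 (Info.en, 0)) := by
    rw [hX]
    have h1 : Lip (A ++ (Info.lf l, 0) :: rest) := by
      rw [← g2]
      exact v2.1
    have h2 : Lip ((Info.lf l, 0) :: rest) := (List.isChain_append.mp h1).2.1
    have h3 : Lip rest := h2.tail
    refine (qu_chain l).append h3 ?_
    intro x hx y hy
    rw [qu_last] at hx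
    have hx' : x = (Info.nd false 4 l, 0) := by simpa using hx.symm
    subst hx'
    rcases hr : rest with _ | ⟨z, zs⟩
    · rw [hr] at hy
      simp at hy
    · rw [hr] at hy h2
      have hy' : y = z := by simpa using hy.symm
      subst hy'
      have h4 := (List.isChain_cons_cons.mp h2).1
      exact h4
  refine ⟨v1, v2, ?_, ?_⟩
  · rw [g1, g2]
    refine List.rel_append (List.forall₂_same.mpr (by intro x _; simp)) ?_
    refine List.Forall₂.cons (by simp) ?_
    have h1 := f2_take_drop _ hchain 8 (by norm_num) (by simp)
    have h2 : (Y ++ replicate 8 (Info.en, 0)).drop 8 = rest := by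
      rw [hX]
      apply List.drop_left'
      simp
    have h3 : (Y ++ replicate 8 (Info.en, 0)).take
        ((Y ++ replicate 8 (Info.en, 0)).length - 8) = Y := by
      apply List.take_left'
      simp
    rw [h2, h3] at h1
    exact h1
  · rw [g1, g2, sh_eq, sh'_eq, List.map_append, List.map_append, List.map_cons, List.map_cons]
    have hnt : ∀ a ∈ Y.map sl, isTop a = false := by
      intro a ha
      obtain ⟨x, hx, rfl⟩ := List.mem_map.mp ha
      have key : x.2 ≠ 0 ∨ ∀ b l', x.1 ≠ Info.nd b 0 l' := by
        rw [hY, hRdef] at hx
        simp only [List.mem_append, List.mem_replicate, List.mem_singleton] at hx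
        rcases hx with hx | hx | (hx | hx) | hx
        · right
          simp only [qu, List.mem_ofFn] at hx
          obtain ⟨i, hi⟩ := hx
          intro b l' hcon
          fin_cases i <;> simp at hi <;> subst hi <;> simp at hcon
        · left
          exact hB x hx
        · left
          exact hA' x hx
        · right
          rw [hx]
          intro b l' hcon
          simp at hcon
        · right
          rw [hx.2]
          intro b l' hcon
          simp at hcon
      obtain ⟨i, d⟩ := x
      rcases key with key | key
      · have hd : decide (d = 0) = false := by simpa using key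
        simp only [sl, hd]
        exact isTop_false _ _
      · simp only [sl]
        cases i with
        | nd b k l' =>
          have hk : k ≠ 0 := by
            rintro rfl
            exact key b l' rfl
          unfold isTop
          split
          · rename_i heq
            simp only [Prod.mk.injEq, Info.nd.injEq] at heq
            exact absurd heq.1.2.1 hk
          · rfl
        | lf l' => rfl
        | tl l' => rfl
        | en => rfl
    obtain ⟨q, h1, h2⟩ := runR_some (fun _ => (Info.en, md 0)) (Y.map sl) hnt
    have h3 : mealyRaux stepC (some (fun _ => (Info.en, md 0))) (sl (Info.nd false 0 l, 0) :: Y.map sl)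
        = (none, (Info.lf l, md 0) ::
          (mealyRaux stepC (some (fun _ => (Info.en, md 0))) (Y.map sl)).2) := by
      simp only [mealyRaux, h1]
      rfl
    have h4 := runR_none A (some (fun _ => (Info.en, md 0)))
      (sl (Info.nd false 0 l, 0) :: Y.map sl) (by rw [h3])
    have h5 : mealyR stepC (some (fun _ => (Info.en, md 0)))
        (A.map sl ++ sl (Info.nd false 0 l, 0) :: Y.map sl)
        = A.map sl' ++ (Info.lf l, md 0) ::
          (mealyRaux stepC (some (fun _ => (Info.en, md 0))) (Y.map sl)).2 := by
      rw [mealyR, h4.2, h3]
    rw [h5]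
    congr 1
    have h6 : (mealyRaux stepC (some (fun _ => (Info.en, md 0))) (Y.map sl)).2 = rest.map sl' := by
      have h7 : (Y.map sl).map fg ++ List.ofFn (fun _ : Fin 8 => (Info.en, md 0))
          = (List.ofFn (qu l)).map sl' ++ rest.map sl' := by
        have h8 : Y.map sl' ++ (replicate 8 ((Info.en, 0) : Info × ℕ)).map sl'
            = (List.ofFn (qu l)).map sl' ++ rest.map sl' := by
          rw [← List.map_append, ← List.map_append, hX]
        rw [map_fg, ← h8]
        congr 1
      rw [h2] at h7
      exact (List.append_inj h7 (by simp)).2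
    rw [h6]
    rfl

end Pool.Agent.R652.CA
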