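import Mathlib

/-!
# One-tape linear-time Cayley computability of `Z_2 wr F_2` : common definitions

Project CA (MP_1173fd_al).  See `NOTES.md` in this folder.
-/

namespace Pool.Agent.R652.CA

open List

/-! ## 1. Bimachines (length preserving finite-state functions) -/

/-- Run of a bimachine: letter `n` of the output depends on the left state before letter `n`,
letter `n`, and the right state of the suffix after letter `n`. -/
def bimRun {A B Q R : Type} (dl : Q → A → Q) (dr : A → R → R) (r0 : R) (out : Q → A → R → B) :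
    Q → List A → List B
  | _, [] => []
  | q, a :: w => out q a (w.foldr dr r0) :: bimRun dl dr r0 out (dl q a) w

/-- `f` is computed by a finite bimachine. -/
def IsBim {A B : Type} (f : List A → List B) : Prop :=
  ∃ (Q R : Type) (_ : Finite Q) (_ : Finite R) (q0 : Q) (r0 : R) (dl : Q → A → Q)
    (dr : A → R → R) (out : Q → A → R → B), ∀ w, f w = bimRun dl dr r0 out q0 w

/-- Left-to-right Mealy machine. -/
def mealyL {A B Q : Type} (step : Q → A → Q × B) : Q → List A → List B
  | _, [] => []
  | q, a :: w => (step q a).2 :: mealyL step (step q a).1 w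

/-- Right-to-left Mealy machine: returns the final state and the output word. -/
def mealyRaux {A B Q : Type} (step : A → Q → Q × B) (q0 : Q) : List A → Q × List B
  | [] => (q0, [])
  | a :: w => ((step a (mealyRaux step q0 w).1).1,
      (step a (mealyRaux step q0 w).1).2 :: (mealyRaux step q0 w).2)

/-- Output of a right-to-left Mealy machine. -/
def mealyR {A B Q : Type} (step : A → Q → Q × B) (q0 : Q) (w : List A) : List B :=
  (mealyRaux step q0 w).2

/-- Every letter together with its left and right neighbours. -/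
def ctx {A : Type} : Option A → List A → List (Option A × A × Option A)
  | _, [] => []
  | p, a :: w => (p, a, w.head?) :: ctx (some a) w

def StmBimMap : Prop := ∀ (A B : Type) (φ : A → B), IsBim (List.map φ)
def StmBimComp : Prop := ∀ (A B C : Type) (f : List A → List B) (g : List B → List C),
  IsBim f → IsBim g → IsBim (fun w => g (f w))
def StmBimZip : Prop := ∀ (A B C : Type) (f : List A → List B) (g : List A → List C),
  IsBim f → IsBim g → IsBim (fun w => (f w).zip (g w))
def StmBimL : Prop := ∀ (A B Q : Type) (_ : Finite Q) (step : Q → A → Q × B) (q0 : Q),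
  IsBim (mealyL step q0)
def StmBimR : Prop := ∀ (A B Q : Type) (_ : Finite Q) (step : A → Q → Q × B) (q0 : Q),
  IsBim (mealyR step q0)
def StmBimCtx : Prop := ∀ (A : Type) (_ : Finite A), IsBim (ctx (A := A) none)
/-- padding with `none` on the right -/
def StmBimPad : Prop := ∀ (A B : Type) (f : List A → List B), IsBim f →
  ∃ g : List (Option A) → List (Option B), IsBim g ∧
    ∀ (w : List A) (j : ℕ), g (w.map some ++ replicate j none) = (f w).map some ++ replicate j none
/-- case distinction on a regular property of the whole word -/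
def StmBimIte : Prop := ∀ (A B Q : Type) (_ : Finite Q) (step : Q → A → Q) (q0 : Q) (acc : Q → Bool)
  (f g : List A → List B), IsBim f → IsBim g →
    IsBim (fun w => if acc (w.foldl step q0) = true then f w else g w)

/-! ## 2. Position-faithful one-tape machines -/

/-- Head moves. -/
inductive Move
  | left
  | stay
  | right

/-- A position-faithful one-tape Turing machine with input alphabet `A`: the tape alphabet `Γ`
contains (via `emb`) the input letters, a blank and a marker; the marker can not be overwritten,
is never written on another cell, and the head never moves left of it. `δ q g = none` means that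
the machine halts. -/
structure Machine (A : Type) where
  Γ : Type
  Q : Type
  finΓ : Finite Γ
  finQ : Finite Q
  emb : A → Γ
  blank : Γ
  mark : Γ
  emb_inj : Function.Injective emb
  emb_ne_blank : ∀ a, emb a ≠ blank
  emb_ne_mark : ∀ a, emb a ≠ mark
  blank_ne_mark : blank ≠ mark
  start : Q
  acc : Q → Prop
  δ : Q → Γ → Option (Q × Γ × Move)
  δ_mark : ∀ q q' g d, δ q mark = some (q', g, d) → g = mark ∧ d ≠ Move.left
  δ_other : ∀ q s q' g d, s ≠ mark → δ q s = some (q', g, d) → g ≠ mark

/-- Configurations: state, head position, tape (cell `0` is the leftmost one). -/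
structure Cfg {A : Type} (M : Machine A) where
  q : M.Q
  pos : ℕ
  tape : ℕ → M.Γ

/-- New head position. -/
def Move.app : Move → ℕ → ℕ
  | Move.left, n => n - 1
  | Move.stay, n => n
  | Move.right, n => n + 1

/-- The machine has halted. -/
def Cfg.Halted {A : Type} {M : Machine A} (c : Cfg M) : Prop := M.δ c.q (c.tape c.pos) = none

/-- One step (halted configurations do not change). -/
def Cfg.step {A : Type} {M : Machine A} (c : Cfg M) : Cfg M :=
  match M.δ c.q (c.tape c.pos) with
  | none => c
  | some (q', g, d) => ⟨q', d.app c.pos, Function.update c.tape c.pos g⟩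

/-- The tape `mark x blank blank ...`. -/
def Machine.tapeOf {A : Type} (M : Machine A) (x : List A) : ℕ → M.Γ
  | 0 => M.mark
  | n + 1 => match x[n]? with
    | some a => M.emb a
    | none => M.blank

/-- Initial configuration on input `x`. -/
def Machine.init {A : Type} (M : Machine A) (x : List A) : Cfg M := ⟨M.start, 0, M.tapeOf x⟩

/-- `f` is computed in linear time by a position-faithful one-tape machine: on every input of
length `n` the machine halts in an accepting state within `C (n + 1)` steps, with the tape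
beginning `mark f(x) blank`. -/
def LinTime {A : Type} (f : List A → List A) : Prop :=
  ∃ (M : Machine A) (C : ℕ), ∀ x : List A, ∃ k ≤ C * (x.length + 1),
    ((Cfg.step^[k]) (M.init x)).Halted ∧ M.acc ((Cfg.step^[k]) (M.init x)).q ∧
      ∀ n ≤ (f x).length + 1, ((Cfg.step^[k]) (M.init x)).tape n = M.tapeOf (f x) n

/-- The letters before the first `none`. -/
def unpad {A : Type} : List (Option A) → List A
  | [] => []
  | none :: _ => []
  | some a :: w => a :: unpad w

def StmTM : Prop := ∀ (A : Type) (_ : Finite A) (F : List (Option A) → List (Option A)),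
  IsBim F → ∀ c : ℕ, LinTime (fun w : List A => unpad (F (w.map some ++ replicate c none)))

/-! ## 3. The reversible tiling of the quarter plane -/

/-- smallest power of two `> t` -/
def m (t : ℕ) : ℕ := 2 ^ Nat.size t

/-- `S y = (i mod 2)` if `y = 2^v (2 i + 1)`; `S 0 = 0`. -/
def S (y : ℕ) : Bool := y.testBit (padicValNat 2 y + 1)

/-- Cell contents `(S, wall, P, X₊, X₋)`. -/
abbrev T0 : Type := Bool × Bool × Bool × Option Bool × Option Bool

/-- The tiling: column `y`, height `t`. -/
def T (y t : ℕ) : T0 :=
  (S y, decide (y % m t = 0), decide (y % m t = (2 * t) % m t),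
    if y % m t = t % m t then some (decide (y / m t % 2 = 1)) else none,
    if (y + t) % m t = 0 then some (decide (((y + t) / m t + 1) % 2 = 1)) else none)

/-- blocks of 32 columns -/
abbrev Blk : Type := Fin 32 → T0

/-- block `n` at height `t` -/
def blk (n t : ℕ) : Blk := fun i => T (32 * n + i) t

/-- the block to the left, if there is one -/
def prevBlk (n t : ℕ) : Option Blk := if n = 0 then none else some (blk (n - 1) t)

def StmUp : Prop := ∃ U : Option T0 → Option T0 → T0 → T0 → T0 → T0, ∀ y t : ℕ,
  T y (t + 1) = U (if 2 ≤ y then some (T (y - 2) t) else none)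
    (if 1 ≤ y then some (T (y - 1) t) else none) (T y t) (T (y + 1) t) (T (y + 2) t)
def StmDown : Prop := ∃ U : Option T0 → Option T0 → T0 → T0 → T0 → T0, ∀ y t : ℕ,
  T y t = U (if 2 ≤ y then some (T (y - 2) (t + 1)) else none)
    (if 1 ≤ y then some (T (y - 1) (t + 1)) else none) (T y (t + 1)) (T (y + 1) (t + 1))
      (T (y + 2) (t + 1))
/-- from a block and its two neighbours one can compute the block at heights `t - 10 .. t + 10` -/
def StmBlk : Prop := ∃ F : ℤ → Option Blk → Blk → Blk → Blk, ∀ n t t' : ℕ,
  |(t' : ℤ) - t| ≤ 10 → blk n t' = F ((t' : ℤ) - t) (prevBlk n t) (blk n t) (blk (n + 1) t)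
def StmZero : Prop := ∃ Z : Blk → Bool, ∀ n t : ℕ, Z (blk n t) = decide (t = 0)
def StmB0 : Prop := ∃ B0 : Bool → Bool → Blk, ∀ n : ℕ, blk n 0 = B0 (S n) (decide (n % 2 = 1))

/-! ## 4. Encoding of tapes with heights -/

/-- letters of the encoding: information, height mod 64, is the height zero,
binary digit of the length of the tape, and the blocks `n - 1`, `n`, `n + 1` at the height. -/
abbrev Letter (I : Type) : Type := I × Fin 64 × Bool × Bool × Option Blk × Blk × Blk

/-- reduction mod 64 -/
def md (d : ℕ) : Fin 64 := ⟨d % 64, Nat.mod_lt _ (by norm_num)⟩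

/-- letter number `n` of a tape of length `N` -/
def letter {I : Type} (N n : ℕ) (i : I) (d : ℕ) : Letter I :=
  (i, md d, decide (d = 0), N.testBit n, prevBlk n d, blk n d, blk (n + 1) d)

/-- the encoding of a tape (list of informations with heights) -/
def enc {I : Type} (ℓ : List (I × ℕ)) : List (Letter I) :=
  ℓ.mapIdx (fun n x => letter ℓ.length n x.1 x.2)

/-- shadow: information, height mod 64 and whether the height is zero -/
def sh {I : Type} (ℓ : List (I × ℕ)) : List (I × Fin 64 × Bool) :=
  ℓ.map (fun x => (x.1, md x.2, decide (x.2 = 0)))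

/-- shadow without the zero test -/
def sh' {I : Type} (ℓ : List (I × ℕ)) : List (I × Fin 64) :=
  ℓ.map (fun x => (x.1, md x.2))

/-- consecutive heights differ by at most one and the last height is zero -/
def Valid {I : Type} (ℓ : List (I × ℕ)) : Prop :=
  ℓ.IsChain (fun a b => |(a.2 : ℤ) - b.2| ≤ 1) ∧ ∃ (a : List (I × ℕ)) (i : I), ℓ = a ++ [(i, 0)]

/-- `Rel` is realised by one finite-state function on padded encodings. -/
def Uni {I : Type} (Rel : List (I × ℕ) → List (I × ℕ) → Prop) : Prop :=
  ∃ (F : List (Option (Letter I)) → List (Option (Letter I))) (c : ℕ), IsBim F ∧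
    ∀ ℓ ℓ', Rel ℓ ℓ' → ∀ j : ℕ, ∃ j' : ℕ, j ≤ j' ∧
      F ((enc ℓ).map some ++ replicate (j + c) none) = (enc ℓ').map some ++ replicate j' none

/-- change informations and heights according to a finite-state function of the shadow -/
def RelR {I : Type} (H : List (I × Fin 64 × Bool) → List (I × Fin 64))
    (ℓ ℓ' : List (I × ℕ)) : Prop :=
  Valid ℓ ∧ Valid ℓ' ∧ List.Forall₂ (fun a b => |(a.2 : ℤ) - b.2| ≤ 9) ℓ ℓ' ∧ H (sh ℓ) = sh' ℓ'

/-- duplicate the last cell (height zero) -/
def RelApp {I : Type} (ℓ ℓ' : List (I × ℕ)) : Prop :=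
  ∃ (a : List (I × ℕ)) (i : I), ℓ = a ++ [(i, 0)] ∧ ℓ' = a ++ [(i, 0), (i, 0)]

def StmR : Prop := ∀ (I : Type) (_ : Finite I) (H : List (I × Fin 64 × Bool) → List (I × Fin 64)),
  IsBim H → Uni (RelR H)
def StmApp : Prop := ∀ (I : Type) (_ : Finite I), Uni (RelApp (I := I))
def StmTrim : Prop := ∀ (I : Type) (_ : Finite I), Uni (fun ℓ ℓ' => RelApp (I := I) ℓ' ℓ)
def StmUniComp : Prop := ∀ (I : Type) (R₁ R₂ : List (I × ℕ) → List (I × ℕ) → Prop),
  Uni R₁ → Uni R₂ → Uni (fun ℓ ℓ'' => ∃ ℓ', R₁ ℓ ℓ' ∧ R₂ ℓ' ℓ'')
def StmUniIte : Prop := ∀ (I : Type) (_ : Finite I) (Q : Type) (_ : Finite Q)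
  (step : Q → I × Fin 64 × Bool → Q) (q0 : Q) (acc : Q → Bool)
  (R₁ R₂ : List (I × ℕ) → List (I × ℕ) → Prop), Uni R₁ → Uni R₂ →
    Uni (fun ℓ ℓ' => if acc ((sh ℓ).foldl step q0) = true then R₁ ℓ ℓ' else R₂ ℓ ℓ')

/-! ## 5. Trees, tours and tapes -/

/-- Labels of the edges: `0 = x`, `1 = x⁻¹`, `2 = y`, `3 = y⁻¹`. -/
abbrev Lab : Type := Fin 4

/-- inverse label -/
def inv : Lab → Lab := ![1, 0, 3, 2]

/-- Finite 4-ary trees with lamps on the nodes. -/
inductive Tr
  | leaf
  | node (b : Bool) (c0 c1 c2 c3 : Tr)

/-- child in direction `x` -/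
def Tr.child : Tr → Lab → Tr
  | Tr.leaf, _ => Tr.leaf
  | Tr.node _ c0 c1 c2 c3, x => ![c0, c1, c2, c3] x

/-- subtree at a path -/
def Tr.at' : Tr → List Lab → Tr
  | t, [] => t
  | t, x :: p => (t.child x).at' p

/-- Informations on the cells. The label option is the last letter of the vertex. -/
inductive Info
  | nd (b : Bool) (i : Fin 5) (last : Option Lab)
  | lf (last : Option Lab)
  | tl (last : Option Lab)
  | en
  deriving DecidableEq, Fintype

/-- Tour of a tree whose root is at distance `d` from the position, the position being outside of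
the tree or at its root (`d = 0`). -/
def tourO : Tr → ℕ → Option Lab → List (Info × ℕ)
  | Tr.leaf, d, last => [(Info.lf last, d)]
  | Tr.node b c0 c1 c2 c3, d, last =>
      (Info.nd b 0 last, d) :: (tourO c0 (d + 1) (some 0) ++
      (Info.nd b 1 last, d) :: (tourO c1 (d + 1) (some 1) ++
      (Info.nd b 2 last, d) :: (tourO c2 (d + 1) (some 2) ++
      (Info.nd b 3 last, d) :: (tourO c3 (d + 1) (some 3) ++
      [(Info.nd b 4 last, d)]))))

/-- Tour of a tree containing the position, at the relative path `p`. -/
def tourI : Tr → List Lab → Option Lab → List (Info × ℕ)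
  | t, [], last => tourO t 0 last
  | Tr.leaf, x :: p, last => [(Info.lf last, (x :: p).length)]
  | Tr.node b c0 c1 c2 c3, x :: p, last =>
      (Info.nd b 0 last, p.length + 1) ::
        ((if x = 0 then tourI c0 p (some 0) else tourO c0 (p.length + 2) (some 0)) ++
      (Info.nd b 1 last, p.length + 1) ::
        ((if x = 1 then tourI c1 p (some 1) else tourO c1 (p.length + 2) (some 1)) ++
      (Info.nd b 2 last, p.length + 1) ::
        ((if x = 2 then tourI c2 p (some 2) else tourO c2 (p.length + 2) (some 2)) ++
      (Info.nd b 3 last, p.length + 1) ::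
        ((if x = 3 then tourI c3 p (some 3) else tourO c3 (p.length + 2) (some 3)) ++
      [(Info.nd b 4 last, p.length + 1)]))))

/-- The geodesic to the position. -/
def tail : List Lab → Option Lab → List (Info × ℕ)
  | [], last => [(Info.tl last, 0)]
  | x :: p, last => (Info.tl last, p.length + 1) :: tail p (some x)

/-- The tape of the tree `t` with position `p`, followed by `j + 1` end cells. -/
def tape (t : Tr) (p : List Lab) (j : ℕ) : List (Info × ℕ) :=
  tourI t p none ++ (tail p none ++ replicate (j + 1) (Info.en, 0))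

/-- `p` is a node of `t` -/
def IsNode (t : Tr) (p : List Lab) : Prop := t.at' p ≠ Tr.leaf

/-- All proper prefixes of `p` are nodes of `t` (so `p` is a node or a leaf). -/
def OnTree (t : Tr) (p : List Lab) : Prop := ∀ q x, q ++ [x] <+: p → IsNode t q

/-- replace the subtree at `p` by `s` -/
def Tr.put (s : Tr) : Tr → List Lab → Tr
  | _, [] => s
  | Tr.leaf, _ :: _ => Tr.leaf
  | Tr.node b c0 c1 c2 c3, x :: p =>
      Tr.node b (if x = 0 then Tr.put s c0 p else c0) (if x = 1 then Tr.put s c1 p else c1)
        (if x = 2 then Tr.put s c2 p else c2) (if x = 3 then Tr.put s c3 p else c3)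

/-- the node with four leaves and lamp off -/
def Tr.bud : Tr := Tr.node false Tr.leaf Tr.leaf Tr.leaf Tr.leaf

/-- switch the lamp at the root -/
def Tr.flip : Tr → Tr
  | Tr.leaf => Tr.leaf
  | Tr.node b c0 c1 c2 c3 => Tr.node (!b) c0 c1 c2 c3

/-- last letter of the vertex `p`, the root of the tree having last letter `last` -/
def lastOf (p : List Lab) (last : Option Lab) : Option Lab :=
  match p.getLast? with
  | some x => some x
  | none => last

/-- block decomposition of the tour at the position, uniform in the subtree `s` -/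
def StmBlock : Prop := ∀ (t : Tr) (p : List Lab), OnTree t p → ∀ last : Option Lab,
  ∃ A B : List (Info × ℕ), (∀ x ∈ A, x.2 ≠ 0) ∧ (∀ x ∈ B, x.2 ≠ 0) ∧
    ∀ s : Tr, tourI (Tr.put s t p) p last = A ++ (tourO s 0 (lastOf p last) ++ B)
/-- decomposition of the tail -/
def StmTail : Prop := ∀ (p : List Lab) (last : Option Lab),
  ∃ A : List (Info × ℕ), (∀ x ∈ A, x.2 ≠ 0) ∧ (∀ x ∈ A, ∃ l, x.1 = Info.tl l) ∧
    tail p last = A ++ [(Info.tl (lastOf p last), 0)]
/-- simple facts -/
def StmPut : Prop := (∀ t p, Tr.put (t.at' p) t p = t) ∧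
  (∀ s t p, OnTree t p → (Tr.put s t p).at' p = s) ∧
  (∀ s t p, OnTree t p → OnTree (Tr.put s t p) p) ∧
  (∀ t x p, OnTree t (x :: p) → t ≠ Tr.leaf ∧ OnTree (t.child x) p) ∧
  (∀ t p x, OnTree t (p ++ [x]) → OnTree t p ∧ IsNode t p) ∧
  (∀ t p x, OnTree t p → IsNode t p → OnTree t (p ++ [x]))
/-- no zero heights in tours seen from outside, and shifting the distance -/
def StmOut : Prop := (∀ t d last, ∀ x ∈ tourO t (d + 1) last, x.2 ≠ 0) ∧
  (∀ t d last, tourO t (d + 1) last = (tourO t d last).map (fun x => (x.1, x.2 + 1)))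

def StmValid : Prop := ∀ t p j, OnTree t p → Valid (tape t p j)

/-- go down to the child `x` -/
def StmDownMove : Prop := ∀ x : Lab, ∃ H, IsBim H ∧ ∀ t p j, IsNode t p → OnTree t p →
  RelR H (tape t p (j + 1)) (tape t (p ++ [x]) j)
/-- go up to the parent; `x` is the last letter of the old position -/
def StmUpMove : Prop := ∃ H, IsBim H ∧ ∀ t p x j, OnTree t (p ++ [x]) →
  RelR H (tape t (p ++ [x]) j) (tape t p (j + 1))
/-- toggle the lamp -/
def StmToggle : Prop := ∃ H, IsBim H ∧ ∀ t p j, IsNode t p → OnTree t p →
  RelR H (tape t p j) (tape (Tr.put (t.at' p).flip t p) p j)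
/-- replace a leaf at the position by a node -/
def StmExpand : Prop := ∃ H, IsBim H ∧ ∀ t p j, OnTree t p → t.at' p = Tr.leaf →
  RelR H (tape t p (j + 8)) (tape (Tr.put Tr.bud t p) p j)
/-- replace a bud at the position by a leaf -/
def StmContract : Prop := ∃ H, IsBim H ∧ ∀ t p j, OnTree t p → t.at' p = Tr.bud →
  RelR H (tape t p j) (tape (Tr.put Tr.leaf t p) p (j + 8))
/-- finite-state test: is there a leaf at the position -/
def StmTestLeaf : Prop := ∃ (Q : Type) (_ : Finite Q) (step : Q → Info × Fin 64 × Bool → Q) (q0 : Q)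
  (acc : Q → Bool), ∀ t p j, OnTree t p →
    (acc ((sh (tape t p j)).foldl step q0) = true ↔ t.at' p = Tr.leaf)
/-- finite-state test: is there a bud at the position -/
def StmTestBud : Prop := ∃ (Q : Type) (_ : Finite Q) (step : Q → Info × Fin 64 × Bool → Q) (q0 : Q)
  (acc : Q → Bool), ∀ t p j, OnTree t p →
    (acc ((sh (tape t p j)).foldl step q0) = true ↔ t.at' p = Tr.bud)
/-- finite-state test: the last letter of the position is `x` -/
def StmTestLast : Prop := ∀ x : Lab, ∃ (Q : Type) (_ : Finite Q)
  (step : Q → Info × Fin 64 × Bool → Q) (q0 : Q) (acc : Q → Bool), ∀ t p j, OnTree t p →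
    (acc ((sh (tape t p j)).foldl step q0) = true ↔ p.getLast? = some x)

/-! ## 6. Canonical states and the group -/

/-- lamp at a vertex -/
def Tr.lit : Tr → List Lab → Bool
  | Tr.leaf, _ => false
  | Tr.node b _ _ _ _, [] => b
  | Tr.node _ c0 c1 c2 c3, x :: p => (![c0, c1, c2, c3] x).lit p

end Pool.Agent.R652.CA
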