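import Pool.Agent.R652.CA.TrB

/-!
# CA-DG : going down
-/

namespace Pool.Agent.R652.CA

open List

theorem canI_bud : CanI Tr.bud [] := by
  rw [canI_nil]
  refine ⟨bud_ne_leaf, fun y => ?_⟩
  rw [child_bud]
  trivial

theorem canI_down_put : ∀ (p : List Lab) (t : Tr) (x : Lab), CanI t p →
    CanI (Tr.put Tr.bud t (p ++ [x])) (p ++ [x])
  | [], t, x, h => by
    rw [canI_nil] at h
    rw [List.nil_append, canI_cons]
    refine ⟨put_ne_leaf _ x [] h.1, fun y => ?_⟩
    split_ifs with hy
    · rw [child_put _ x [] h.1, if_pos rfl, put_nil]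
      exact canI_bud
    · rw [child_put _ x [] h.1, if_neg hy]
      exact h.2 y
  | z :: p, t, x, h => by
    rw [canI_cons] at h
    rw [List.cons_append, canI_cons]
    refine ⟨put_ne_leaf _ z _ h.1, fun y => ?_⟩
    have h2 := h.2 y
    split_ifs with hy
    · subst hy
      rw [if_pos rfl] at h2
      rw [child_put _ y _ h.1, if_pos rfl]
      exact canI_down_put p _ x h2
    · rw [if_neg hy] at h2
      rw [child_put _ z _ h.1, if_neg hy]
      exact h2

theorem canI_down_same : ∀ (p : List Lab) (t : Tr) (x : Lab), CanI t p →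
    t.at' (p ++ [x]) ≠ Tr.leaf → CanI t (p ++ [x])
  | [], t, x, h, hx => by
    rw [canI_nil] at h
    rw [List.nil_append, canI_cons]
    refine ⟨h.1, fun y => ?_⟩
    split_ifs with hy
    · have hx2 : t.child x ≠ Tr.leaf := hx
      have h3 := h.2 x
      rw [canO_iff] at h3
      rw [canI_nil]
      rcases h3 with h3 | h3
      · exact absurd h3 hx2
      · exact ⟨hx2, h3.2⟩
    · exact h.2 y
  | z :: p, t, x, h, hx => by
    rw [canI_cons] at h
    rw [List.cons_append, canI_cons]
    refine ⟨h.1, fun y => ?_⟩
    have h2 := h.2 y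
    split_ifs with hy
    · rw [if_pos hy] at h2
      exact canI_down_same p _ x h2 hx
    · rw [if_neg hy] at h2
      exact h2

theorem lastOf_cons (z : Lab) (p : List Lab) (last : Option Lab) :
    lastOf (z :: p) last = lastOf p (some z) := by
  cases p with
  | nil => simp [lastOf]
  | cons a p =>
    simp only [lastOf, List.getLast?_cons_cons]
    cases h : (a :: p).getLast? with
    | none => simp at h
    | some b => rfl

theorem redO_down : ∀ (p : List Lab) (t : Tr) (x : Lab) (last : Option Lab), CanI t p →
    lastOf p last ≠ some (inv x) → RedO t last → RedO (Tr.put Tr.bud t (p ++ [x])) last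
  | [], t, x, last, h, hl, hr => by
    rw [canI_nil] at h
    rw [List.nil_append]
    rw [redO_iff] at hr ⊢
    intro y
    rw [child_put _ x [] h.1]
    split_ifs with hy
    · subst hy
      refine ⟨fun e => absurd e hl, ?_⟩
      rw [put_nil]
      simp [Tr.bud, RedO]
    · exact hr y
  | z :: p, t, x, last, h, hl, hr => by
    rw [canI_cons] at h
    rw [List.cons_append]
    rw [redO_iff] at hr ⊢
    intro y
    have h2 := h.2 y
    rw [child_put _ z _ h.1]
    split_ifs with hy
    · subst hy
      rw [if_pos rfl] at h2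
      refine ⟨fun e => ?_, ?_⟩
      · have h3 := (hr y).1 e
        rw [h3] at h2
        exact absurd (at_leaf p) (canI_node p _ h2)
      · rw [lastOf_cons] at hl
        exact redO_down p _ x _ h2 hl (hr y).2
    · exact hr y

theorem lit_bud' (q : List Lab) : Tr.bud.lit q = false := by
  cases q with
  | nil => rfl
  | cons x q => rw [lit_cons, child_bud, lit_leaf]

theorem downG : StmFin → StmDownG := by
  intro hF t p x t' h hx ht
  rcases ht with ⟨hl, rfl⟩ | ⟨hl, rfl⟩
  · refine ⟨⟨canI_down_put p t x h.1, redO_down p t x none h.1 ?_ h.2⟩, ?_⟩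
    · unfold lastOf
      cases hg : p.getLast? with
      | none => simp
      | some b =>
        rw [hg] at hx
        exact hx
    · rw [Psi_mul_gen]
      unfold Psi
      rw [lamps_congr hF (t' := t)]
      apply lit_put
      intro r
      rw [hl, lit_bud', lit_leaf]
  · exact ⟨⟨canI_down_same p t' x h.1 hl, h.2⟩, (Psi_mul_gen _ _ _).symm⟩

end Pool.Agent.R652.CA
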