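import Pool.Agent.R652.CA.Tran

/-!
# Project CA: going down to a child
-/

set_option autoImplicit false

namespace Pool.Agent.R652.CA

open List MV

namespace Dn

/-- states -/
inductive DS
  | out
  | ins (i : Fin 5)
  | conv
  deriving DecidableEq, Fintype

/-- the machine -/
def st (x : Lab) (q : DS) (c : Info × Fin 64 × Bool) : DS × (Info × Fin 64) :=
  match c.2.2 with
  | true =>
    match c.1 with
    | Info.nd b i l => (if i = 4 then DS.out else DS.ins i, (Info.nd b i l, c.2.1 + 1))
    | Info.tl l => (DS.conv, (Info.tl l, c.2.1 + 1))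
    | Info.lf l => (q, (Info.lf l, c.2.1))
    | Info.en =>
      match q with
      | DS.conv => (DS.out, (Info.tl (some x), c.2.1))
      | _ => (q, (Info.en, c.2.1))
  | false =>
    match q with
    | DS.ins i => (q, (c.1, if i.1 = x.1 then c.2.1 - 1 else c.2.1 + 1))
    | _ => (q, (c.1, c.2.1 + 1))

theorem out_plus (x : Lab) (i : Info) (h : Fin 64) :
    st x DS.out (i, h, false) = (DS.out, (i, h + 1)) := rfl

theorem ins_plus (x : Lab) (k : Fin 5) (hk : k.1 ≠ x.1) (i : Info) (h : Fin 64) :
    st x (DS.ins k) (i, h, false) = (DS.ins k, (i, h + 1)) := by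
  simp only [st, if_neg hk]

theorem ins_minus (x : Lab) (k : Fin 5) (hk : k.1 = x.1) (i : Info) (h : Fin 64) :
    st x (DS.ins k) (i, h, false) = (DS.ins k, (i, h - 1)) := by
  simp only [st, if_pos hk]

/-- a zero cell of a node -/
theorem nd_zero (x : Lab) (q : DS) (b : Bool) (i : Fin 5) (l : Option Lab) :
    Tran (st x) q [(Info.nd b i l, 0)] [(Info.nd b i l, 0 + 1)]
      (if i = 4 then DS.out else DS.ins i) := by
  refine Tran.one ?_ ?_
  · simp only [decide_true, st, md_succ]
  · push_cast
    norm_num

/-- a nonzero cell in the state `out` -/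
theorem out_cell (x : Lab) (i : Info) (d : ℕ) :
    Tran (st x) DS.out [(i, d + 1)] [(i, d + 1 + 1)] DS.out := by
  refine Tran.one ?_ ?_
  · have : decide (d + 1 = 0) = false := decide_eq_false (Nat.succ_ne_zero _)
    simp only [this]
    rw [out_plus, md_succ (d + 1)]
  · push_cast
    rw [abs_le]
    constructor <;> omega

theorem child0 (hO : StmOut) (x : Lab) (k : Fin 5) (c : Tr) (l : Option Lab) (y : Lab)
    (hy : y.1 = k.1) :
    Tran (st x) (DS.ins k) (tourO c (0 + 1) l)
      (if x = y then tourI c [] l else tourO c (([] : List Lab).length + 2) l) (DS.ins k) := by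
  by_cases h : x = y
  · rw [if_pos h]
    have e : tourI c [] l = tourO c 0 l := by cases c <;> rfl
    rw [e]
    exact tourO_minus hO _ (fun i d => ins_minus x k (by rw [← hy, h]) i d) c 0 l
  · rw [if_neg h]
    exact tourO_plus hO _ (fun i d => ins_plus x k (fun hk => h (Fin.ext (by omega))) i d) c 0 l

theorem tour (hO : StmOut) (x : Lab) : ∀ (p : List Lab) (t : Tr) (last : Option Lab),
    t.at' p ≠ Tr.leaf →
      Tran (st x) DS.out (tourI t p last) (tourI t (p ++ [x]) last) DS.out := by
  intro p
  induction p with
  | nil =>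
    intro t last ht
    cases t with
    | leaf => exact absurd rfl ht
    | node b c0 c1 c2 c3 =>
      have h0 := nd_zero x DS.out b 0 last
      have k0 := child0 hO x 0 c0 (some 0) 0 rfl
      have h1 := nd_zero x (DS.ins 0) b 1 last
      have k1 := child0 hO x 1 c1 (some 1) 1 rfl
      have h2 := nd_zero x (DS.ins 1) b 2 last
      have k2 := child0 hO x 2 c2 (some 2) 2 rfl
      have h3 := nd_zero x (DS.ins 2) b 3 last
      have k3 := child0 hO x 3 c3 (some 3) 3 rfl
      have h4 := nd_zero x (DS.ins 3) b 4 last
      exact tran_node h0 k0 h1 k1 h2 k2 h3 k3 h4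
  | cons y p ih =>
    intro t last ht
    cases t with
    | leaf =>
      exfalso
      apply ht
      have : ∀ q : List Lab, Tr.leaf.at' q = Tr.leaf := by
        intro q
        induction q with
        | nil => rfl
        | cons z q ihq => exact ihq
      exact this _
    | node b c0 c1 c2 c3 =>
      have hlen : (p ++ [x]).length = p.length + 1 := by simp
      have hcell : ∀ i : Fin 5, Tran (st x) DS.out [(Info.nd b i last, p.length + 1)]
          [(Info.nd b i last, (p ++ [x]).length + 1)] DS.out := by
        intro i
        rw [hlen]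
        exact out_cell x _ _
      have hch : ∀ (k : Lab) (c : Tr), ((Tr.node b c0 c1 c2 c3).child k = c) →
          Tran (st x) DS.out (if y = k then tourI c p (some k) else tourO c (p.length + 2) (some k))
            (if y = k then tourI c (p ++ [x]) (some k)
              else tourO c ((p ++ [x]).length + 2) (some k)) DS.out := by
        intro k c hc
        by_cases h : y = k
        · rw [if_pos h, if_pos h]
          refine ih c (some k) ?_
          subst h
          rw [← hc]
          exact ht
        · rw [if_neg h, if_neg h, hlen]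
          exact tourO_plus hO _ (out_plus x) c (p.length + 1) (some k)
      exact tran_node (hcell 0) (hch 0 c0 rfl) (hcell 1) (hch 1 c1 rfl) (hcell 2) (hch 2 c2 rfl)
        (hcell 3) (hch 3 c3 rfl) (hcell 4)

theorem tl (x : Lab) (j : ℕ) : ∀ (p : List Lab) (last : Option Lab),
    Tran (st x) DS.out (tail p last ++ replicate (j + 1 + 1) (Info.en, 0))
      (tail (p ++ [x]) last ++ replicate (j + 1) (Info.en, 0)) DS.out := by
  intro p
  induction p with
  | nil =>
    intro last
    have e1 : tail [] last ++ replicate (j + 1 + 1) (Info.en, 0) =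
        (Info.tl last, 0) :: (Info.en, 0) :: replicate (j + 1) (Info.en, 0) := rfl
    have e2 : tail ([] ++ [x]) last ++ replicate (j + 1) (Info.en, 0) =
        (Info.tl last, 0 + 1) :: (Info.tl (some x), 0) :: replicate (j + 1) (Info.en, 0) := rfl
    rw [e1, e2]
    refine Tran.cons _ _ _ _ _ DS.conv _ ?_ ?_ (Tran.cons _ _ _ _ _ DS.out _ ?_ ?_
      (Tran.same _ _ ?_))
    · simp only [decide_true, st, md_succ]
    · push_cast
      norm_num
    · rfl
    · norm_num
    · intro c hc
      rw [List.eq_of_mem_replicate hc]
      rfl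
  | cons y p ih =>
    intro last
    have hlen : (p ++ [x]).length = p.length + 1 := by simp
    have h1 : Tran (st x) DS.out [(Info.tl last, p.length + 1)]
        [(Info.tl last, (p ++ [x]).length + 1)] DS.out := by
      rw [hlen]
      exact out_cell x _ _
    have h2 := h1.append (ih (some y))
    exact h2

end Dn

open Dn in
theorem down_move : StmBimL → StmValid → StmOut → StmPut → StmDownMove := by
  intro hB hV hO hP x
  refine ⟨mealyL (st x) DS.out, hB _ _ _ inferInstance _ _, ?_⟩
  intro t p j hn ht
  have hT : Tran (st x) DS.out (tape t p (j + 1)) (tape t (p ++ [x]) j) DS.out :=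
    (tour hO x p t none hn).append (tl x j p none)
  exact ⟨hV t p (j + 1) ht, hV t (p ++ [x]) j (hP.2.2.2.2.2 t p x ht hn), hT.close, hT.run⟩

end Pool.Agent.R652.CA
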