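import Pool.Agent.R652.CA.Defs

/-!
# Project CA: replacing a leaf at the position by a node (`StmExpand`)
-/

namespace Pool.Agent.R652.CA

open List

namespace Que

abbrev I3 : Type := Info × Fin 64 × Bool
abbrev I2 : Type := Info × Fin 64

/-- forget the zero test -/
def fg (a : I3) : I2 := (a.1, a.2.1)
/-- shadow of a cell -/
def sl (x : Info × ℕ) : I3 := (x.1, md x.2, decide (x.2 = 0))
/-- shadow of a cell without zero test -/
def sl' (x : Info × ℕ) : I2 := (x.1, md x.2)

theorem sh_eq (ℓ : List (Info × ℕ)) : sh ℓ = ℓ.map sl := rfl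
theorem sh'_eq (ℓ : List (Info × ℕ)) : sh' ℓ = ℓ.map sl' := rfl
theorem map_fg (ℓ : List (Info × ℕ)) : (ℓ.map sl).map fg = ℓ.map sl' := by
  rw [List.map_map]
  rfl

/-- consecutive heights differ by at most one -/
abbrev Lip (X : List (Info × ℕ)) : Prop := X.IsChain (fun a b => |(a.2 : ℤ) - b.2| ≤ 1)

theorem lip_abs (X : List (Info × ℕ)) (h : Lip X) (i : ℕ) :
    ∀ (k : ℕ) (hk : i + k < X.length),
      |((X[i + k]).2 : ℤ) - ((X[i]'(by omega)).2 : ℤ)| ≤ k := by
  intro k
  induction k with
  | zero => intro hk; simp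
  | succ k ih =>
    intro hk
    have h1 := ih (by omega)
    have h2 := (List.isChain_iff_getElem.mp h) (i + k) (by omega)
    have h3 : (X[i + (k + 1)]).2 = (X[i + k + 1]'(by omega)).2 := rfl
    rw [h3]
    rw [abs_le] at *
    push_cast
    constructor <;> linarith [h1.1, h1.2, h2.1, h2.2]

theorem f2_drop_take (X : List (Info × ℕ)) (h : Lip X) (n : ℕ) (hn : n ≤ 9)
    (hl : n ≤ X.length) :
    List.Forall₂ (fun a b => |(a.2 : ℤ) - b.2| ≤ 9) (X.drop n) (X.take (X.length - n)) := by
  rw [List.forall₂_iff_get]
  refine ⟨by simp, ?_⟩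
  intro i h1 h2
  simp only [List.get_eq_getElem, List.getElem_drop, List.getElem_take]
  have h3 : i + n < X.length := by
    simp only [List.length_drop] at h1
    omega
  have h4 := lip_abs X h i n h3
  have h5 : X[n + i]'(by omega) = X[i + n] := by
    congr 1
    omega
  rw [h5]
  have h6 : (n : ℤ) ≤ 9 := by exact_mod_cast hn
  linarith

theorem f2_take_drop (X : List (Info × ℕ)) (h : Lip X) (n : ℕ) (hn : n ≤ 9)
    (hl : n ≤ X.length) :
    List.Forall₂ (fun a b => |(a.2 : ℤ) - b.2| ≤ 9) (X.take (X.length - n)) (X.drop n) := by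
  have h1 := (f2_drop_take X h n hn hl).flip
  refine h1.imp ?_
  intro a b hab
  rw [abs_sub_comm]
  exact hab

/-- the queue -/
def qu (l : Option Lab) : Fin 8 → Info × ℕ :=
  ![(Info.lf (some 0), 1), (Info.nd false 1 l, 0), (Info.lf (some 1), 1), (Info.nd false 2 l, 0),
    (Info.lf (some 2), 1), (Info.nd false 3 l, 0), (Info.lf (some 3), 1), (Info.nd false 4 l, 0)]

theorem tour_bud (l : Option Lab) :
    tourO Tr.bud 0 l = (Info.nd false 0 l, 0) :: List.ofFn (qu l) := by
  simp [Tr.bud, tourO, qu, List.ofFn_succ]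

theorem qu_chain (l : Option Lab) : Lip (List.ofFn (qu l)) := by
  simp [qu, List.ofFn_succ]

theorem qu_last (l : Option Lab) : (List.ofFn (qu l)).getLast? = some (Info.nd false 4 l, 0) := by
  simp [qu, List.ofFn_succ]

/-- shift a queue -/
def shift (q : Fin 8 → I2) (a : I2) : Fin 8 → I2 := ![q 1, q 2, q 3, q 4, q 5, q 6, q 7, a]

theorem shift_eq (q : Fin 8 → I2) (a : I2) :
    List.ofFn q ++ [a] = q 0 :: List.ofFn (shift q a) := by
  simp [shift, List.ofFn_succ]

/-- the step of the expanding machine -/
def stepE : Option (Fin 8 → I2) → I3 → Option (Fin 8 → I2) × I2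
  | none, (Info.lf l, _, true) => (some (fun i => sl' (qu l i)), (Info.nd false 0 l, md 0))
  | none, a => (none, fg a)
  | some q, a => (some (shift q (fg a)), q 0)

theorem run_some (w : List I3) : ∀ q : Fin 8 → I2,
    mealyL stepE (some q) w = (List.ofFn q ++ w.map fg).take w.length := by
  induction w with
  | nil => intro q; simp [mealyL]
  | cons a w ih =>
    intro q
    have h1 : List.ofFn q ++ (a :: w).map fg = q 0 :: (List.ofFn (shift q (fg a)) ++ w.map fg) := by
      rw [List.map_cons, ← List.singleton_append, ← List.append_assoc, shift_eq]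
      rfl
    rw [h1, List.length_cons, List.take_succ_cons]
    simp only [mealyL, stepE]
    rw [ih]

theorem run_none (A : List (Info × ℕ)) (w : List I3) (hA : ∀ x ∈ A, x.2 ≠ 0) :
    mealyL stepE none (A.map sl ++ w) = A.map sl' ++ mealyL stepE none w := by
  induction A with
  | nil => rfl
  | cons a A ih =>
    have ha : a.2 ≠ 0 := hA a (by simp)
    have h1 : stepE none (sl a) = (none, sl' a) := by
      obtain ⟨i, d⟩ := a
      have hd : decide (d = 0) = false := by simpa using ha
      simp only [sl, hd]
      cases i <;> rfl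
    simp only [List.map_cons, List.cons_append, mealyL, h1]
    rw [ih (fun x hx => hA x (by simp [hx]))]

/-- explicit form of the tape -/
theorem tape_form (hTail : StmTail) (p : List Lab) :
    ∃ R : List (Info × ℕ), ∀ (s : Tr) (A X B : List (Info × ℕ)) (j : ℕ),
      tourI s p none = A ++ (X ++ B) → tape s p j = A ++ (X ++ (B ++ (R ++
        replicate (j + 1) (Info.en, 0)))) := by
  obtain ⟨A', _, _, htail⟩ := hTail p none
  refine ⟨A' ++ [(Info.tl (lastOf p none), 0)], ?_⟩
  intro s A X B j h
  simp only [tape, h, htail, List.append_assoc]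

end Que

open Que in
theorem expand (hL : StmBimL) (hBlock : StmBlock) (hTail : StmTail) (hPut : StmPut)
    (hValid : StmValid) (_hOut : StmOut) : StmExpand := by
  refine ⟨mealyL stepE none, hL _ _ _ inferInstance _ _, ?_⟩
  intro t p j hOn hleaf
  obtain ⟨A, B, hA, _, hAB⟩ := hBlock t p hOn none
  set l := lastOf p none with hl
  obtain ⟨R, hR⟩ := tape_form hTail p
  have e1 : tourI t p none = A ++ ([(Info.lf l, 0)] ++ B) := by
    have h1 := hAB (t.at' p)
    rw [hPut.1, hleaf] at h1
    exact h1
  have e2 : tourI (Tr.put Tr.bud t p) p none = A ++ (tourO Tr.bud 0 l ++ B) := hAB Tr.bud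
  have f1 := hR t A _ B (j + 8) e1
  have f2 := hR (Tr.put Tr.bud t p) A _ B j e2
  have v1 := hValid t p (j + 8) hOn
  have v2 := hValid (Tr.put Tr.bud t p) p j (hPut.2.2.1 _ _ _ hOn)
  set rest : List (Info × ℕ) := B ++ (R ++ replicate (j + 8 + 1) (Info.en, 0)) with hrest
  set X : List (Info × ℕ) := List.ofFn (qu l) ++ rest with hX
  have g1 : tape t p (j + 8) = A ++ (Info.lf l, 0) :: rest := by
    rw [f1]
    rfl
  have hrest' : rest = (B ++ (R ++ replicate (j + 1) (Info.en, 0))) ++ replicate 8 (Info.en, 0) := by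
    rw [hrest]
    simp only [List.append_assoc]
    rw [← List.replicate_add]
  have g2 : tape (Tr.put Tr.bud t p) p j = A ++ (Info.nd false 0 l, 0) :: X.take rest.length := by
    rw [f2, tour_bud]
    have h1 : X.take rest.length = List.ofFn (qu l) ++ (B ++ (R ++ replicate (j + 1) (Info.en, 0))) := by
      rw [hX, hrest']
      generalize B ++ (R ++ replicate (j + 1) (Info.en, 0)) = W
      rw [← List.append_assoc]
      apply List.take_left'
      simp +arith
    rw [h1]
    rfl
  have hchain : Lip X := by
    have h1 : Lip (A ++ (Info.lf l, 0) :: rest) := by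
      rw [← g1]
      exact v1.1
    have h2 : Lip ((Info.lf l, 0) :: rest) := (List.isChain_append.mp h1).2.1
    have h3 : Lip rest := h2.tail
    refine (qu_chain l).append h3 ?_
    intro x hx y hy
    rw [qu_last] at hx
    have hx' : x = (Info.nd false 4 l, 0) := by simpa using hx.symm
    subst hx'
    rcases hr : rest with _ | ⟨z, zs⟩
    · rw [hr] at hy
      simp at hy
    · rw [hr] at hy h2
      have hy' : y = z := by simpa using hy.symm
      subst hy'
      have h4 := (List.isChain_cons_cons.mp h2).1
      exact h4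
  refine ⟨v1, v2, ?_, ?_⟩
  · rw [g1, g2]
    refine List.rel_append (List.forall₂_same.mpr (by intro x _; simp)) ?_
    refine List.Forall₂.cons (by simp) ?_
    have h1 := f2_drop_take X hchain 8 (by norm_num) (by simp [hX])
    have h2 : X.drop 8 = rest := by
      rw [hX]
      apply List.drop_left'
      simp
    have h3 : X.length - 8 = rest.length := by
      simp [hX]
    rw [h2, h3] at h1
    exact h1
  · rw [g1, g2, sh_eq, sh'_eq, List.map_append, run_none A _ hA, List.map_append]
    congr 1
    rw [List.map_cons, List.map_cons]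
    have h1 : mealyL stepE none (sl (Info.lf l, 0) :: rest.map sl)
        = (Info.nd false 0 l, md 0) :: mealyL stepE (some (fun i => sl' (qu l i))) (rest.map sl) := rfl
    rw [h1, run_some, map_fg, List.length_map]
    have h2 : List.ofFn (fun i => sl' (qu l i)) = (List.ofFn (qu l)).map sl' := by
      rw [List.map_ofFn]
      rfl
    rw [h2, ← List.map_append, List.map_take]
    rfl

end Pool.Agent.R652.CA
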