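import Pool.Agent.R652.CA.Grp

/-!
# CA-GEN (helper165): generators of the restricted wreath product
-/

namespace Pool.Agent.R652.CA

open List

namespace GenAux

/-- the closure -/
noncomputable abbrev M : Submonoid G := Submonoid.closure ({lamp} ∪ Set.range gen : Set G)

lemma lamp_mem : lamp ∈ M := Submonoid.subset_closure (Or.inl rfl)

lemma gen_mem (x : Lab) : gen x ∈ M := Submonoid.subset_closure (Or.inr ⟨x, rfl⟩)

lemma lab_surj (a : Fin 2 × Bool) : ∃ x : Lab, lab x = a := by
  obtain ⟨i, b⟩ := a
  fin_cases i <;> cases b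
  · exact ⟨1, rfl⟩
  · exact ⟨0, rfl⟩
  · exact ⟨3, rfl⟩
  · exact ⟨2, rfl⟩


lemma inr_mk_mem (L : List (Fin 2 × Bool)) :
    (SemidirectProduct.inr (FreeGroup.mk L : F2) : G) ∈ M := by
  induction L with
  | nil =>
    have h : (FreeGroup.mk [] : F2) = 1 := rfl
    rw [h, map_one]
    exact M.one_mem
  | cons a L ih =>
    have h : (FreeGroup.mk (a :: L) : F2) = FreeGroup.mk [a] * FreeGroup.mk L := by
      rw [FreeGroup.mul_mk]
      rfl
    rw [h, map_mul]
    apply M.mul_mem _ ih
    obtain ⟨x, rfl⟩ := lab_surj a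
    exact gen_mem x

lemma inr_mem (g : F2) : (SemidirectProduct.inr g : G) ∈ M := by
  have h := inr_mk_mem g.toWord
  rw [FreeGroup.mk_toWord] at h
  exact h

lemma single_mem (g : F2) :
    (SemidirectProduct.inl (Multiplicative.ofAdd (Finsupp.single g (1 : ZMod 2))) : G) ∈ M := by
  have h1 : act F2 g (Multiplicative.ofAdd (Finsupp.single 1 (1 : ZMod 2)))
      = Multiplicative.ofAdd (Finsupp.single g (1 : ZMod 2)) := by
    show Multiplicative.ofAdd (Finsupp.equivMapDomain (Equiv.mulLeft g)
      (Finsupp.single 1 (1 : ZMod 2))) = _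
    rw [Finsupp.equivMapDomain_single]
    simp
  rw [← h1, SemidirectProduct.inl_aut]
  apply M.mul_mem
  · apply M.mul_mem (inr_mem g)
    exact lamp_mem
  · exact inr_mem g⁻¹

lemma inl_mem (f : F2 →₀ ZMod 2) : (SemidirectProduct.inl (Multiplicative.ofAdd f) : G) ∈ M := by
  induction f using Finsupp.induction_linear with
  | zero =>
    rw [ofAdd_zero, map_one]
    exact M.one_mem
  | add f g hf hg =>
    rw [ofAdd_add, map_mul]
    exact M.mul_mem hf hg
  | single a b =>
    have hb : b = 0 ∨ b = 1 := by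
      revert b
      decide
    rcases hb with rfl | rfl
    · rw [Finsupp.single_zero, ofAdd_zero, map_one]
      exact M.one_mem
    · exact single_mem a

end GenAux

open GenAux in
theorem genG : StmGenG := by
  show M = ⊤
  rw [eq_top_iff]
  intro x _
  rw [← SemidirectProduct.inl_left_mul_inr_right x]
  exact M.mul_mem (inl_mem (Multiplicative.toAdd x.left)) (inr_mem x.right)

end Pool.Agent.R652.CA
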