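import Pool.Agent.R652.CA.Defs

/-!
# The group `Z_2 wr F_2`, canonical states, and the exact statements of the group pieces
-/

namespace Pool.Agent.R652.CA

open List

/-- The free group of rank two. -/
abbrev F2 : Type := FreeGroup (Fin 2)

/-- `Q` acts on the finitely supported functions `Q → Z/2` by translating indices:
the indicator of `x` is sent by `g` to the indicator of `g x`. -/
noncomputable def act (Q : Type) [Group Q] : Q →* MulAut (Multiplicative (Q →₀ ZMod 2)) where
  toFun g := AddEquiv.toMultiplicative (Finsupp.domCongr (Equiv.mulLeft g))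
  map_one' := by
    ext f x
    simp
    rfl
  map_mul' g h := by
    ext f x
    simp [mul_assoc]
    rfl

/-- The restricted wreath product `Z_2 wr F_2`. -/
abbrev G : Type := Multiplicative (F2 →₀ ZMod 2) ⋊[act F2] F2

/-- letter of the free group of a label -/
def lab : Lab → Fin 2 × Bool := ![(0, true), (0, false), (1, true), (1, false)]

/-- label of a letter of the free group -/
def unlab (a : Fin 2 × Bool) : Lab :=
  if a = (0, true) then 0 else if a = (0, false) then 1 else if a = (1, true) then 2 else 3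

/-- element of the free group of a path -/
def val (p : List Lab) : F2 := FreeGroup.mk (p.map lab)

/-- path of an element of the free group -/
def pathOf (g : F2) : List Lab := g.toWord.map unlab

/-- the generator with label `x` -/
noncomputable def gen (x : Lab) : G := ⟨1, val [x]⟩

/-- the lamp generator -/
noncomputable def lamp : G := ⟨Multiplicative.ofAdd (Finsupp.single 1 1), 1⟩

/-- all nodes are at reduced positions -/
def RedO : Tr → Option Lab → Prop
  | Tr.leaf, _ => True
  | Tr.node _ c0 c1 c2 c3, last =>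
      (last = some 1 → c0 = Tr.leaf) ∧ (last = some 0 → c1 = Tr.leaf) ∧
      (last = some 3 → c2 = Tr.leaf) ∧ (last = some 2 → c3 = Tr.leaf) ∧
      RedO c0 (some 0) ∧ RedO c1 (some 1) ∧ RedO c2 (some 2) ∧ RedO c3 (some 3)

/-- every node has a lit descendant -/
def CanO : Tr → Prop
  | Tr.leaf => True
  | Tr.node b c0 c1 c2 c3 =>
      (b = true ∨ c0 ≠ Tr.leaf ∨ c1 ≠ Tr.leaf ∨ c2 ≠ Tr.leaf ∨ c3 ≠ Tr.leaf) ∧
      CanO c0 ∧ CanO c1 ∧ CanO c2 ∧ CanO c3

/-- `p` is a node and every node not on the path `p` has a lit descendant -/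
def CanI : Tr → List Lab → Prop
  | Tr.leaf, _ => False
  | Tr.node _ c0 c1 c2 c3, [] => CanO c0 ∧ CanO c1 ∧ CanO c2 ∧ CanO c3
  | Tr.node _ c0 c1 c2 c3, x :: p =>
      (if x = 0 then CanI c0 p else CanO c0) ∧ (if x = 1 then CanI c1 p else CanO c1) ∧
      (if x = 2 then CanI c2 p else CanO c2) ∧ (if x = 3 then CanI c3 p else CanO c3)

/-- canonical states -/
def Can (t : Tr) (p : List Lab) : Prop := CanI t p ∧ RedO t none

/-- the set of lit vertices of the free group is finite -/
def StmFin : Prop := ∀ t : Tr, {g : F2 | t.lit (pathOf g) = true}.Finite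

open Classical in
/-- lamp configuration of a tree -/
noncomputable def lamps (t : Tr) : F2 →₀ ZMod 2 :=
  if h : {g : F2 | t.lit (pathOf g) = true}.Finite then
    Finsupp.onFinset h.toFinset (fun g => if t.lit (pathOf g) = true then 1 else 0) (by
      intro g hg
      simp only [Set.Finite.mem_toFinset, Set.mem_ofPred_eq]
      by_contra hcon
      simp [hcon] at hg)
  else 0

/-- the group element of a state -/
noncomputable def Psi (t : Tr) (p : List Lab) : G := ⟨Multiplicative.ofAdd (lamps t), val p⟩

/-- result of going down in direction `x` -/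
def downT (t : Tr) (p : List Lab) (x : Lab) : Tr → Prop := fun t' =>
  (t.at' (p ++ [x]) = Tr.leaf ∧ t' = Tr.put Tr.bud t (p ++ [x])) ∨
    (t.at' (p ++ [x]) ≠ Tr.leaf ∧ t' = t)

/-- result of going up from `q` -/
def upT (t : Tr) (q : List Lab) : Tr → Prop := fun t' =>
  (t.at' q = Tr.bud ∧ t' = Tr.put Tr.leaf t q) ∨ (t.at' q ≠ Tr.bud ∧ t' = t)

def StmCanNode : Prop := ∀ t p, Can t p → IsNode t p ∧ OnTree t p
def StmInj : Prop := ∀ t p t' p', Can t p → Can t' p' → Psi t p = Psi t' p' → t = t' ∧ p = p'
def StmCan1 : Prop := Can Tr.bud [] ∧ Psi Tr.bud [] = 1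
def StmToggleG : Prop := ∀ t p, Can t p → Can (Tr.put (t.at' p).flip t p) p ∧
  Psi (Tr.put (t.at' p).flip t p) p = Psi t p * lamp
def StmDownG : Prop := ∀ t p x t', Can t p → p.getLast? ≠ some (inv x) → downT t p x t' →
  Can t' (p ++ [x]) ∧ Psi t' (p ++ [x]) = Psi t p * gen x
def StmUpG : Prop := ∀ t p x t', Can t (p ++ [inv x]) → upT t (p ++ [inv x]) t' →
  Can t' p ∧ Psi t' p = Psi t (p ++ [inv x]) * gen x
def StmGenG : Prop := Submonoid.closure ({lamp} ∪ Set.range gen : Set G) = ⊤
def StmTapeInj : Prop := ∀ t p t' p', enc (tape t p 0) = enc (tape t' p' 0) → t = t' ∧ p = p'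

/-! ## The final statement -/

/-- `Gr` is Cayley position-faithful (one-tape) linear-time computable with respect to the finite
set `Sg`. -/
def CayleyLinear (Gr : Type) [Group Gr] (Sg : Set Gr) : Prop :=
  ∃ (A : Type) (_ : Finite A) (L : Set (List A)) (ψ : L → Gr) (f : Gr → List A → List A),
    Function.Bijective ψ ∧ (∀ s ∈ Sg, LinTime (f s)) ∧
      ∀ s ∈ Sg, ∀ w : L, ∃ h : f s w ∈ L, ψ ⟨f s w, h⟩ = ψ w * s

/-- Final theorem (even for every subset). -/
def StmMain : Prop := ∀ Sg : Set G, CayleyLinear G Sg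

end Pool.Agent.R652.CA
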