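import Pool.Agent.R652.CA.Grp

/-! # Piece CA-INJ: finiteness of the lamp set, canonical states are determined by the group element -/

namespace Pool.Agent.R652.CA

open List

namespace Inj

theorem leaf_at (q : List Lab) : Tr.leaf.at' q = Tr.leaf := by
  induction q with
  | nil => rfl
  | cons x q ih => exact ih

theorem leaf_lit (q : List Lab) : Tr.leaf.lit q = false := by
  cases q <;> rfl

theorem lit_at (t : Tr) (q : List Lab) (h : t.lit q = true) : t.at' q ≠ Tr.leaf := by
  induction q generalizing t with
  | nil =>
    cases t with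
    | leaf => simp [Tr.lit] at h
    | node b c0 c1 c2 c3 => simp [Tr.at']
  | cons x q ih =>
    cases t with
    | leaf => simp [Tr.lit] at h
    | node b c0 c1 c2 c3 =>
      have h' : (![c0, c1, c2, c3] x).lit q = true := h
      exact ih _ h'

theorem lit_finite (t : Tr) : {q : List Lab | t.lit q = true}.Finite := by
  induction t with
  | leaf =>
    have : {q : List Lab | Tr.leaf.lit q = true} = ∅ := by
      ext q
      simp [leaf_lit]
    rw [this]
    exact Set.finite_empty
  | node b c0 c1 c2 c3 h0 h1 h2 h3 =>
    have hfin : ({[]} ∪ ((List.cons 0) '' {q : List Lab | c0.lit q = true}) ∪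
        ((List.cons 1) '' {q : List Lab | c1.lit q = true}) ∪
        ((List.cons 2) '' {q : List Lab | c2.lit q = true}) ∪
        ((List.cons 3) '' {q : List Lab | c3.lit q = true}) : Set (List Lab)).Finite :=
      ((((Set.finite_singleton _).union (h0.image _)).union (h1.image _)).union
        (h2.image _)).union (h3.image _)
    refine hfin.subset ?_
    intro q hq
    cases q with
    | nil => simp
    | cons x q =>
      have h' : (![c0, c1, c2, c3] x).lit q = true := hq
      fin_cases x
      · simp only [Set.mem_union]
        exact Or.inl (Or.inl (Or.inl (Or.inr ⟨q, h', rfl⟩)))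
      · simp only [Set.mem_union]
        exact Or.inl (Or.inl (Or.inr ⟨q, h', rfl⟩))
      · simp only [Set.mem_union]
        exact Or.inl (Or.inr ⟨q, h', rfl⟩)
      · simp only [Set.mem_union]
        exact Or.inr ⟨q, h', rfl⟩

theorem unlab_lab (x : Lab) : unlab (lab x) = x := by
  revert x; decide

theorem unlab_inj : Function.Injective unlab := by
  intro a b
  revert a b
  decide

theorem pathOf_inj : Function.Injective pathOf := by
  intro g h hgh
  have h1 : g.toWord = h.toWord := List.map_injective_iff.mpr unlab_inj hgh
  exact FreeGroup.toWord_injective h1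

end Inj

open Inj in
theorem fin_thm : StmFin := by
  intro t
  exact (lit_finite t).preimage (pathOf_inj.injOn)

namespace Inj

theorem lab_step (a b : Lab) (h : a ≠ inv b) : (lab a).1 = (lab b).1 → (lab a).2 = (lab b).2 := by
  revert a b; decide

theorem red_path (q : List Lab) : ∀ (t : Tr) (last : Option Lab), RedO t last →
    t.at' q ≠ Tr.leaf → (∀ x, q.head? = some x → last ≠ some (inv x)) ∧
      q.IsChain (fun a b => a ≠ inv b) := by
  induction q with
  | nil =>
    intro t last _ _
    exact ⟨by simp, List.IsChain.nil⟩
  | cons x q ih =>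
    intro t last hr hn
    cases t with
    | leaf => exact absurd (leaf_at _) hn
    | node b c0 c1 c2 c3 =>
      obtain ⟨e0, e1, e2, e3, r0, r1, r2, r3⟩ := hr
      have hn' : (![c0, c1, c2, c3] x).at' q ≠ Tr.leaf := hn
      have hc : ![c0, c1, c2, c3] x ≠ Tr.leaf := by
        intro h0
        rw [h0] at hn'
        exact hn' (leaf_at _)
      have hlast : last ≠ some (inv x) := by
        intro hl
        subst hl
        fin_cases x
        · exact hc (e0 rfl)
        · exact hc (e1 rfl)
        · exact hc (e2 rfl)
        · exact hc (e3 rfl)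
      have hrx : RedO (![c0, c1, c2, c3] x) (some x) := by
        fin_cases x
        · exact r0
        · exact r1
        · exact r2
        · exact r3
      obtain ⟨i1, i2⟩ := ih _ _ hrx hn'
      refine ⟨?_, ?_⟩
      · intro y hy
        simp only [List.head?_cons, Option.some.injEq] at hy
        subst hy
        exact hlast
      · cases q with
        | nil => exact List.IsChain.singleton _
        | cons y q =>
          refine List.IsChain.cons_cons ?_ i2
          have := i1 y rfl
          intro hxy
          exact this (by rw [hxy])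

theorem path_reduced {t : Tr} {q : List Lab} (hr : RedO t none) (hn : t.at' q ≠ Tr.leaf) :
    pathOf (val q) = q := by
  have h1 := (red_path q t none hr hn).2
  have h2 : FreeGroup.IsReduced (q.map lab) := by
    unfold FreeGroup.IsReduced
    rw [List.isChain_map]
    exact h1.imp (fun a b h => lab_step a b h)
  unfold pathOf val
  rw [FreeGroup.toWord_mk, h2.reduce_eq, List.map_map]
  have : unlab ∘ lab = id := by
    funext x
    exact unlab_lab x
  rw [this, List.map_id]

theorem canI_node (p : List Lab) : ∀ t : Tr, CanI t p → t.at' p ≠ Tr.leaf := by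
  induction p with
  | nil =>
    intro t h
    cases t with
    | leaf => exact absurd h (by simp [CanI])
    | node b c0 c1 c2 c3 => simp [Tr.at']
  | cons x p ih =>
    intro t h
    cases t with
    | leaf => exact absurd h (by simp [CanI])
    | node b c0 c1 c2 c3 =>
      obtain ⟨g0, g1, g2, g3⟩ := h
      show (![c0, c1, c2, c3] x).at' p ≠ Tr.leaf
      fin_cases x
      · exact ih _ (by simpa using g0)
      · exact ih _ (by simpa using g1)
      · exact ih _ (by simpa using g2)
      · exact ih _ (by simpa using g3)

theorem canO_lit (t : Tr) (h : CanO t) (hne : t ≠ Tr.leaf) : ∃ q, t.lit q = true := by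
  induction t with
  | leaf => exact absurd rfl hne
  | node b c0 c1 c2 c3 h0 h1 h2 h3 =>
    obtain ⟨ho, g0, g1, g2, g3⟩ := h
    rcases ho with hb | hb | hb | hb | hb
    · exact ⟨[], hb⟩
    · obtain ⟨q, hq⟩ := h0 g0 hb
      exact ⟨0 :: q, hq⟩
    · obtain ⟨q, hq⟩ := h1 g1 hb
      exact ⟨1 :: q, hq⟩
    · obtain ⟨q, hq⟩ := h2 g2 hb
      exact ⟨2 :: q, hq⟩
    · obtain ⟨q, hq⟩ := h3 g3 hb
      exact ⟨3 :: q, hq⟩

theorem canO_inj (t : Tr) : ∀ t' : Tr, CanO t → CanO t' → (∀ q, t.lit q = t'.lit q) → t = t' := by
  induction t with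
  | leaf =>
    intro t' _ h' hl
    by_contra hne
    obtain ⟨q, hq⟩ := canO_lit t' h' (fun h => hne h.symm)
    rw [← hl, leaf_lit] at hq
    exact Bool.false_ne_true hq
  | node b c0 c1 c2 c3 h0 h1 h2 h3 =>
    intro t' h h' hl
    cases t' with
    | leaf =>
      obtain ⟨q, hq⟩ := canO_lit _ h (by simp)
      rw [hl, leaf_lit] at hq
      exact absurd hq Bool.false_ne_true
    | node b' d0 d1 d2 d3 =>
      obtain ⟨_, g0, g1, g2, g3⟩ := h
      obtain ⟨_, k0, k1, k2, k3⟩ := h'
      have hb : b = b' := hl []
      have e0 : c0 = d0 := h0 d0 g0 k0 (fun q => hl (0 :: q))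
      have e1 : c1 = d1 := h1 d1 g1 k1 (fun q => hl (1 :: q))
      have e2 : c2 = d2 := h2 d2 g2 k2 (fun q => hl (2 :: q))
      have e3 : c3 = d3 := h3 d3 g3 k3 (fun q => hl (3 :: q))
      rw [hb, e0, e1, e2, e3]

theorem canI_inj (p : List Lab) : ∀ t t' : Tr, CanI t p → CanI t' p →
    (∀ q, t.lit q = t'.lit q) → t = t' := by
  induction p with
  | nil =>
    intro t t' h h' hl
    cases t with
    | leaf => exact absurd h (by simp [CanI])
    | node b c0 c1 c2 c3 =>
      cases t' with
      | leaf => exact absurd h' (by simp [CanI])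
      | node b' d0 d1 d2 d3 =>
        obtain ⟨g0, g1, g2, g3⟩ := h
        obtain ⟨k0, k1, k2, k3⟩ := h'
        have hb : b = b' := hl []
        have e0 : c0 = d0 := canO_inj _ d0 g0 k0 (fun q => hl (0 :: q))
        have e1 : c1 = d1 := canO_inj _ d1 g1 k1 (fun q => hl (1 :: q))
        have e2 : c2 = d2 := canO_inj _ d2 g2 k2 (fun q => hl (2 :: q))
        have e3 : c3 = d3 := canO_inj _ d3 g3 k3 (fun q => hl (3 :: q))
        rw [hb, e0, e1, e2, e3]
  | cons x p ih =>
    intro t t' h h' hl
    cases t with
    | leaf => exact absurd h (by simp [CanI])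
    | node b c0 c1 c2 c3 =>
      cases t' with
      | leaf => exact absurd h' (by simp [CanI])
      | node b' d0 d1 d2 d3 =>
        obtain ⟨g0, g1, g2, g3⟩ := h
        obtain ⟨k0, k1, k2, k3⟩ := h'
        have hb : b = b' := hl []
        have e0 : c0 = d0 := by
          by_cases hx : x = 0
          · rw [if_pos hx] at g0 k0
            exact ih _ _ g0 k0 (fun q => hl (0 :: q))
          · rw [if_neg hx] at g0 k0
            exact canO_inj _ _ g0 k0 (fun q => hl (0 :: q))
        have e1 : c1 = d1 := by
          by_cases hx : x = 1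
          · rw [if_pos hx] at g1 k1
            exact ih _ _ g1 k1 (fun q => hl (1 :: q))
          · rw [if_neg hx] at g1 k1
            exact canO_inj _ _ g1 k1 (fun q => hl (1 :: q))
        have e2 : c2 = d2 := by
          by_cases hx : x = 2
          · rw [if_pos hx] at g2 k2
            exact ih _ _ g2 k2 (fun q => hl (2 :: q))
          · rw [if_neg hx] at g2 k2
            exact canO_inj _ _ g2 k2 (fun q => hl (2 :: q))
        have e3 : c3 = d3 := by
          by_cases hx : x = 3
          · rw [if_pos hx] at g3 k3
            exact ih _ _ g3 k3 (fun q => hl (3 :: q))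
          · rw [if_neg hx] at g3 k3
            exact canO_inj _ _ g3 k3 (fun q => hl (3 :: q))
        rw [hb, e0, e1, e2, e3]

theorem lamps_apply (hf : StmFin) (t : Tr) (g : F2) :
    lamps t g = if t.lit (pathOf g) = true then 1 else 0 := by
  unfold lamps
  rw [dif_pos (hf t)]
  simp [Finsupp.onFinset_apply]

theorem lit_eq (hf : StmFin) {t t' : Tr} (h : lamps t = lamps t') (g : F2) :
    t.lit (pathOf g) = t'.lit (pathOf g) := by
  have h1 := lamps_apply hf t g
  have h2 := lamps_apply hf t' g
  rw [h] at h1
  rw [h1] at h2
  by_cases ha : t.lit (pathOf g) = true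
  · by_cases hb : t'.lit (pathOf g) = true
    · rw [ha, hb]
    · rw [if_pos ha, if_neg hb] at h2
      exact absurd h2 (by decide)
  · by_cases hb : t'.lit (pathOf g) = true
    · rw [if_neg ha, if_pos hb] at h2
      exact absurd h2 (by decide)
    · rw [Bool.not_eq_true] at ha hb
      rw [ha, hb]

end Inj

open Inj in
theorem inj : StmFin → StmInj := by
  intro hf t p t' p' ht ht' hpsi
  have hl : lamps t = lamps t' := by
    have := congrArg (fun x : G => Multiplicative.toAdd x.left) hpsi
    simpa [Psi] using this
  have hv : val p = val p' := by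
    have := congrArg (fun x : G => x.right) hpsi
    simpa [Psi] using this
  have hp : p = p' := by
    have h1 := path_reduced ht.2 (canI_node p t ht.1)
    have h2 := path_reduced ht'.2 (canI_node p' t' ht'.1)
    rw [← h1, ← h2, hv]
  refine ⟨?_, hp⟩
  subst hp
  refine canI_inj p t t' ht.1 ht'.1 ?_
  intro q
  by_cases ha : t.lit q = true
  · have h1 := path_reduced ht.2 (lit_at t q ha)
    rw [← h1]
    exact lit_eq hf hl (val q)
  · by_cases hb : t'.lit q = true
    · have h1 := path_reduced ht'.2 (lit_at t' q hb)
      rw [← h1]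
      exact lit_eq hf hl (val q)
    · rw [Bool.not_eq_true] at ha hb
      rw [ha, hb]

end Pool.Agent.R652.CA
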