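import Pool.Agent.R652.CA.Grp
import Pool.Agent.R652.CA.Basic

/-! # Project CA: assembly from the statements of the pieces -/

namespace Pool.Agent.R652.CA

open List

theorem uni_mono {I : Type} {R R' : List (I × ℕ) → List (I × ℕ) → Prop} (h : Uni R)
    (hR : ∀ ℓ ℓ', R' ℓ ℓ' → R ℓ ℓ') : Uni R' := by
  obtain ⟨F, c, hF, h⟩ := h
  exact ⟨F, c, hF, fun ℓ ℓ' hr => h ℓ ℓ' (hR _ _ hr)⟩

theorem uni_id {I : Type} (hm : StmBimMap) : Uni (fun (ℓ ℓ' : List (I × ℕ)) => ℓ' = ℓ) := by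
  refine ⟨List.map id, 0, hm _ _ _, ?_⟩
  rintro ℓ ℓ' rfl j
  exact ⟨j, le_refl _, by simp⟩

theorem tape_app (t : Tr) (p : List Lab) (j : ℕ) : RelApp (tape t p j) (tape t p (j + 1)) := by
  refine ⟨tourI t p none ++ (tail p none ++ replicate j (Info.en, 0)), Info.en, ?_, ?_⟩
  · simp [tape, replicate_succ']
  · simp [tape, replicate_succ']

theorem uni_appk (hm : StmBimMap) (hc : StmUniComp) (ha : StmApp) (k : ℕ) :
    Uni (fun ℓ ℓ' => ∃ t p j, ℓ = tape t p j ∧ ℓ' = tape t p (j + k)) := by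
  induction k with
  | zero =>
    refine uni_mono (uni_id hm) ?_
    rintro _ _ ⟨t, p, j, rfl, rfl⟩
    rfl
  | succ k ih =>
    refine uni_mono (hc _ _ _ ih (ha Info inferInstance)) ?_
    rintro _ _ ⟨t, p, j, rfl, rfl⟩
    exact ⟨tape t p (j + k), ⟨t, p, j, rfl, rfl⟩, tape_app t p (j + k)⟩

theorem uni_trimk (hm : StmBimMap) (hc : StmUniComp) (ha : StmTrim) (k : ℕ) :
    Uni (fun ℓ ℓ' => ∃ t p j, ℓ = tape t p (j + k) ∧ ℓ' = tape t p j) := by
  induction k with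
  | zero =>
    refine uni_mono (uni_id hm) ?_
    rintro _ _ ⟨t, p, j, rfl, rfl⟩
    rfl
  | succ k ih =>
    refine uni_mono (hc _ _ _ (ha Info inferInstance) ih) ?_
    rintro _ _ ⟨t, p, j, rfl, rfl⟩
    exact ⟨tape t p (j + k), tape_app t p (j + k), ⟨t, p, j, rfl, rfl⟩⟩

/-- relation: right multiplication by `g` -/
def RelG (g : G) (ℓ ℓ' : List (Info × ℕ)) : Prop :=
  ∃ t p t' p', Can t p ∧ Can t' p' ∧ Psi t' p' = Psi t p * g ∧ ℓ = tape t p 0 ∧ ℓ' = tape t' p' 0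

theorem uni_down (hm : StmBimMap) (hc : StmUniComp) (hi : StmUniIte) (hr : StmR) (ha : StmApp)
    (hd : StmDownMove) (he : StmExpand) (hl : StmTestLeaf) (hn : StmCanNode) (x : Lab) :
    Uni (fun ℓ ℓ' => ∃ t p t', Can t p ∧ downT t p x t' ∧ ℓ = tape t p 0 ∧
      ℓ' = tape t' (p ++ [x]) 0) := by
  obtain ⟨H, hH, hH'⟩ := hd x
  obtain ⟨E, hE, hE'⟩ := he
  obtain ⟨Q, hQ, step, q0, acc, hacc⟩ := hl
  have h1 := hi Info inferInstance Q hQ step q0 acc _ _
    (hc _ _ _ (uni_appk hm hc ha 8) (hr Info inferInstance E hE)) (uni_id hm)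
  refine uni_mono (hc _ _ _ (uni_appk hm hc ha 1) (hc _ _ _ (hr Info inferInstance H hH) h1)) ?_
  rintro _ _ ⟨t, p, t', hcan, hdn, rfl, rfl⟩
  obtain ⟨hnode, hon⟩ := hn t p hcan
  have hon' : OnTree t (p ++ [x]) := onTree_of_node x hon hnode
  refine ⟨tape t p 1, ⟨t, p, 0, rfl, rfl⟩, tape t (p ++ [x]) 0, hH' t p 0 hnode hon, ?_⟩
  have hiff := hacc t (p ++ [x]) 0 hon'
  rcases hdn with ⟨hlf, rfl⟩ | ⟨hlf, rfl⟩
  · rw [if_pos (hiff.mpr hlf)]
    exact ⟨tape t (p ++ [x]) 8, ⟨t, _, 0, rfl, rfl⟩, hE' t (p ++ [x]) 0 hon' hlf⟩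
  · rw [if_neg (fun h => hlf (hiff.mp h))]

theorem uni_up (hm : StmBimMap) (hc : StmUniComp) (hi : StmUniIte) (hr : StmR) (ha : StmTrim)
    (hd : StmUpMove) (he : StmContract) (hl : StmTestBud) (hn : StmCanNode) (y : Lab) :
    Uni (fun ℓ ℓ' => ∃ t p t', Can t (p ++ [y]) ∧ upT t (p ++ [y]) t' ∧
      ℓ = tape t (p ++ [y]) 0 ∧ ℓ' = tape t' p 0) := by
  obtain ⟨H, hH, hH'⟩ := hd
  obtain ⟨E, hE, hE'⟩ := he
  obtain ⟨Q, hQ, step, q0, acc, hacc⟩ := hl
  have h1 := hi Info inferInstance Q hQ step q0 acc _ _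
    (hc _ _ _ (hr Info inferInstance E hE) (uni_trimk hm hc ha 8)) (uni_id hm)
  refine uni_mono (hc _ _ _ h1 (hc _ _ _ (hr Info inferInstance H hH) (uni_trimk hm hc ha 1))) ?_
  rintro _ _ ⟨t, p, t', hcan, hup, rfl, rfl⟩
  obtain ⟨hnode, hon⟩ := hn t _ hcan
  have hiff := hacc t (p ++ [y]) 0 hon
  rcases hup with ⟨hlf, rfl⟩ | ⟨hlf, rfl⟩
  · refine ⟨tape (Tr.put Tr.leaf t (p ++ [y])) (p ++ [y]) 0, ?_,
      tape (Tr.put Tr.leaf t (p ++ [y])) p 1, ?_, ⟨_, p, 0, rfl, rfl⟩⟩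
    · rw [if_pos (hiff.mpr hlf)]
      exact ⟨_, hE' t (p ++ [y]) 0 hon hlf, ⟨_, _, 0, rfl, rfl⟩⟩
    · exact hH' _ p y 0 (onTree_put _ _ _ hon)
  · refine ⟨tape t' (p ++ [y]) 0, ?_, tape t' p 1, hH' _ p y 0 hon, ⟨_, p, 0, rfl, rfl⟩⟩
    rw [if_neg (fun h => hlf (hiff.mp h))]

theorem exists_downT (t : Tr) (p : List Lab) (x : Lab) : ∃ t', downT t p x t' := by
  by_cases h : t.at' (p ++ [x]) = Tr.leaf
  · exact ⟨_, Or.inl ⟨h, rfl⟩⟩
  · exact ⟨_, Or.inr ⟨h, rfl⟩⟩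

theorem exists_upT (t : Tr) (q : List Lab) : ∃ t', upT t q t' := by
  by_cases h : t.at' q = Tr.bud
  · exact ⟨_, Or.inl ⟨h, rfl⟩⟩
  · exact ⟨_, Or.inr ⟨h, rfl⟩⟩

theorem uni_gen (hm : StmBimMap) (hc : StmUniComp) (hi : StmUniIte) (hr : StmR) (hA : StmApp)
    (ha : StmTrim) (hd : StmDownMove) (hu : StmUpMove) (hex : StmExpand) (hco : StmContract)
    (htl : StmTestLeaf) (htb : StmTestBud) (hla : StmTestLast) (hn : StmCanNode)
    (hinj : StmInj) (hDG : StmDownG) (hUG : StmUpG) (x : Lab) : Uni (RelG (gen x)) := by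
  obtain ⟨Q, hQ, step, q0, acc, hacc⟩ := hla (inv x)
  refine uni_mono (hi Info inferInstance Q hQ step q0 acc _ _
    (uni_up hm hc hi hr ha hu hco htb hn (inv x)) (uni_down hm hc hi hr hA hd hex htl hn x)) ?_
  rintro _ _ ⟨t, p, t', p', hcan, hcan', hpsi, rfl, rfl⟩
  obtain ⟨hnode, hon⟩ := hn t p hcan
  have hiff := hacc t p 0 hon
  by_cases hlast : p.getLast? = some (inv x)
  · rw [if_pos (hiff.mpr hlast)]
    obtain ⟨q, rfl⟩ : ∃ q, p = q ++ [inv x] := by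
      rw [getLast?_eq_some_iff] at hlast
      exact hlast
    obtain ⟨t'', ht''⟩ := exists_upT t (q ++ [inv x])
    obtain ⟨h1, h2⟩ := hUG t q x t'' hcan ht''
    obtain ⟨rfl, rfl⟩ := hinj _ _ _ _ hcan' h1 (hpsi.trans h2.symm)
    exact ⟨t, p', t', hcan, ht'', rfl, rfl⟩
  · rw [if_neg (fun h => hlast (hiff.mp h))]
    obtain ⟨t'', ht''⟩ := exists_downT t p x
    obtain ⟨h1, h2⟩ := hDG t p x t'' hcan hlast ht''
    obtain ⟨rfl, rfl⟩ := hinj _ _ _ _ hcan' h1 (hpsi.trans h2.symm)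
    exact ⟨t, p, t', hcan, ht'', rfl, rfl⟩

theorem uni_lamp (hr : StmR) (ht : StmToggle) (hn : StmCanNode)
    (hinj : StmInj) (hTG : StmToggleG) : Uni (RelG lamp) := by
  obtain ⟨H, hH, hH'⟩ := ht
  refine uni_mono (hr Info inferInstance H hH) ?_
  rintro _ _ ⟨t, p, t', p', hcan, hcan', hpsi, rfl, rfl⟩
  obtain ⟨hnode, hon⟩ := hn t p hcan
  obtain ⟨h1, h2⟩ := hTG t p hcan
  obtain ⟨rfl, rfl⟩ := hinj _ _ _ _ hcan' h1 (hpsi.trans h2.symm)
  exact hH' t p' 0 hnode hon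

theorem surj (hcan1 : StmCan1) (hTG : StmToggleG) (hDG : StmDownG) (hUG : StmUpG)
    (hgen : StmGenG) (g : G) : ∃ t p, Can t p ∧ Psi t p = g := by
  have hg : g ∈ Submonoid.closure ({lamp} ∪ Set.range gen : Set G) := by
    rw [hgen]; trivial
  induction hg using Submonoid.closure_induction_right with
  | one => exact ⟨_, _, hcan1.1, hcan1.2⟩
  | mul_right g hg s hs ih =>
    obtain ⟨t, p, hcan, rfl⟩ := ih
    rcases hs with hs | ⟨x, rfl⟩
    · rw [Set.mem_singleton_iff] at hs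
      subst hs
      exact ⟨_, _, (hTG t p hcan).1, (hTG t p hcan).2⟩
    · by_cases hlast : p.getLast? = some (inv x)
      · obtain ⟨q, rfl⟩ : ∃ q, p = q ++ [inv x] := by
          rw [getLast?_eq_some_iff] at hlast
          exact hlast
        obtain ⟨t'', ht''⟩ := exists_upT t (q ++ [inv x])
        exact ⟨_, _, hUG t q x t'' hcan ht''⟩
      · obtain ⟨t'', ht''⟩ := exists_downT t p x
        exact ⟨_, _, hDG t p x t'' hcan hlast ht''⟩

theorem unpad_map {A : Type} (w : List A) (j : ℕ) :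
    unpad (w.map some ++ replicate j none) = w := by
  induction w with
  | nil => cases j <;> simp [unpad, replicate_succ]
  | cons a w ih => simp [unpad, ih]

theorem main_of (hm : StmBimMap) (hc : StmUniComp) (hi : StmUniIte) (hr : StmR) (hA : StmApp)
    (ha : StmTrim) (hd : StmDownMove) (hu : StmUpMove) (hex : StmExpand) (hco : StmContract)
    (htl : StmTestLeaf) (htb : StmTestBud) (hla : StmTestLast) (ht : StmToggle) (hn : StmCanNode)
    (hinj : StmInj) (hDG : StmDownG) (hUG : StmUpG) (hTG : StmToggleG) (hcan1 : StmCan1)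
    (hgen : StmGenG) (htm : StmTM) (hti : StmTapeInj) : StmMain := by
  have hsurj := surj hcan1 hTG hDG hUG hgen
  have huni : ∀ g : G, Uni (RelG g) := by
    intro g
    have hg : g ∈ Submonoid.closure ({lamp} ∪ Set.range gen : Set G) := by
      rw [hgen]; trivial
    induction hg using Submonoid.closure_induction with
    | mem s hs =>
      rcases hs with hs | ⟨x, rfl⟩
      · rw [Set.mem_singleton_iff] at hs
        subst hs
        exact uni_lamp hr ht hn hinj hTG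
      · exact uni_gen hm hc hi hr hA ha hd hu hex hco htl htb hla hn hinj hDG hUG x
    | one =>
      refine uni_mono (uni_id hm) ?_
      rintro _ _ ⟨t, p, t', p', hcan, hcan', hpsi, rfl, rfl⟩
      rw [mul_one] at hpsi
      obtain ⟨rfl, rfl⟩ := hinj _ _ _ _ hcan' hcan hpsi
      rfl
    | mul g h _ _ ihg ihh =>
      refine uni_mono (hc _ _ _ ihg ihh) ?_
      rintro _ _ ⟨t, p, t', p', hcan, hcan', hpsi, rfl, rfl⟩
      obtain ⟨t₁, p₁, hcan₁, hpsi₁⟩ := hsurj (Psi t p * g)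
      refine ⟨tape t₁ p₁ 0, ⟨t, p, t₁, p₁, hcan, hcan₁, hpsi₁, rfl, rfl⟩,
        ⟨t₁, p₁, t', p', hcan₁, hcan', ?_, rfl, rfl⟩⟩
      rw [hpsi, hpsi₁, mul_assoc]
  intro Sg
  choose F c hF hFc using huni
  let L : Set (List (Letter Info)) := {w | ∃ t p, Can t p ∧ w = enc (tape t p 0)}
  have hL : ∀ w : L, ∃ t p, Can t p ∧ w.1 = enc (tape t p 0) := fun w => w.2
  choose tt pp hcan henc using hL
  have hpsi_of : ∀ (w : L) (t : Tr) (p : List Lab), w.1 = enc (tape t p 0) →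
      Psi (tt w) (pp w) = Psi t p := by
    intro w t p h
    obtain ⟨h1, h2⟩ := hti (tt w) (pp w) t p ((henc w).symm.trans h)
    rw [h1, h2]
  refine ⟨Letter Info, inferInstance, L, fun w => Psi (tt w) (pp w),
    fun g w => unpad (F g (w.map some ++ replicate (c g) none)), ⟨?_, ?_⟩, ?_, ?_⟩
  · intro w w' h
    obtain ⟨h1, h2⟩ := hinj _ _ _ _ (hcan w) (hcan w') h
    apply Subtype.ext
    rw [henc w, henc w', h1, h2]
  · intro g
    obtain ⟨t, p, hcp, hg⟩ := hsurj g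
    refine ⟨⟨enc (tape t p 0), t, p, hcp, rfl⟩, ?_⟩
    rw [← hg]
    exact hpsi_of _ t p rfl
  · intro s _
    exact htm (Letter Info) inferInstance (F s) (hF s) (c s)
  · intro s _ w
    obtain ⟨t', p', hcan', hpsi'⟩ := hsurj (Psi (tt w) (pp w) * s)
    obtain ⟨j', _, hj'⟩ := hFc s _ _
      ⟨tt w, pp w, t', p', hcan w, hcan', hpsi', rfl, rfl⟩ 0
    have hval : unpad (F s (w.1.map some ++ replicate (c s) none)) = enc (tape t' p' 0) := by
      rw [henc w]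
      rw [Nat.zero_add] at hj'
      rw [hj', unpad_map]
    refine ⟨?_, ?_⟩
    · change unpad (F s (w.1.map some ++ replicate (c s) none)) ∈ L
      rw [hval]
      exact ⟨t', p', hcan', rfl⟩
    · rw [← hpsi']
      exact hpsi_of _ t' p' hval

end Pool.Agent.R652.CA
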