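import Pool.Agent.R652.CA.Defs

/-!
# Project CA, piece CA-R : changing the heights by a finite-state function
-/

namespace Pool.Agent.R652.CA

open List

/-- the signed difference of two residues mod 64, in `[-32, 31]` -/
def sdiff (a b : Fin 64) : ℤ := ((a.val : ℤ) - b.val + 32) % 64 - 32

theorem sdiff_md (D' D : ℕ) (h : |(D' : ℤ) - D| ≤ 10) : sdiff (md D') (md D) = (D' : ℤ) - D := by
  rw [abs_le] at h
  unfold sdiff md
  push_cast
  omega

theorem ctx_length {A : Type} : ∀ (w : List A) (p : Option A), (ctx p w).length = w.length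
  | [], _ => rfl
  | a :: w, p => by
      simp only [ctx, List.length_cons, ctx_length w]

theorem ctx_getElem {A : Type} : ∀ (w : List A) (p : Option A) (n : ℕ) (h : n < w.length),
    (ctx p w)[n]'(by rw [ctx_length]; exact h) =
      ((if n = 0 then p else w[n - 1]?), w[n], w[n + 1]?)
  | [], _, n, h => by simp at h
  | a :: w, p, 0, _ => by
      simp only [ctx, List.getElem_cons_zero, if_true, List.head?_eq_getElem?]
      rfl
  | a :: w, p, n + 1, h => by
      have h' : n < w.length := by simpa using h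
      simp only [ctx, List.getElem_cons_succ]
      rw [ctx_getElem w (some a) n h']
      rcases n with _ | n
      · simp
      · simp

/-- the local rule -/
def rule {I : Type} (F : ℤ → Option Blk → Blk → Blk → Blk) (Z : Blk → Bool) :
    Option (Letter I × (I × Fin 64)) × (Letter I × (I × Fin 64)) ×
      Option (Letter I × (I × Fin 64)) → Letter I
  | (pv, (L, i', e'), nx) =>
    (i', e', Z (F (sdiff e' L.2.1) L.2.2.2.2.1 L.2.2.2.2.2.1 L.2.2.2.2.2.2), L.2.2.2.1,
      (match pv with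
        | none => none
        | some (L1, _) => some (F (sdiff e' L1.2.1) L1.2.2.2.2.1 L1.2.2.2.2.2.1 L1.2.2.2.2.2.2)),
      F (sdiff e' L.2.1) L.2.2.2.2.1 L.2.2.2.2.2.1 L.2.2.2.2.2.2,
      (match nx with
        | none => L.2.2.2.2.2.2
        | some (L2, _) => F (sdiff e' L2.2.1) L2.2.2.2.2.1 L2.2.2.2.2.2.1 L2.2.2.2.2.2.2))

theorem enc_length {I : Type} (ℓ : List (I × ℕ)) : (enc ℓ).length = ℓ.length := by
  simp [enc]

theorem sh'_length {I : Type} (ℓ : List (I × ℕ)) : (sh' ℓ).length = ℓ.length := by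
  simp [sh']

theorem map_shadow_enc {I : Type} (ℓ : List (I × ℕ)) :
    (enc ℓ).map (fun x : Letter I => (x.1, x.2.1, x.2.2.1)) = sh ℓ := by
  apply List.ext_getElem
  · simp [enc, sh]
  · intro n h1 h2
    simp [enc, sh, letter]

theorem rule_enc {I : Type} (F : ℤ → Option Blk → Blk → Blk → Blk) (Z : Blk → Bool)
    (hF : ∀ n t t' : ℕ, |(t' : ℤ) - t| ≤ 10 →
      blk n t' = F ((t' : ℤ) - t) (prevBlk n t) (blk n t) (blk (n + 1) t))
    (hZ : ∀ n t : ℕ, Z (blk n t) = decide (t = 0)) (ℓ ℓ' : List (I × ℕ))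
    (hv : Valid ℓ) (hv' : Valid ℓ')
    (hc : List.Forall₂ (fun a b => |(a.2 : ℤ) - b.2| ≤ 9) ℓ ℓ') :
    (ctx none ((enc ℓ).zip (sh' ℓ'))).map (rule F Z) = enc ℓ' := by
  have hlen : ℓ.length = ℓ'.length := hc.length_eq
  have hzl : ((enc ℓ).zip (sh' ℓ')).length = ℓ.length := by
    rw [List.length_zip, enc_length, sh'_length, hlen, min_self]
  have hD : ∀ n (h : n < ℓ.length), |((ℓ[n].2 : ℕ) : ℤ) - ((ℓ'[n]'(hlen ▸ h)).2 : ℕ)| ≤ 9 := by
    intro n h
    exact (List.forall₂_iff_get.1 hc).2 n h (hlen ▸ h)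
  have hch : ∀ n (h : n + 1 < ℓ.length), |((ℓ[n].2 : ℕ) : ℤ) - (ℓ[n + 1].2 : ℕ)| ≤ 1 := by
    intro n h
    exact (List.isChain_iff_getElem.1 hv.1) n h
  have hlast : ∀ n (h : n < ℓ.length), n + 1 = ℓ.length → ℓ[n].2 = 0 := by
    intro n h hn
    obtain ⟨a, i, rfl⟩ := hv.2
    have : n = a.length := by simpa using hn
    subst this
    simp
  have hlast' : ∀ n (h : n < ℓ'.length), n + 1 = ℓ'.length → ℓ'[n].2 = 0 := by
    intro n h hn
    obtain ⟨a, i, rfl⟩ := hv'.2
    have : n = a.length := by simpa using hn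
    subst this
    simp
  have hz : ∀ n (h : n < ℓ.length), ((enc ℓ).zip (sh' ℓ'))[n]'(hzl ▸ h) =
      (letter ℓ.length n ℓ[n].1 ℓ[n].2, ((ℓ'[n]'(hlen ▸ h)).1, md (ℓ'[n]'(hlen ▸ h)).2)) := by
    intro n h
    simp [enc, sh', List.getElem_zip]
  apply List.ext_getElem
  · rw [List.length_map, ctx_length, hzl, enc_length, hlen]
  · intro n h1 h2
    have hn' : n < ℓ'.length := by rwa [enc_length] at h2
    have hn : n < ℓ.length := hlen ▸ hn'
    have hcx := ctx_getElem ((enc ℓ).zip (sh' ℓ')) none n (hzl ▸ hn)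
    rw [List.getElem_map, hcx]
    have he' : (enc ℓ')[n] = letter ℓ'.length n ℓ'[n].1 ℓ'[n].2 := by
      simp [enc]
    rw [he', hz n hn]
    have hcur : F (sdiff (md ℓ'[n].2) (md ℓ[n].2)) (prevBlk n ℓ[n].2) (blk n ℓ[n].2)
        (blk (n + 1) ℓ[n].2) = blk n ℓ'[n].2 := by
      have := hD n hn
      have h10 : |((ℓ'[n].2 : ℕ) : ℤ) - (ℓ[n].2 : ℕ)| ≤ 10 := by
        rw [abs_sub_comm]; linarith
      rw [sdiff_md _ _ h10, ← hF n _ _ h10]
    simp only [rule, letter]
    refine Prod.ext rfl (Prod.ext rfl (Prod.ext ?_ (Prod.ext ?_ (Prod.ext ?_ (Prod.ext ?_ ?_)))))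
    · simp only
      rw [hcur, hZ]
    · simp only
      rw [hlen]
    · -- previous block
      rcases n with _ | n
      · simp [prevBlk]
      · have hn0 : n < ℓ.length := by omega
        have e1 : ((enc ℓ).zip (sh' ℓ'))[n + 1 - 1]? = some (((enc ℓ).zip (sh' ℓ'))[n]'(hzl ▸ hn0)) := by
          rw [Nat.add_sub_cancel]
          exact List.getElem?_eq_getElem _
        simp only [Nat.succ_ne_zero, if_false, e1, hz n hn0, letter]
        have h10 : |((ℓ'[n + 1].2 : ℕ) : ℤ) - (ℓ[n].2 : ℕ)| ≤ 10 := by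
          have := hD (n + 1) hn
          have := hch n hn
          rw [abs_le] at *
          omega
        rw [sdiff_md _ _ h10, ← hF n _ _ h10]
        simp [prevBlk]
    · simp only
      rw [hcur]
    · -- next block
      by_cases hl : n + 1 < ℓ.length
      · have e1 : ((enc ℓ).zip (sh' ℓ'))[n + 1]? = some (((enc ℓ).zip (sh' ℓ'))[n + 1]'(hzl ▸ hl)) :=
          List.getElem?_eq_getElem _
        simp only [e1, hz (n + 1) hl, letter]
        have h10 : |((ℓ'[n].2 : ℕ) : ℤ) - (ℓ[n + 1].2 : ℕ)| ≤ 10 := by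
          have := hD n hn
          have := hch n hl
          rw [abs_le] at *
          omega
        rw [sdiff_md _ _ h10, ← hF (n + 1) _ _ h10]
      · have e1 : ((enc ℓ).zip (sh' ℓ'))[n + 1]? = none :=
          List.getElem?_eq_none (by rw [hzl]; omega)
        simp only [e1]
        rw [hlast n hn (by omega), hlast' n hn' (by omega)]

theorem r_thm (hmap : StmBimMap) (hcomp : StmBimComp) (hzip : StmBimZip) (hctx : StmBimCtx)
    (hpad : StmBimPad) (hblk : StmBlk) (hzero : StmZero) : StmR := by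
  intro I hI H hH
  obtain ⟨F, hF⟩ := hblk
  obtain ⟨Z, hZ⟩ := hzero
  have h1 : IsBim (fun w : List (Letter I) =>
      H (w.map (fun x : Letter I => (x.1, x.2.1, x.2.2.1)))) :=
    hcomp _ _ _ _ _ (hmap _ _ _) hH
  have h0 : IsBim (fun w : List (Letter I) => w) := by
    have h := hmap (Letter I) (Letter I) id
    rw [List.map_id_fun] at h
    exact h
  have h2 := hzip _ _ _ _ _ h0 h1
  have hfin : Finite (Letter I × (I × Fin 64)) := inferInstance
  have h3 := hcomp _ _ _ _ _ h2 (hctx (Letter I × (I × Fin 64)) hfin)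
  have h4 := hcomp _ _ _ _ _ h3 (hmap _ _ (rule F Z))
  obtain ⟨g, hg, hg'⟩ := hpad _ _ _ h4
  refine ⟨g, 0, hg, ?_⟩
  rintro ℓ ℓ' ⟨hv, hv', hc, hH'⟩ j
  refine ⟨j, le_rfl, ?_⟩
  rw [Nat.add_zero, hg']
  congr 2
  simp only [map_shadow_enc, hH']
  exact rule_enc F Z hF hZ ℓ ℓ' hv hv' hc

end Pool.Agent.R652.CA
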