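import Pool.Agent.R652.CA.Grp

/-!
# CA-TI: the encoding of a tape determines the tree and the position
-/

namespace Pool.Agent.R652.CA

open List

namespace TI691

/-- informations on the tour of a tree -/
def tinf : Tr → Option Lab → List Info
  | Tr.leaf, last => [Info.lf last]
  | Tr.node b c0 c1 c2 c3, last =>
      Info.nd b 0 last :: (tinf c0 (some 0) ++
      Info.nd b 1 last :: (tinf c1 (some 1) ++
      Info.nd b 2 last :: (tinf c2 (some 2) ++
      Info.nd b 3 last :: (tinf c3 (some 3) ++
      [Info.nd b 4 last]))))

theorem map_tourO (t : Tr) : ∀ (d : ℕ) (last : Option Lab),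
    (tourO t d last).map Prod.fst = tinf t last := by
  induction t with
  | leaf => intro d last; simp [tourO, tinf]
  | node b c0 c1 c2 c3 h0 h1 h2 h3 =>
    intro d last
    simp [tourO, tinf, h0, h1, h2, h3]

theorem map_tourI (t : Tr) : ∀ (p : List Lab) (last : Option Lab),
    (tourI t p last).map Prod.fst = tinf t last := by
  induction t with
  | leaf =>
    intro p last
    cases p with
    | nil => simp [tourI, tourO, tinf]
    | cons x p => simp [tourI, tinf]
  | node b c0 c1 c2 c3 h0 h1 h2 h3 =>
    intro p last
    cases p with
    | nil => simp only [tourI]; exact map_tourO _ _ _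
    | cons x p =>
      have e0 : (if x = 0 then tourI c0 p (some 0) else tourO c0 (p.length + 2) (some 0)).map
          Prod.fst = tinf c0 (some 0) := by
        split_ifs
        · exact h0 _ _
        · exact map_tourO _ _ _
      have e1 : (if x = 1 then tourI c1 p (some 1) else tourO c1 (p.length + 2) (some 1)).map
          Prod.fst = tinf c1 (some 1) := by
        split_ifs
        · exact h1 _ _
        · exact map_tourO _ _ _
      have e2 : (if x = 2 then tourI c2 p (some 2) else tourO c2 (p.length + 2) (some 2)).map
          Prod.fst = tinf c2 (some 2) := by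
        split_ifs
        · exact h2 _ _
        · exact map_tourO _ _ _
      have e3 : (if x = 3 then tourI c3 p (some 3) else tourO c3 (p.length + 2) (some 3)).map
          Prod.fst = tinf c3 (some 3) := by
        split_ifs
        · exact h3 _ _
        · exact map_tourO _ _ _
      simp only [tourI, tinf, map_cons, map_append, e0, e1, e2, e3, map_nil]

theorem tinf_prefix (t : Tr) : ∀ (t' : Tr) (l : Option Lab) (r r' : List Info),
    tinf t l ++ r = tinf t' l ++ r' → t = t' ∧ r = r' := by
  induction t with
  | leaf =>
    intro t' l r r' h
    cases t' with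
    | leaf =>
      simp only [tinf, singleton_append, cons.injEq, true_and] at h
      exact ⟨rfl, h⟩
    | node b c0 c1 c2 c3 => simp [tinf] at h
  | node b c0 c1 c2 c3 h0 h1 h2 h3 =>
    intro t' l r r' h
    cases t' with
    | leaf => simp [tinf] at h
    | node b' c0' c1' c2' c3' =>
      simp only [tinf, cons_append, append_assoc, cons.injEq, Info.nd.injEq, and_true] at h
      obtain ⟨hb, h⟩ := h
      obtain ⟨a0, h⟩ := h0 _ _ _ _ h
      simp only [cons.injEq] at h
      obtain ⟨a1, h⟩ := h1 _ _ _ _ h.2
      simp only [cons.injEq] at h
      obtain ⟨a2, h⟩ := h2 _ _ _ _ h.2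
      simp only [cons.injEq] at h
      obtain ⟨a3, h⟩ := h3 _ _ _ _ h.2
      simp only [cons.injEq, nil_append] at h
      exact ⟨by rw [hb, a0, a1, a2, a3], h.2⟩

theorem tail_inf (p : List Lab) : ∀ (p' : List Lab) (l l' : Option Lab),
    (tail p l).map Prod.fst ++ [Info.en] = (tail p' l').map Prod.fst ++ [Info.en] → p = p' := by
  induction p with
  | nil =>
    intro p' l l' h
    cases p' with
    | nil => rfl
    | cons x p' =>
      cases p' <;> simp [tail] at h
  | cons x p ih =>
    intro p' l l' h
    cases p' with
    | nil => cases p <;> simp [tail] at h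
    | cons x' p' =>
      simp only [tail, map_cons, cons_append, cons.injEq] at h
      have hp := ih _ _ _ h.2
      subst hp
      have h2 := h.2
      have : x = x' := by
        cases p with
        | nil => simpa [tail] using h2
        | cons y p => simpa [tail] using h2
      rw [this]

theorem map_enc {I : Type} (ℓ : List (I × ℕ)) : (enc ℓ).map Prod.fst = ℓ.map Prod.fst := by
  unfold enc
  apply List.ext_getElem
  · simp
  · intro n h1 h2
    simp [letter]

end TI691

open TI691 in
theorem tape_inj : StmTapeInj := by
  intro t p t' p' h
  have h1 : (tape t p 0).map Prod.fst = (tape t' p' 0).map Prod.fst := by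
    rw [← map_enc, ← map_enc, h]
  simp only [tape, map_append, map_tourI] at h1
  obtain ⟨ht, h2⟩ := tinf_prefix _ _ _ _ _ h1
  refine ⟨ht, tail_inf p p' none none ?_⟩
  simpa using h2

end Pool.Agent.R652.CA
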