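import Pool.Agent.R652.CA.Grp

/-!
# CA-TEST: toggling the lamp and the finite-state tests at the position
-/

namespace Pool.Agent.R652.CA

open List

namespace TST

/-- decomposition of the tape at the position, uniform in the subtree -/
theorem tape_decomp691 (hB : StmBlock) (hT : StmTail) (t : Tr) (p : List Lab) (h : OnTree t p)
    (j : ℕ) : ∃ A B : List (Info × ℕ), (∀ x ∈ A, x.2 ≠ 0) ∧ (∀ x ∈ B, x.2 ≠ 0) ∧
      ∀ s : Tr, tape (Tr.put s t p) p j = A ++ (tourO s 0 (lastOf p none) ++
        (B ++ (Info.tl (lastOf p none), 0) :: replicate (j + 1) (Info.en, 0))) := by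
  obtain ⟨A, B, hA, hB', hs⟩ := hB t p h none
  obtain ⟨C, hC, _, hC'⟩ := hT p none
  refine ⟨A, B ++ C, hA, ?_, ?_⟩
  · intro x hx
    rcases mem_append.1 hx with hx | hx
    · exact hB' x hx
    · exact hC x hx
  · intro s
    simp only [tape, hs, hC', append_assoc, cons_append, nil_append]

/-- switch the lamp bit of a node cell -/
def tgl : Info → Info
  | Info.nd b i l => Info.nd (!b) i l
  | Info.lf l => Info.lf l
  | Info.tl l => Info.tl l
  | Info.en => Info.en

/-- switch the lamp bit of the zero node cells -/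
def psiT (x : Info × ℕ) : Info × ℕ := (if x.2 = 0 then tgl x.1 else x.1, x.2)

/-- the same on shadows -/
def phiT (x : Info × Fin 64 × Bool) : Info × Fin 64 := (if x.2.2 = true then tgl x.1 else x.1, x.2.1)

theorem psiT_nz {A : List (Info × ℕ)} (hA : ∀ x ∈ A, x.2 ≠ 0) : A.map psiT = A := by
  have : A.map psiT = A.map id := by
    apply map_congr_left
    intro x hx
    simp [psiT, hA x hx]
  rw [this, map_id]

theorem flip_tour (hO : StmOut) (s : Tr) (l : Option Lab) :
    tourO s.flip 0 l = (tourO s 0 l).map psiT := by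
  cases s with
  | leaf => simp [Tr.flip, tourO, psiT, tgl]
  | node b c0 c1 c2 c3 =>
    have k : ∀ (c : Tr) (l : Option Lab), (tourO c (0 + 1) l).map psiT = tourO c (0 + 1) l :=
      fun c l => psiT_nz (hO.1 c 0 l)
    simp only [Tr.flip, tourO, map_cons, map_append, k, map_nil]
    simp [psiT, tgl]

end TST

open TST

theorem toggle : StmBimMap → StmBlock → StmTail → StmPut → StmValid → StmOut → StmToggle := by
  intro hM hB hT hP hV hO
  refine ⟨List.map phiT, hM _ _ phiT, ?_⟩
  intro t p j _ hot
  have hOn : OnTree (Tr.put (t.at' p).flip t p) p := hP.2.2.1 _ _ _ hot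
  obtain ⟨A, B, hA, hB', hs⟩ := tape_decomp691 hB hT t p hot j
  have key : tape (Tr.put (t.at' p).flip t p) p j = (tape t p j).map psiT := by
    conv_rhs => rw [← hP.1 t p]
    rw [hs, hs]
    simp only [map_append, map_cons, psiT_nz hA, psiT_nz hB', flip_tour hO, map_replicate]
    simp [psiT, tgl]
  refine ⟨hV _ _ _ hot, hV _ _ _ hOn, ?_, ?_⟩
  · rw [key]
    rw [forall₂_map_right_iff]
    rw [forall₂_same]
    intro x _
    simp [psiT]
  · rw [key]
    simp only [sh, sh', map_map]
    apply map_congr_left
    intro x _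
    simp [phiT, psiT]

namespace TST

theorem foldl_fix {A Q : Type} (step : Q → A → Q) (q : Q) (w : List A)
    (h : ∀ a ∈ w, step q a = q) : w.foldl step q = q := by
  induction w with
  | nil => rfl
  | cons a w ih =>
    rw [foldl_cons, h a (mem_cons_self)]
    exact ih (fun b hb => h b (mem_cons_of_mem _ hb))

/-- shadow of a cell -/
def sc (x : Info × ℕ) : Info × Fin 64 × Bool := (x.1, md x.2, decide (x.2 = 0))

theorem sh_eq (ℓ : List (Info × ℕ)) : sh ℓ = ℓ.map sc := rfl

theorem foldl_fix_sh {Q : Type} (step : Q → Info × Fin 64 × Bool → Q) (q : Q)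
    (ℓ : List (Info × ℕ)) (h : ∀ a ∈ ℓ, step q (sc a) = q) : (ℓ.map sc).foldl step q = q := by
  apply foldl_fix
  intro a ha
  obtain ⟨b, hb, rfl⟩ := mem_map.1 ha
  exact h b hb

/-- is it a leaf cell -/
def isLf : Info → Bool
  | Info.lf _ => true
  | _ => false

/-- is it a node cell -/
def isNd : Info → Bool
  | Info.nd _ _ _ => true
  | _ => false

/-- lamp of a node cell -/
def litNd : Info → Bool
  | Info.nd b _ _ => b
  | _ => false

/-- node cell followed by a child -/
def isNd4 : Info → Bool
  | Info.nd _ i _ => decide (i ≠ 4)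
  | _ => false

end TST

theorem test_leaf : StmBlock → StmTail → StmPut → StmOut → StmTestLeaf := by
  intro hB hT hP hO
  refine ⟨Bool, inferInstance, fun q x => q || (isLf x.1 && x.2.2), false, id, ?_⟩
  intro t p j hot
  obtain ⟨A, B, hA, hB', hs⟩ := tape_decomp691 hB hT t p hot j
  have e := hs (t.at' p)
  rw [hP.1] at e
  have nz : ∀ (q : Bool) (L : List (Info × ℕ)), (∀ x ∈ L, x.2 ≠ 0) →
      (L.map sc).foldl (fun q x => q || (isLf x.1 && x.2.2)) q = q := by
    intro q L hL
    apply foldl_fix_sh
    intro a ha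
    simp [sc, hL a ha]
  have hend : ∀ q : Bool, ((replicate (j + 1) ((Info.en, 0) : Info × ℕ)).map sc).foldl
      (fun q x => q || (isLf x.1 && x.2.2)) q = q := by
    intro q
    apply foldl_fix_sh
    intro a ha
    rw [eq_of_mem_replicate ha]
    simp [sc, isLf]
  rw [sh_eq, e]
  simp only [map_append, map_cons, foldl_append, foldl_cons]
  rw [nz _ A hA, nz _ B hB', hend]
  have k : ∀ (c : Tr) (l : Option Lab) (q : Bool), ((tourO c (0 + 1) l).map sc).foldl
      (fun q x => q || (isLf x.1 && x.2.2)) q = q := fun c l q => nz _ _ (hO.1 c 0 l)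
  cases ht : t.at' p with
  | leaf => simp [tourO, sc, isLf]
  | node b c0 c1 c2 c3 =>
    simp only [tourO, map_append, map_cons, foldl_append, foldl_cons, k, map_nil, foldl_nil]
    simp [sc, isLf]

theorem test_last : StmBlock → StmTail → StmPut → StmOut → StmTestLast := by
  intro hB hT hP hO x0
  refine ⟨Bool, inferInstance, fun q x => q || (decide (x.1 = Info.tl (some x0)) && x.2.2),
    false, id, ?_⟩
  intro t p j hot
  obtain ⟨A, B, hA, hB', hs⟩ := tape_decomp691 hB hT t p hot j
  have e := hs (t.at' p)
  rw [hP.1] at e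
  have nz : ∀ (q : Bool) (L : List (Info × ℕ)), (∀ x ∈ L, x.2 ≠ 0) →
      (L.map sc).foldl (fun q x => q || (decide (x.1 = Info.tl (some x0)) && x.2.2)) q = q := by
    intro q L hL
    apply foldl_fix_sh
    intro a ha
    simp [sc, hL a ha]
  have hend : ∀ q : Bool, ((replicate (j + 1) ((Info.en, 0) : Info × ℕ)).map sc).foldl
      (fun q x => q || (decide (x.1 = Info.tl (some x0)) && x.2.2)) q = q := by
    intro q
    apply foldl_fix_sh
    intro a ha
    rw [eq_of_mem_replicate ha]
    simp [sc]
  rw [sh_eq, e]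
  simp only [map_append, map_cons, foldl_append, foldl_cons]
  rw [nz _ A hA, nz _ B hB', hend]
  have k : ∀ (c : Tr) (l : Option Lab) (q : Bool), ((tourO c (0 + 1) l).map sc).foldl
      (fun q x => q || (decide (x.1 = Info.tl (some x0)) && x.2.2)) q = q :=
    fun c l q => nz _ _ (hO.1 c 0 l)
  have hlast : lastOf p none = p.getLast? := by
    unfold lastOf
    cases p.getLast? <;> rfl
  have hmid : ((tourO (t.at' p) 0 (lastOf p none)).map sc).foldl
      (fun q x => q || (decide (x.1 = Info.tl (some x0)) && x.2.2)) false = false := by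
    cases ht : t.at' p with
    | leaf => simp [tourO, sc]
    | node b c0 c1 c2 c3 =>
      simp only [tourO, map_append, map_cons, foldl_append, foldl_cons, k, map_nil, foldl_nil]
      simp [sc]
  rw [hmid, hlast]
  simp [sc]

namespace TST

/-- is it not a leaf -/
def nlf : Tr → Bool
  | Tr.leaf => false
  | _ => true

/-- transition function of the bud test: `(bad, seen, expect a leaf)` -/
def stepB (q : Bool × Bool × Bool) (x : Info × Fin 64 × Bool) : Bool × Bool × Bool :=
  (q.1 || (q.2.2 && !isLf x.1) || (x.2.2 && litNd x.1), q.2.1 || (x.2.2 && isNd x.1),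
    x.2.2 && isNd4 x.1)

end TST

theorem test_bud : StmBlock → StmTail → StmPut → StmOut → StmTestBud := by
  intro hB hT hP hO
  refine ⟨Bool × Bool × Bool, inferInstance, stepB, (false, false, false),
    fun q => !q.1 && q.2.1, ?_⟩
  intro t p j hot
  obtain ⟨A, B, hA, hB', hs⟩ := tape_decomp691 hB hT t p hot j
  have e := hs (t.at' p)
  rw [hP.1] at e
  have nz : ∀ (a b : Bool) (L : List (Info × ℕ)), (∀ x ∈ L, x.2 ≠ 0) →
      (L.map sc).foldl stepB (a, b, false) = (a, b, false) := by
    intro a b L hL
    apply foldl_fix_sh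
    intro x hx
    simp [sc, stepB, hL x hx]
  have hend : ∀ a b : Bool, ((replicate (j + 1) ((Info.en, 0) : Info × ℕ)).map sc).foldl
      stepB (a, b, false) = (a, b, false) := by
    intro a b
    apply foldl_fix_sh
    intro x hx
    rw [eq_of_mem_replicate hx]
    simp [sc, stepB, isNd, isNd4, litNd]
  have k : ∀ (c : Tr) (l : Option Lab) (a b : Bool), ((tourO c (0 + 1) l).map sc).foldl
      stepB (a, b, true) = (a || nlf c, b, false) := by
    intro c l a b
    have hz := hO.1 c 0 l
    cases c with
    | leaf => simp [tourO, sc, stepB, isLf, isNd, isNd4, litNd, nlf]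
    | node b' c0 c1 c2 c3 =>
      rw [tourO] at hz ⊢
      rw [map_cons, foldl_cons]
      have h1 : stepB (a, b, true) (sc (Info.nd b' 0 l, 0 + 1)) = (true, b, false) := by
        simp [sc, stepB, isLf, isNd, isNd4, litNd]
      rw [h1, nz _ _ _ (fun x hx => hz x (mem_cons_of_mem _ hx))]
      simp [nlf]
  rw [sh_eq, e]
  simp only [map_append, map_cons, foldl_append, foldl_cons]
  rw [nz _ _ A hA]
  cases ht : t.at' p with
  | leaf =>
    have h1 : ((tourO Tr.leaf 0 (lastOf p none)).map sc).foldl stepB (false, false, false)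
        = (false, false, false) := by
      simp [tourO, sc, stepB, isNd, isNd4, litNd]
    have h2 : stepB (false, false, false) (sc (Info.tl (lastOf p none), 0))
        = (false, false, false) := by
      simp [sc, stepB, isNd, isNd4, litNd]
    rw [h1, nz _ _ B hB', h2, hend]
    simp [Tr.bud]
  | node b c0 c1 c2 c3 =>
    have c4 : ∀ (a b : Bool) (i : Fin 5) (l : Option Lab), i ≠ 4 → stepB (a, true, false)
        (sc (Info.nd b i l, 0)) = (a || b, true, true) := by
      intro a b i l hi
      simp [sc, stepB, isNd, isNd4, litNd, hi]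
    have c0' : ∀ (b : Bool) (l : Option Lab), stepB (false, false, false)
        (sc (Info.nd b 0 l, 0)) = (b, true, true) := by
      intro b l
      simp [sc, stepB, isNd, isNd4, litNd]
    have c5 : ∀ (a b : Bool) (l : Option Lab), stepB (a, true, false)
        (sc (Info.nd b 4 l, 0)) = (a || b, true, false) := by
      intro a b l
      simp [sc, stepB, isNd, isNd4, litNd]
    have h1 : ((tourO (Tr.node b c0 c1 c2 c3) 0 (lastOf p none)).map sc).foldl stepB
        (false, false, false) = (b || nlf c0 || nlf c1 || nlf c2 || nlf c3, true, false) := by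
      simp only [tourO, map_append, map_cons, foldl_append, foldl_cons, map_nil, foldl_nil]
      rw [c0', k, c4 _ _ _ _ (by decide), k, c4 _ _ _ _ (by decide), k,
        c4 _ _ _ _ (by decide), k, c5]
      cases b <;> cases nlf c0 <;> cases nlf c1 <;> cases nlf c2 <;> cases nlf c3 <;> rfl
    have h2 : ∀ a : Bool, stepB (a, true, false) (sc (Info.tl (lastOf p none), 0))
        = (a, true, false) := by
      intro a
      simp [sc, stepB, isNd, isNd4, litNd]
    rw [h1, nz _ _ B hB', h2, hend]
    unfold Tr.bud
    cases b <;> cases c0 <;> cases c1 <;> cases c2 <;> cases c3 <;> simp [nlf]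

end Pool.Agent.R652.CA
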