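import Mathlib
import Pool.Agent.R652.CA.Defs

/-!
# Project CA, part CA-TM (helper813): a bimachine is simulated by a two-pass one-tape machine
-/

namespace Pool.Agent.R652.CA

open List

section TM

variable {A Q R : Type}

/-- tape alphabet: `none` marker, `some none` blank, letters, work letters -/
abbrev TmG (A Q : Type) : Type := Option (Option (A ⊕ (Option A × Q)))

/-- states: `none` start, forward states, backward states -/
abbrev TmS (c : ℕ) (Q R : Type) : Type := Option ((Q × Fin (c + 1)) ⊕ R)

/-- coding of padded letters -/
def tmCd : Option A → TmG A Q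
  | some a => some (some (Sum.inl a))
  | none => some none

/-- transition function -/
def tmStep (c : ℕ) (q0 : Q) (r0 : R) (dl : Q → Option A → Q) (dr : Option A → R → R)
    (out : Q → Option A → R → Option A) :
    TmS c Q R → TmG A Q → Option (TmS c Q R × TmG A Q × Move)
  | none, none => some (some (Sum.inl (q0, Fin.last c)), none, Move.right)
  | some (Sum.inl (q, k)), some (some (Sum.inl a)) =>
      some (some (Sum.inl (dl q (some a), k)), some (some (Sum.inr (some a, q))), Move.right)
  | some (Sum.inl (q, ⟨0, _⟩)), some none => some (some (Sum.inr r0), some none, Move.left)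
  | some (Sum.inl (q, ⟨k + 1, h⟩)), some none =>
      some (some (Sum.inl (dl q none, ⟨k, by omega⟩)), some (some (Sum.inr (none, q))), Move.right)
  | some (Sum.inr r), some (some (Sum.inr (a, q))) =>
      some (some (Sum.inr (dr a r)), tmCd (out q a r), Move.left)
  | _, _ => none

theorem tmCd_ne (a : Option A) : (tmCd a : TmG A Q) ≠ none := by
  cases a <;> simp [tmCd]

/-- the machine -/
def tmM [Finite A] [Finite Q] [Finite R] (c : ℕ) (q0 : Q) (r0 : R) (dl : Q → Option A → Q)
    (dr : Option A → R → R) (out : Q → Option A → R → Option A) : Machine A where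
  Γ := TmG A Q
  Q := TmS c Q R
  finΓ := inferInstance
  finQ := inferInstance
  emb := fun a => some (some (Sum.inl a))
  blank := some none
  mark := none
  emb_inj := by
    intro a b h
    simpa using h
  emb_ne_blank := by
    intro a h
    simp at h
  emb_ne_mark := by
    intro a h
    simp at h
  blank_ne_mark := by
    intro h
    simp at h
  start := none
  acc := fun s => ∃ r : R, s = some (Sum.inr r)
  δ := tmStep c q0 r0 dl dr out
  δ_mark := by
    intro q q' g d h
    rcases q with _ | ⟨⟨q, ⟨k, hk⟩⟩ | r⟩
    · simp only [tmStep, Option.some.injEq, Prod.mk.injEq] at h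
      obtain ⟨_, h2, h3⟩ := h
      exact ⟨h2.symm, by rw [← h3]; intro h4; cases h4⟩
    · simp [tmStep] at h
    · simp [tmStep] at h
  δ_other := by
    intro q s q' g d hs h
    rcases s with _ | _ | a | ⟨a, p⟩
    · exact absurd rfl hs
    · rcases q with _ | ⟨⟨q, ⟨k, hk⟩⟩ | r⟩
      · simp [tmStep] at h
      · rcases k with _ | k
        · simp only [tmStep, Option.some.injEq, Prod.mk.injEq] at h
          rw [← h.2.1]
          simp
        · simp only [tmStep, Option.some.injEq, Prod.mk.injEq] at h
          rw [← h.2.1]
          simp
      · simp [tmStep] at h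
    · rcases q with _ | ⟨⟨q, k⟩ | r⟩
      · simp [tmStep] at h
      · simp only [tmStep, Option.some.injEq, Prod.mk.injEq] at h
        rw [← h.2.1]
        simp
      · simp [tmStep] at h
    · rcases q with _ | ⟨⟨q, k⟩ | r⟩
      · simp [tmStep] at h
      · simp [tmStep] at h
      · simp only [tmStep, Option.some.injEq, Prod.mk.injEq] at h
        rw [← h.2.1]
        exact tmCd_ne _

/-- tape given by a list -/
def tapeL {Γ : Type} (mk bl : Γ) (l : List Γ) : ℕ → Γ
  | 0 => mk
  | n + 1 => (l[n]?).getD bl

theorem tapeL_read {Γ : Type} (mk bl : Γ) (d r : List Γ) (a : Γ) :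
    tapeL mk bl (d ++ a :: r) (d.length + 1) = a := by
  simp [tapeL]

theorem tapeL_update {Γ : Type} (mk bl : Γ) (d r : List Γ) (a b : Γ) :
    Function.update (tapeL mk bl (d ++ a :: r)) (d.length + 1) b = tapeL mk bl (d ++ b :: r) := by
  funext n
  rcases n with _ | n
  · rw [Function.update_of_ne (by omega)]
    rfl
  · by_cases h : n = d.length
    · subst h
      rw [Function.update_self]
      simp [tapeL]
    · rw [Function.update_of_ne (by omega)]
      simp only [tapeL]
      rcases lt_or_gt_of_ne h with h' | h'
      · rw [List.getElem?_append_left h', List.getElem?_append_left h']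
      · rw [List.getElem?_append_right (by omega), List.getElem?_append_right (by omega)]
        obtain ⟨k, hk⟩ : ∃ k, n - d.length = k + 1 := ⟨n - d.length - 1, by omega⟩
        rw [hk]
        simp

theorem tapeL_blank {Γ : Type} (mk bl : Γ) (d : List Γ) (k : ℕ) :
    tapeL mk bl (d ++ replicate k bl) = tapeL mk bl d := by
  funext n
  rcases n with _ | n
  · rfl
  · simp only [tapeL]
    rcases lt_or_ge n d.length with h | h
    · rw [List.getElem?_append_left h]
    · rw [List.getElem?_append_right h, List.getElem?_eq_none h, List.getElem?_replicate]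
      split_ifs <;> rfl

theorem step_eq {M : Machine A} (q : M.Q) (pos : ℕ) (tp : ℕ → M.Γ) (q' : M.Q) (g : M.Γ) (d : Move)
    (h : M.δ q (tp pos) = some (q', g, d)) :
    Cfg.step (⟨q, pos, tp⟩ : Cfg M) = ⟨q', d.app pos, Function.update tp pos g⟩ := by
  unfold Cfg.step
  simp only [h]

/-- word of work letters -/
def tmW (dl : Q → Option A → Q) : Q → List (Option A) → List (TmG A Q)
  | _, [] => []
  | q, a :: l => some (some (Sum.inr (a, q))) :: tmW dl (dl q a) l

theorem tmW_length (dl : Q → Option A → Q) (q : Q) (l : List (Option A)) :
    (tmW dl q l).length = l.length := by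
  induction l generalizing q with
  | nil => rfl
  | cons a l ih => simp [tmW, ih]

theorem tmW_append (dl : Q → Option A → Q) (q : Q) (l : List (Option A)) (a : Option A) :
    tmW dl q (l ++ [a]) = tmW dl q l ++ [some (some (Sum.inr (a, l.foldl dl q)))] := by
  induction l generalizing q with
  | nil => rfl
  | cons b l ih => simp [tmW, ih]

theorem bimRun_append {B C : Type} (dl : Q → B → Q) (dr : B → R → R) (r : R) (out : Q → B → R → C)
    (q : Q) (l : List B) (a : B) :
    bimRun dl dr r out q (l ++ [a]) =
      bimRun dl dr (dr a r) out q l ++ [out (l.foldl dl q) a r] := by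
  induction l generalizing q with
  | nil => simp [bimRun]
  | cons b l ih => simp [bimRun, ih]

variable [Finite A] [Finite Q] [Finite R] (c : ℕ) (q0 : Q) (r0 : R) (dl : Q → Option A → Q)
  (dr : Option A → R → R) (out : Q → Option A → R → Option A)

/-- configurations given by lists -/
def tmC (s : TmS c Q R) (pos : ℕ) (l : List (TmG A Q)) : Cfg (tmM c q0 r0 dl dr out) :=
  ⟨s, pos, tapeL none (some none) l⟩

theorem tmC_step (s s' : TmS c Q R) (pos pos' : ℕ) (tp tp' : List (TmG A Q)) (g : TmG A Q)
    (d : Move)
    (h : tmStep c q0 r0 dl dr out s (tapeL none (some none) tp pos) = some (s', g, d))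
    (hp : d.app pos = pos')
    (ht : Function.update (tapeL none (some none) tp) pos g = tapeL none (some none) tp') :
    Cfg.step (tmC c q0 r0 dl dr out s pos tp) = tmC c q0 r0 dl dr out s' pos' tp' := by
  subst hp
  have h1 := step_eq (M := tmM c q0 r0 dl dr out) s pos (tapeL none (some none) tp) s' g d h
  refine h1.trans ?_
  exact congrArg (fun t => (⟨s', d.app pos, t⟩ : Cfg (tmM c q0 r0 dl dr out))) ht

theorem tm_blank (k : ℕ) (hk : k < c + 1) (d : List (TmG A Q)) (q : Q) :
    (Cfg.step^[k]) (tmC c q0 r0 dl dr out (some (Sum.inl (q, ⟨k, hk⟩))) (d.length + 1)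
      (d ++ (replicate k (some none) ++ [some none]))) =
    tmC c q0 r0 dl dr out (some (Sum.inl ((replicate k none).foldl dl q, ⟨0, by omega⟩)))
      (d.length + k + 1) (d ++ (tmW dl q (replicate k none) ++ [some none])) := by
  induction k generalizing d q with
  | zero => rfl
  | succ k ih =>
    rw [Function.iterate_succ_apply]
    have h1 : Cfg.step (tmC c q0 r0 dl dr out (some (Sum.inl (q, ⟨k + 1, hk⟩))) (d.length + 1)
        (d ++ (replicate (k + 1) (some none) ++ [some none]))) =
        tmC c q0 r0 dl dr out (some (Sum.inl (dl q none, ⟨k, by omega⟩)))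
          ((d ++ [some (some (Sum.inr (none, q)))]).length + 1)
          ((d ++ [some (some (Sum.inr (none, q)))]) ++ (replicate k (some none) ++ [some none])) := by
      refine tmC_step c q0 r0 dl dr out _ _ _ _ _ _ (some (some (Sum.inr (none, q)))) Move.right
        ?_ ?_ ?_
      · rw [List.replicate_succ, List.cons_append, tapeL_read]
        rfl
      · simp [Move.app]
      · rw [List.replicate_succ, List.cons_append, tapeL_update]
        simp
    rw [h1, ih (by omega) (d ++ [some (some (Sum.inr (none, q)))]) (dl q none)]
    simp only [List.replicate_succ, List.foldl_cons, tmW, List.length_append, List.length_cons,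
      List.length_nil, List.append_assoc, List.cons_append, List.nil_append]
    congr 1
    omega

theorem tm_fwd (w : List A) (k : ℕ) (hk : k < c + 1) (d : List (TmG A Q)) (q : Q) :
    (Cfg.step^[w.length + k]) (tmC c q0 r0 dl dr out (some (Sum.inl (q, ⟨k, hk⟩))) (d.length + 1)
      (d ++ (w.map (fun a => some (some (Sum.inl a))) ++
        (replicate k (some none) ++ [some none])))) =
    tmC c q0 r0 dl dr out
      (some (Sum.inl ((w.map some ++ replicate k none).foldl dl q, ⟨0, by omega⟩)))
      (d.length + (w.length + k) + 1)
      (d ++ (tmW dl q (w.map some ++ replicate k none) ++ [some none])) := by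
  induction w generalizing d q with
  | nil =>
    simp only [List.map_nil, List.nil_append, List.length_nil, Nat.zero_add]
    exact tm_blank c q0 r0 dl dr out k hk d q
  | cons a w ih =>
    rw [List.length_cons, show w.length + 1 + k = (w.length + k) + 1 by ring,
      Function.iterate_succ_apply]
    have h1 : Cfg.step (tmC c q0 r0 dl dr out (some (Sum.inl (q, ⟨k, hk⟩))) (d.length + 1)
        (d ++ ((a :: w).map (fun a => some (some (Sum.inl a))) ++
          (replicate k (some none) ++ [some none])))) =
        tmC c q0 r0 dl dr out (some (Sum.inl (dl q (some a), ⟨k, hk⟩)))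
          ((d ++ [some (some (Sum.inr (some a, q)))]).length + 1)
          ((d ++ [some (some (Sum.inr (some a, q)))]) ++
            (w.map (fun a => some (some (Sum.inl a))) ++
              (replicate k (some none) ++ [some none]))) := by
      refine tmC_step c q0 r0 dl dr out _ _ _ _ _ _ (some (some (Sum.inr (some a, q)))) Move.right
        ?_ ?_ ?_
      · rw [List.map_cons, List.cons_append, tapeL_read]
        rfl
      · simp [Move.app]
      · rw [List.map_cons, List.cons_append, tapeL_update]
        simp
    rw [h1, ih (d ++ [some (some (Sum.inr (some a, q)))]) (dl q (some a))]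
    simp only [List.map_cons, List.foldl_cons, tmW, List.length_append, List.length_cons,
      List.length_nil, List.append_assoc, List.cons_append, List.nil_append]
    congr 1
    omega

theorem tm_back (l : List (Option A)) (fin : List (TmG A Q)) (q : Q) (r : R) :
    (Cfg.step^[l.length]) (tmC c q0 r0 dl dr out (some (Sum.inr r)) l.length
      (tmW dl q l ++ fin)) =
    tmC c q0 r0 dl dr out (some (Sum.inr (l.foldr dr r))) 0
      ((bimRun dl dr r out q l).map tmCd ++ fin) := by
  induction l using List.reverseRecOn generalizing fin r with
  | nil => rfl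
  | append_singleton l a ih =>
    rw [List.length_append, List.length_singleton, Function.iterate_succ_apply]
    have h1 : Cfg.step (tmC c q0 r0 dl dr out (some (Sum.inr r)) (l.length + 1)
        (tmW dl q (l ++ [a]) ++ fin)) =
        tmC c q0 r0 dl dr out (some (Sum.inr (dr a r))) l.length
          (tmW dl q l ++ (tmCd (out (l.foldl dl q) a r) :: fin)) := by
      rw [tmW_append, List.append_assoc, List.cons_append, List.nil_append]
      have hl := tmW_length dl q l
      rw [← hl]
      refine tmC_step c q0 r0 dl dr out _ _ _ _ _ _ (tmCd (out (l.foldl dl q) a r)) Move.left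
        ?_ ?_ ?_
      · rw [tapeL_read]
        rfl
      · simp [Move.app]
      · rw [tapeL_update]
    rw [h1, ih, bimRun_append, List.foldr_append]
    simp

omit [Finite A] [Finite Q] in
theorem unpad_tape (y : List (Option A)) (n : ℕ) (hn : n ≤ (unpad y).length) :
    (((y.map tmCd ++ [some none] : List (TmG A Q))[n]?).getD (some none) : TmG A Q) =
      match (unpad y)[n]? with
      | some a => some (some (Sum.inl a))
      | none => some none := by
  induction y generalizing n with
  | nil =>
    simp only [unpad, List.length_nil, Nat.le_zero] at hn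
    subst hn
    rfl
  | cons b y ih =>
    rcases b with _ | b
    · simp only [unpad, List.length_nil, Nat.le_zero] at hn
      subst hn
      rfl
    · rcases n with _ | n
      · rfl
      · simp only [unpad, List.length_cons] at hn
        have := ih n (by omega)
        simpa [unpad] using this

end TM

theorem tm_thm : StmTM := by
  intro A hA F hF c
  obtain ⟨Q, R, hQ, hR, q0, r0, dl, dr, out, hFw⟩ := hF
  refine ⟨tmM c q0 r0 dl dr out, 2 * c + 2, ?_⟩
  intro x
  set L : List (Option A) := x.map some ++ replicate c none with hL
  have hLl : L.length = x.length + c := by simp [hL]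
  -- initial step
  have e0 : (tmM c q0 r0 dl dr out).tapeOf x =
      tapeL none (some none) (x.map (fun a => (some (some (Sum.inl a)) : TmG A Q))) := by
    funext n
    rcases n with _ | n
    · rfl
    · simp only [Machine.tapeOf, tapeL, List.getElem?_map]
      cases x[n]? <;> rfl
  have e1 : tapeL none (some none) (x.map (fun a => (some (some (Sum.inl a)) : TmG A Q))) =
      tapeL none (some none) ([] ++ (x.map (fun a => (some (some (Sum.inl a)) : TmG A Q)) ++
        (replicate c (some none) ++ [some none]))) := by
    have := tapeL_blank (Γ := TmG A Q) none (some none)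
      (x.map (fun a => (some (some (Sum.inl a)) : TmG A Q))) (c + 1)
    rw [← this, List.replicate_succ']
    rfl
  have s1 : Cfg.step ((tmM c q0 r0 dl dr out).init x) =
      tmC c q0 r0 dl dr out (some (Sum.inl (q0, ⟨c, by omega⟩))) (([] : List (TmG A Q)).length + 1)
        ([] ++ (x.map (fun a => (some (some (Sum.inl a)) : TmG A Q)) ++
          (replicate c (some none) ++ [some none]))) := by
    have hi : (tmM c q0 r0 dl dr out).init x = tmC c q0 r0 dl dr out none 0
        ([] ++ (x.map (fun a => (some (some (Sum.inl a)) : TmG A Q)) ++
          (replicate c (some none) ++ [some none]))) := by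
      have h2 := e0.trans e1
      exact congrArg (fun t => (⟨none, 0, t⟩ : Cfg (tmM c q0 r0 dl dr out))) h2
    rw [hi]
    refine tmC_step c q0 r0 dl dr out _ _ _ _ _ _ none Move.right ?_ ?_ ?_
    · rfl
    · rfl
    · funext n
      rcases n with _ | n
      · rfl
      · rw [Function.update_of_ne (by omega)]
  have s2 := tm_fwd c q0 r0 dl dr out x c (by omega) [] q0
  rw [← s1, ← Function.iterate_succ_apply, ← hL] at s2
  simp only [List.length_nil, Nat.zero_add, List.nil_append] at s2
  -- turn
  have s3 : Cfg.step (tmC c q0 r0 dl dr out (some (Sum.inl (L.foldl dl q0, ⟨0, by omega⟩)))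
      (x.length + c + 1) (tmW dl q0 L ++ [some none])) =
      tmC c q0 r0 dl dr out (some (Sum.inr r0)) L.length (tmW dl q0 L ++ [some none]) := by
    have hl := tmW_length dl q0 L
    rw [← hLl, ← hl]
    refine tmC_step c q0 r0 dl dr out _ _ _ _ _ _ (some none) Move.left ?_ ?_ ?_
    · rw [tapeL_read]
      rfl
    · simp [Move.app]
    · rw [tapeL_update]
  have s4 := tm_back c q0 r0 dl dr out L [some none] q0 r0
  rw [← s3, ← s2, ← Function.iterate_succ_apply' Cfg.step, ← Function.iterate_add_apply] at s4
  refine ⟨L.length + ((x.length + c).succ).succ, ?_, ?_, ?_, ?_⟩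
  · rw [hLl]
    simp only [Nat.succ_eq_add_one]
    nlinarith
  · rw [s4]
    show (tmM c q0 r0 dl dr out).δ _ _ = none
    rfl
  · rw [s4]
    exact ⟨_, rfl⟩
  · rw [s4]
    intro n hn
    rcases n with _ | n
    · rfl
    · have hFL : F L = bimRun dl dr r0 out q0 L := hFw L
      have hn' : n ≤ (unpad (F L)).length := by
        have h9 : n + 1 ≤ (unpad (F L)).length + 1 := hn
        omega
      have h10 := unpad_tape (Q := Q) (F L) n hn'
      rw [hFL] at h10
      have h11 : (tmM c q0 r0 dl dr out).tapeOf (unpad (F L)) (n + 1) =
          match (unpad (bimRun dl dr r0 out q0 L))[n]? with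
          | some a => (some (some (Sum.inl a)) : TmG A Q)
          | none => some none := by
        rw [hFL]
        rfl
      exact h10.trans h11.symm

end Pool.Agent.R652.CA
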