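import Pool.Agent.R652.CA.Grp

/-!
# Basic facts about trees, `put`, `lit`, `CanI`, `RedO` (for CA-CAN, CA-DG, CA-UG)
-/

namespace Pool.Agent.R652.CA

open List

/-- lamp at the root -/
def Tr.root : Tr → Bool
  | Tr.leaf => false
  | Tr.node b _ _ _ _ => b

theorem child_leaf (x : Lab) : Tr.leaf.child x = Tr.leaf := rfl

theorem at_leaf (p : List Lab) : Tr.leaf.at' p = Tr.leaf := by
  induction p with
  | nil => rfl
  | cons x p ih => simp [Tr.at', Tr.child, ih]

theorem ext_tr {t t' : Tr} (h1 : t ≠ Tr.leaf) (h2 : t' ≠ Tr.leaf) (hr : t.root = t'.root)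
    (hc : ∀ y, t.child y = t'.child y) : t = t' := by
  cases t with
  | leaf => exact absurd rfl h1
  | node b c0 c1 c2 c3 =>
    cases t' with
    | leaf => exact absurd rfl h2
    | node b' d0 d1 d2 d3 =>
      have e0 := hc 0
      have e1 := hc 1
      have e2 := hc 2
      have e3 := hc 3
      simp [Tr.child, Tr.root] at e0 e1 e2 e3 hr
      simp [e0, e1, e2, e3, hr]

theorem put_ne_leaf {t : Tr} (s : Tr) (x : Lab) (p : List Lab) (ht : t ≠ Tr.leaf) :
    Tr.put s t (x :: p) ≠ Tr.leaf := by
  cases t with
  | leaf => exact absurd rfl ht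
  | node b c0 c1 c2 c3 => simp [Tr.put]

theorem put_leaf_cons (s : Tr) (x : Lab) (p : List Lab) :
    Tr.put s Tr.leaf (x :: p) = Tr.leaf := rfl

theorem root_put {t : Tr} (s : Tr) (x : Lab) (p : List Lab) :
    (Tr.put s t (x :: p)).root = t.root := by
  cases t with
  | leaf => rfl
  | node b c0 c1 c2 c3 => simp [Tr.put, Tr.root]

theorem child_put {t : Tr} (s : Tr) (x : Lab) (p : List Lab) (ht : t ≠ Tr.leaf) (y : Lab) :
    (Tr.put s t (x :: p)).child y = if y = x then Tr.put s (t.child x) p else t.child y := by
  cases t with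
  | leaf => exact absurd rfl ht
  | node b c0 c1 c2 c3 =>
    fin_cases x <;> fin_cases y <;> simp [Tr.put, Tr.child]

theorem put_nil (s t : Tr) : Tr.put s t [] = s := by
  cases t <;> rfl

theorem child_flip (t : Tr) (y : Lab) : t.flip.child y = t.child y := by
  cases t <;> rfl

theorem flip_eq_leaf (t : Tr) : t.flip = Tr.leaf ↔ t = Tr.leaf := by
  cases t <;> simp [Tr.flip]

theorem child_bud (y : Lab) : Tr.bud.child y = Tr.leaf := by
  fin_cases y <;> rfl

theorem bud_ne_leaf : Tr.bud ≠ Tr.leaf := by simp [Tr.bud]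

/-! ### CanO, CanI, RedO through children -/

theorem canO_iff (t : Tr) : CanO t ↔ (t = Tr.leaf ∨ ((t.root = true ∨ ∃ y, t.child y ≠ Tr.leaf) ∧
    ∀ y, CanO (t.child y))) := by
  cases t with
  | leaf => simp [CanO]
  | node b c0 c1 c2 c3 =>
    simp [CanO, Tr.root, Tr.child, Fin.exists_fin_succ, Fin.forall_fin_succ]

theorem canI_nil (t : Tr) : CanI t [] ↔ (t ≠ Tr.leaf ∧ ∀ y, CanO (t.child y)) := by
  cases t with
  | leaf => simp [CanI]
  | node b c0 c1 c2 c3 =>
    simp [CanI, Tr.child, Fin.forall_fin_succ]

theorem canI_cons (t : Tr) (x : Lab) (p : List Lab) : CanI t (x :: p) ↔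
    (t ≠ Tr.leaf ∧ ∀ y, if y = x then CanI (t.child x) p else CanO (t.child y)) := by
  cases t with
  | leaf => simp [CanI]
  | node b c0 c1 c2 c3 =>
    fin_cases x <;> simp [CanI, Tr.child, Fin.forall_fin_succ]

theorem redO_iff (t : Tr) (last : Option Lab) : RedO t last ↔
    ∀ y, (last = some (inv y) → t.child y = Tr.leaf) ∧ RedO (t.child y) (some y) := by
  cases t with
  | leaf => simp [RedO, Tr.child]
  | node b c0 c1 c2 c3 =>
    simp [RedO, Tr.child, inv, Fin.forall_fin_succ]
    tauto

/-! ### nodes -/

theorem canI_node : ∀ (p : List Lab) (t : Tr), CanI t p → t.at' p ≠ Tr.leaf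
  | [], t, h => ((canI_nil t).1 h).1
  | x :: p, t, h => by
    have h2 := ((canI_cons t x p).1 h).2 x
    rw [if_pos rfl] at h2
    exact canI_node p _ h2

theorem canI_onTree : ∀ (p : List Lab) (t : Tr), CanI t p → OnTree t p
  | [], t, _ => by
    intro q x hq
    simp at hq
  | y :: p, t, h => by
    have h1 := (canI_cons t y p).1 h
    have h2 := h1.2 y
    rw [if_pos rfl] at h2
    intro q x hq
    cases q with
    | nil => exact h1.1
    | cons z q =>
      simp only [List.cons_append, List.cons_prefix_cons] at hq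
      obtain ⟨rfl, hq⟩ := hq
      exact canI_onTree p _ h2 q x hq

/-! ### lamps of trees -/

theorem lit_nil (t : Tr) : t.lit [] = t.root := by
  cases t <;> rfl

theorem lit_leaf (q : List Lab) : Tr.leaf.lit q = false := by
  cases q <;> rfl

theorem lit_cons (t : Tr) (x : Lab) (p : List Lab) : t.lit (x :: p) = (t.child x).lit p := by
  cases t with
  | leaf => simp [Tr.child, lit_leaf]
  | node b c0 c1 c2 c3 => rfl

theorem lit_put (s : Tr) : ∀ (p : List Lab) (t : Tr), (∀ r, s.lit r = (t.at' p).lit r) →
    ∀ q, (Tr.put s t p).lit q = t.lit q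
  | [], t, h, q => by
    rw [put_nil]
    exact h q
  | x :: p, t, h, q => by
    by_cases ht : t = Tr.leaf
    · subst ht
      rfl
    · cases q with
      | nil => rw [lit_nil, lit_nil, root_put]
      | cons y q =>
        rw [lit_cons, lit_cons, child_put s x p ht]
        split_ifs with hy
        · subst hy
          exact lit_put s p _ h q
        · rfl

theorem lit_put_flip : ∀ (p : List Lab) (t : Tr), t.at' p ≠ Tr.leaf → ∀ q,
    (Tr.put (t.at' p).flip t p).lit q = if q = p then !(t.lit q) else t.lit q
  | [], t, h, q => by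
    rw [put_nil]
    simp only [Tr.at'] at h ⊢
    cases q with
    | nil =>
      cases t with
      | leaf => exact absurd rfl h
      | node b c0 c1 c2 c3 => simp [Tr.flip, Tr.lit]
    | cons y q => simp [lit_cons, child_flip]
  | x :: p, t, h, q => by
    have ht : t ≠ Tr.leaf := by
      rintro rfl
      exact h (at_leaf _)
    cases q with
    | nil => simp [lit_nil, root_put]
    | cons y q =>
      rw [lit_cons, lit_cons, child_put _ x p ht]
      by_cases hy : y = x
      · subst hy
        rw [if_pos rfl]
        have := lit_put_flip p (t.child y) h q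
        simp only [Tr.at'] at this ⊢
        rw [this]
        simp
      · simp [hy]

/-! ### values and lamps -/

theorem lab_unlab (a : Fin 2 × Bool) : lab (unlab a) = a := by
  rcases a with ⟨i, b⟩
  fin_cases i <;> cases b <;> rfl

theorem unlab_lab (x : Lab) : unlab (lab x) = x := by
  fin_cases x <;> rfl

theorem val_pathOf (g : F2) : val (pathOf g) = g := by
  unfold val pathOf
  rw [List.map_map]
  have : (lab ∘ unlab) = id := by
    funext a
    exact lab_unlab a
  rw [this, List.map_id]
  exact FreeGroup.mk_toWord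

theorem val_append (p q : List Lab) : val (p ++ q) = val p * val q := by
  unfold val
  rw [List.map_append, ← FreeGroup.mul_mk]

theorem val_inv (x : Lab) : val [inv x] * val [x] = 1 := by
  rw [← val_append]
  have h : ∀ (i : Fin 2) (b : Bool), (FreeGroup.mk [(i, b), (i, !b)] : F2) = 1 := by
    intro i b
    exact Quot.sound (FreeGroup.Red.Step.not (L₁ := []) (L₂ := []))
  fin_cases x
  · exact h 0 false
  · exact h 0 true
  · exact h 1 false
  · exact h 1 true

/-- reduced paths -/
def redp : Option Lab → List Lab → Prop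
  | _, [] => True
  | last, x :: p => last ≠ some (inv x) ∧ redp (some x) p

theorem redp_of_redO : ∀ (p : List Lab) (t : Tr) (last : Option Lab), RedO t last →
    t.at' p ≠ Tr.leaf → redp last p
  | [], _, _, _, _ => trivial
  | x :: p, t, last, h, hp => by
    have h1 := (redO_iff t last).1 h x
    refine ⟨fun hl => ?_, redp_of_redO p _ _ h1.2 hp⟩
    have := h1.1 hl
    simp only [Tr.at'] at hp
    rw [this] at hp
    exact hp (at_leaf _)

theorem isReduced_of_redp : ∀ (p : List Lab) (last : Option Lab), redp last p →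
    FreeGroup.IsReduced (p.map lab)
  | [], _, _ => FreeGroup.IsReduced.nil
  | [x], _, _ => FreeGroup.IsReduced.singleton
  | x :: y :: p, last, h => by
    have h1 : redp (some x) (y :: p) := h.2
    have ih := isReduced_of_redp (y :: p) _ h1
    rw [List.map_cons, List.map_cons, FreeGroup.isReduced_cons_cons]
    rw [List.map_cons] at ih
    refine ⟨?_, ih⟩
    have h2 : some x ≠ some (inv y) := h1.1
    have h3 : x ≠ inv y := fun e => h2 (by rw [e])
    revert h3
    fin_cases x <;> fin_cases y <;> simp [lab, inv]

theorem pathOf_val {p : List Lab} (h : redp none p) : pathOf (val p) = p := by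
  unfold pathOf val
  rw [FreeGroup.toWord_mk, (isReduced_of_redp p none h).reduce_eq, List.map_map]
  have : (unlab ∘ lab) = id := by
    funext a
    exact unlab_lab a
  rw [this, List.map_id]

theorem lamps_apply (hF : StmFin) (t : Tr) (g : F2) :
    lamps t g = if t.lit (pathOf g) = true then 1 else 0 := by
  unfold lamps
  rw [dif_pos (hF t)]
  simp [Finsupp.onFinset_apply]

theorem lamps_congr (hF : StmFin) {t t' : Tr} (h : ∀ q, t.lit q = t'.lit q) :
    lamps t = lamps t' := by
  ext g
  rw [lamps_apply hF, lamps_apply hF, h]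

theorem Psi_mul_gen (t : Tr) (p : List Lab) (x : Lab) : Psi t p * gen x = Psi t (p ++ [x]) := by
  unfold Psi gen
  ext
  · simp
  · simp [val_append]

end Pool.Agent.R652.CA
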