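import Pool.Agent.R652.CA.Defs

/-!
# Project CA: runs of left-to-right Mealy machines on tapes with heights
-/

set_option autoImplicit false

namespace Pool.Agent.R652.CA

open List

namespace MV

/-- run of a left-to-right Mealy machine on the shadow of a tape -/
inductive Tran {Q : Type} (step : Q → Info × Fin 64 × Bool → Q × (Info × Fin 64)) :
    Q → List (Info × ℕ) → List (Info × ℕ) → Q → Prop
  | nil (q : Q) : Tran step q [] [] q
  | cons (q : Q) (a b : Info × ℕ) (u v : List (Info × ℕ)) (q' q'' : Q) :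
      step q (a.1, md a.2, decide (a.2 = 0)) = (q', (b.1, md b.2)) →
      |(a.2 : ℤ) - b.2| ≤ 9 → Tran step q' u v q'' → Tran step q (a :: u) (b :: v) q''

variable {Q : Type} {step : Q → Info × Fin 64 × Bool → Q × (Info × Fin 64)}

theorem Tran.append {q q' q'' : Q} {u v u' v' : List (Info × ℕ)} (h : Tran step q u v q')
    (h' : Tran step q' u' v' q'') : Tran step q (u ++ u') (v ++ v') q'' := by
  induction h with
  | nil q => exact h'
  | cons q a b u v q1 q2 hs hd _ ih => exact Tran.cons q a b _ _ q1 _ hs hd (ih h')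

theorem Tran.run {q q' : Q} {u v : List (Info × ℕ)} (h : Tran step q u v q') :
    mealyL step q (sh u) = sh' v := by
  induction h with
  | nil q => rfl
  | cons q a b u v q1 q2 hs hd _ ih =>
    have e1 : sh (a :: u) = (a.1, md a.2, decide (a.2 = 0)) :: sh u := rfl
    have e2 : sh' (b :: v) = (b.1, md b.2) :: sh' v := rfl
    rw [e1, e2, mealyL, hs, ih]

theorem Tran.close {q q' : Q} {u v : List (Info × ℕ)} (h : Tran step q u v q') :
    List.Forall₂ (fun a b => |(a.2 : ℤ) - b.2| ≤ 9) u v := by
  induction h with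
  | nil q => exact List.Forall₂.nil
  | cons q a b u v q1 q2 hs hd _ ih => exact List.Forall₂.cons hd ih

theorem md_succ (d : ℕ) : md (d + 1) = md d + 1 := by
  apply Fin.ext
  simp only [md, Fin.val_add, Fin.val_one]
  omega

theorem md_pred (d : ℕ) : md (d + 1) - 1 = md d := by
  rw [md_succ]
  exact add_sub_cancel_right _ _

/-- shifting heights by one -/
def up1 (u : List (Info × ℕ)) : List (Info × ℕ) := u.map (fun x => (x.1, x.2 + 1))

theorem Tran.plus (q : Q) (hq : ∀ (i : Info) (h : Fin 64), step q (i, h, false) = (q, (i, h + 1)))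
    (u : List (Info × ℕ)) (hu : ∀ x ∈ u, x.2 ≠ 0) : Tran step q u (up1 u) q := by
  induction u with
  | nil => exact Tran.nil q
  | cons a u ih =>
    refine Tran.cons q a _ u _ q q ?_ ?_ (ih fun x hx => hu x (List.mem_cons_of_mem _ hx))
    · have : decide (a.2 = 0) = false := decide_eq_false (hu a List.mem_cons_self)
      rw [this, hq, md_succ]
    · push_cast
      rw [abs_le]
      constructor <;> omega

theorem Tran.minus (q : Q) (hq : ∀ (i : Info) (h : Fin 64), step q (i, h, false) = (q, (i, h - 1)))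
    (u : List (Info × ℕ)) : Tran step q (up1 u) u q := by
  induction u with
  | nil => exact Tran.nil q
  | cons a u ih =>
    refine Tran.cons q _ a _ u q q ?_ ?_ ih
    · have : decide (a.2 + 1 = 0) = false := decide_eq_false (Nat.succ_ne_zero _)
      rw [this, hq, md_pred]
    · push_cast
      rw [abs_le]
      constructor <;> omega

/-- cells which are not changed -/
theorem Tran.same (q : Q) (u : List (Info × ℕ))
    (hq : ∀ x ∈ u, step q (x.1, md x.2, decide (x.2 = 0)) = (q, (x.1, md x.2))) :
    Tran step q u u q := by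
  induction u with
  | nil => exact Tran.nil q
  | cons a u ih =>
    refine Tran.cons q a a u u q q (hq a List.mem_cons_self) ?_
      (ih fun x hx => hq x (List.mem_cons_of_mem _ hx))
    rw [sub_self, abs_zero]
    norm_num

theorem tourO_plus (hO : StmOut) (q : Q)
    (hq : ∀ (i : Info) (h : Fin 64), step q (i, h, false) = (q, (i, h + 1)))
    (t : Tr) (d : ℕ) (last : Option Lab) :
    Tran step q (tourO t (d + 1) last) (tourO t (d + 2) last) q := by
  have h := Tran.plus q hq (tourO t (d + 1) last) (hO.1 t d last)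
  rw [hO.2 t (d + 1) last]
  exact h

theorem tourO_minus (hO : StmOut) (q : Q)
    (hq : ∀ (i : Info) (h : Fin 64), step q (i, h, false) = (q, (i, h - 1)))
    (t : Tr) (d : ℕ) (last : Option Lab) :
    Tran step q (tourO t (d + 1) last) (tourO t d last) q := by
  have h := Tran.minus q hq (tourO t d last)
  rw [hO.2 t d last]
  exact h

/-- the four visits to the children -/
theorem tran_node {q0 q1 q2 q3 q4 q5 q6 q7 q8 q9 : Q} {a0 a1 a2 a3 a4 b0 b1 b2 b3 b4 : Info × ℕ}
    {u0 u1 u2 u3 v0 v1 v2 v3 : List (Info × ℕ)}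
    (h0 : Tran step q0 [a0] [b0] q1) (k0 : Tran step q1 u0 v0 q2)
    (h1 : Tran step q2 [a1] [b1] q3) (k1 : Tran step q3 u1 v1 q4)
    (h2 : Tran step q4 [a2] [b2] q5) (k2 : Tran step q5 u2 v2 q6)
    (h3 : Tran step q6 [a3] [b3] q7) (k3 : Tran step q7 u3 v3 q8)
    (h4 : Tran step q8 [a4] [b4] q9) :
    Tran step q0 (a0 :: (u0 ++ a1 :: (u1 ++ a2 :: (u2 ++ a3 :: (u3 ++ [a4])))))
      (b0 :: (v0 ++ b1 :: (v1 ++ b2 :: (v2 ++ b3 :: (v3 ++ [b4]))))) q9 := by
  have := h0.append (k0.append (h1.append (k1.append (h2.append (k2.append (h3.append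
    (k3.append h4)))))))
  simpa using this

theorem Tran.one {q q' : Q} {a b : Info × ℕ}
    (hs : step q (a.1, md a.2, decide (a.2 = 0)) = (q', (b.1, md b.2)))
    (hd : |(a.2 : ℤ) - b.2| ≤ 9) : Tran step q [a] [b] q' :=
  Tran.cons q a b [] [] q' q' hs hd (Tran.nil q')

end MV

end Pool.Agent.R652.CA
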