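import Pool.Agent.R652.CA.Bits

/-! Piece CA-TRIM: removing the last cell of height zero is a finite-state function. -/

namespace Pool.Agent.R652.CA

open List

def trimOut {I : Type} : Bool → Option (Letter I) → Bool → Option (Letter I)
  | _, none, _ => none
  | _, some _, false => none
  | b, some (i, e, z, dg, pv, cu, nx), true => some (i, e, z, xor dg b, pv, cu, nx)

def trimDl {I : Type} : Bool → Option (Letter I) → Bool
  | _, none => false
  | b, some (_, _, _, dg, _, _, _) => b && !dg

theorem foldr_isSome {X : Type} (l : List (Option X)) :
    l.foldr (fun a (_ : Bool) => a.isSome) false = (l[0]?).any (fun a => a.isSome) := by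
  cases l with
  | nil => rfl
  | cons a l => rfl

theorem trim_thm' : StmTrim := by
  intro I hI
  refine ⟨bimRun trimDl (fun a (_ : Bool) => a.isSome) false trimOut true, 0,
    ⟨Bool, Bool, inferInstance, inferInstance, true, false, trimDl, fun a _ => a.isSome, trimOut,
      fun _ => rfl⟩, ?_⟩
  rintro ℓ ℓ' ⟨a, i, rfl, rfl⟩ j
  refine ⟨j + 1, by omega, ?_⟩
  set N := (a ++ [(i, 0)]).length with hN
  have hNa : N = a.length + 1 := by simp [hN]
  have hN' : (a ++ [(i, 0), (i, 0)]).length = N + 1 := by simp [hN]
  set ℓ := a ++ [(i, 0)] with hℓ
  set ℓ' := a ++ [(i, 0), (i, 0)] with hℓ'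
  have hel : (enc ℓ).length = N := by rw [enc_length]
  have hel' : (enc ℓ').length = N + 1 := by rw [enc_length, hN']
  let st : ℕ → Bool := fun n => decide (n ≤ N ∧ n ≤ padicValNat 2 (N + 1))
  have hvN : padicValNat 2 (N + 1) ≤ N := by
    have h1 : 2 ^ padicValNat 2 (N + 1) ≤ N + 1 := Nat.le_of_dvd (by omega) pow_padicValNat_dvd
    have h2 : padicValNat 2 (N + 1) < 2 ^ padicValNat 2 (N + 1) := Nat.lt_two_pow_self
    omega
  have hst0 : st 0 = true := by simp [st]
  rw [← hst0]
  refine bimRun_eq _ _ _ _ _ _ st ?_ ?_
  · simp [hel, hel']
    omega
  · intro n hn hn'
    have hlen : n < N + (j + 1) := by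
      have := hn'
      simp only [List.length_append, List.length_map, List.length_replicate, hel] at this
      exact this
    rw [foldr_isSome, List.getElem?_drop]
    simp only [Nat.add_zero]
    rcases Nat.lt_or_ge n (N + 1) with h1 | h1
    · have hnl' : n < ℓ'.length := by rw [hN']; omega
      have hw : ((enc ℓ').map some ++ replicate j none)[n]'(by simp [hel']; omega) =
          some (letter (N + 1) n ℓ'[n].1 ℓ'[n].2) := by
        rw [List.getElem_append_left (by simpa [hel'] using h1), List.getElem_map, enc_getElem]
        simp only [hN']
      have hdl : trimDl (st n) (some (letter (N + 1) n ℓ'[n].1 ℓ'[n].2)) = st (n + 1) := by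
        simp only [letter, trimDl, st]
        rcases lt_trichotomy n (padicValNat 2 (N + 1)) with h | h | h
        · rw [testBit_succ_lt h]
          have e1 : n ≤ N := by omega
          have e2 : n + 1 ≤ N := by omega
          have e3 : n + 1 ≤ padicValNat 2 (N + 1) := h
          simp [e1, e2, e3, h.le]
        · have ht := testBit_succ_val N
          rw [← h] at ht ⊢
          simp [ht]
        · have e1 : ¬ n ≤ padicValNat 2 (N + 1) := by omega
          have e2 : ¬ n + 1 ≤ padicValNat 2 (N + 1) := by omega
          simp [e1, e2]
      constructor
      · rw [hw, hdl]
      · rw [hw]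
        rcases Nat.lt_or_ge n N with h | h
        · -- kept cell
          have hnl : n < ℓ.length := h
          have hsame : ℓ'[n] = ℓ[n] := by
            have e : ℓ' = ℓ ++ [(i, 0)] := by simp [hℓ, hℓ']
            simp only [e]
            rw [List.getElem_append_left hnl]
          have hv : ((enc ℓ).map some ++ replicate (j + 1) none)[n] =
              some (letter N n ℓ[n].1 ℓ[n].2) := by
            rw [List.getElem_append_left (by simpa [hel] using h), List.getElem_map, enc_getElem]
          have hnext : (((enc ℓ').map some ++ replicate j none)[n + 1]?).any
              (fun a => a.isSome) = true := by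
            rw [List.getElem?_append_left (by simp [hel']; omega), List.getElem?_map,
              List.getElem?_eq_getElem (by rw [hel']; omega)]
            rfl
          rw [hnext, hv]
          have hd : xor ((N + 1).testBit n) (st n) = N.testBit n := by
            have e1 : n ≤ N := h.le
            simp only [st, e1, true_and, testBit_succ_eq N n]
            cases N.testBit n <;> cases decide (n ≤ padicValNat 2 (N + 1)) <;> rfl
          simp only [letter, trimOut, hd, hsame]
        · have hnN : n = N := by omega
          subst hnN
          have hv : ((enc ℓ).map some ++ replicate (j + 1) none)[N] = none := by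
            rw [List.getElem_append_right (by simp [hel])]
            simp
          have hnext : (((enc ℓ').map some ++ replicate j none)[N + 1]?).any
              (fun a => a.isSome) = false := by
            rw [List.getElem?_append_right (by simp [hel']), List.getElem?_replicate]
            split_ifs <;> rfl
          rw [hnext, hv]
          rfl
    · have hw : ((enc ℓ').map some ++ replicate j none)[n] = none := by
        rw [List.getElem_append_right (by simp [hel']; omega)]
        simp
      have hv : ((enc ℓ).map some ++ replicate (j + 1) none)[n] = none := by
        rw [List.getElem_append_right (by simp [hel]; omega)]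
        simp
      constructor
      · rw [hw]
        simp only [trimDl, st]
        symm
        simp
        omega
      · rw [hw, hv]
        rfl

theorem trim_thm : StmBimMap → StmBimComp → StmBimCtx → StmBimL → StmBimR → StmTrim :=
  fun _ _ _ _ _ => trim_thm'

end Pool.Agent.R652.CA
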