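import Pool.Agent.R652.CA.TrB

/-!
# CA-UG : going up
-/

namespace Pool.Agent.R652.CA

open List

theorem canO_leaf : CanO Tr.leaf := trivial

theorem canI_up_put : ∀ (p : List Lab) (t : Tr) (x : Lab), CanI t (p ++ [x]) →
    CanI (Tr.put Tr.leaf t (p ++ [x])) p
  | [], t, x, h => by
    rw [List.nil_append, canI_cons] at h
    rw [List.nil_append, canI_nil]
    refine ⟨put_ne_leaf _ x [] h.1, fun y => ?_⟩
    have h2 := h.2 y
    rw [child_put _ x [] h.1]
    split_ifs with hy
    · rw [put_nil]
      exact canO_leaf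
    · rw [if_neg hy] at h2
      exact h2
  | z :: p, t, x, h => by
    rw [List.cons_append, canI_cons] at h
    rw [List.cons_append, canI_cons]
    refine ⟨put_ne_leaf _ z _ h.1, fun y => ?_⟩
    have h2 := h.2 y
    split_ifs with hy
    · subst hy
      rw [if_pos rfl] at h2
      rw [child_put _ y _ h.1, if_pos rfl]
      exact canI_up_put p _ x h2
    · rw [if_neg hy] at h2
      rw [child_put _ z _ h.1, if_neg hy]
      exact h2

theorem eq_bud {t : Tr} (h : t ≠ Tr.leaf) (hr : t.root = false) (hc : ∀ y, t.child y = Tr.leaf) :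
    t = Tr.bud :=
  ext_tr h bud_ne_leaf hr (fun y => by rw [hc y, child_bud])

theorem canI_up_same : ∀ (p : List Lab) (t : Tr) (x : Lab), CanI t (p ++ [x]) →
    t.at' (p ++ [x]) ≠ Tr.bud → CanI t p
  | [], t, x, h, hx => by
    rw [List.nil_append, canI_cons] at h
    rw [canI_nil]
    refine ⟨h.1, fun y => ?_⟩
    have h2 := h.2 y
    by_cases hy : y = x
    · subst hy
      rw [if_pos rfl, canI_nil] at h2
      rw [canO_iff]
      right
      refine ⟨?_, h2.2⟩
      by_contra hcon
      push Not at hcon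
      apply hx
      change t.child y = Tr.bud
      exact eq_bud h2.1 (by simpa using hcon.1) hcon.2
    · rw [if_neg hy] at h2
      exact h2
  | z :: p, t, x, h, hx => by
    rw [List.cons_append, canI_cons] at h
    rw [canI_cons]
    refine ⟨h.1, fun y => ?_⟩
    have h2 := h.2 y
    split_ifs with hy
    · rw [if_pos hy] at h2
      exact canI_up_same p _ x h2 hx
    · rw [if_neg hy] at h2
      exact h2

theorem put_leaf_leaf (p : List Lab) : Tr.put Tr.leaf Tr.leaf p = Tr.leaf := by
  cases p <;> rfl

theorem redO_up : ∀ (p : List Lab) (t : Tr) (last : Option Lab), RedO t last →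
    RedO (Tr.put Tr.leaf t p) last
  | [], t, last, _ => by
    rw [put_nil]
    simp [RedO]
  | z :: p, t, last, hr => by
    by_cases ht : t = Tr.leaf
    · subst ht
      exact hr
    rw [redO_iff] at hr ⊢
    intro y
    rw [child_put _ z _ ht]
    split_ifs with hy
    · subst hy
      refine ⟨fun e => ?_, redO_up p _ _ (hr y).2⟩
      rw [(hr y).1 e]
      exact put_leaf_leaf p
    · exact hr y

theorem lit_bud'' (q : List Lab) : Tr.bud.lit q = false := by
  cases q with
  | nil => rfl
  | cons x q => rw [lit_cons, child_bud, lit_leaf]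

theorem Psi_up (t : Tr) (p : List Lab) (x : Lab) : Psi t (p ++ [inv x]) * gen x = Psi t p := by
  rw [Psi_mul_gen]
  unfold Psi
  rw [val_append, val_append, mul_assoc, val_inv, mul_one]

theorem upG : StmFin → StmUpG := by
  intro hF t p x t' h ht
  rcases ht with ⟨hl, rfl⟩ | ⟨hl, rfl⟩
  · refine ⟨⟨canI_up_put p t _ h.1, redO_up _ t none h.2⟩, ?_⟩
    rw [Psi_up]
    unfold Psi
    rw [lamps_congr hF (t' := t)]
    apply lit_put
    intro r
    rw [hl, lit_bud'', lit_leaf]
  · exact ⟨⟨canI_up_same p t' _ h.1 hl, h.2⟩, (Psi_up _ _ _).symm⟩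

end Pool.Agent.R652.CA
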