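import Mathlib
import Pool.Agent.R652.CA.Defs

/-!
# Project CA (MP_1173fd_al): closure of `Uni` under composition and case distinction
-/

namespace Pool.Agent.R652.CA

open List

theorem uni_comp (hc : StmBimComp) : StmUniComp := by
  rintro I R₁ R₂ ⟨F₁, c₁, hF₁, h₁⟩ ⟨F₂, c₂, hF₂, h₂⟩
  refine ⟨fun w => F₂ (F₁ w), c₁ + c₂, hc _ _ _ F₁ F₂ hF₁ hF₂, ?_⟩
  rintro ℓ ℓ'' ⟨ℓ', hr₁, hr₂⟩ j
  obtain ⟨j₁, hj₁, e₁⟩ := h₁ ℓ ℓ' hr₁ (j + c₂)
  obtain ⟨j₂, hj₂, e₂⟩ := h₂ ℓ' ℓ'' hr₂ (j₁ - c₂)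
  refine ⟨j₂, by omega, ?_⟩
  have a1 : j + (c₁ + c₂) = j + c₂ + c₁ := by omega
  have a2 : j₁ - c₂ + c₂ = j₁ := by omega
  rw [a2] at e₂
  show F₂ (F₁ _) = _
  rw [a1, e₁, e₂]

/-- the transition function on padded encodings induced by one on shadows -/
def ostep {I Q : Type} (step : Q → I × Fin 64 × Bool → Q) : Q → Option (Letter I) → Q
  | q, none => q
  | q, some L => step q (L.1, L.2.1, L.2.2.1)

lemma enc_sh {I : Type} (ℓ : List (I × ℕ)) :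
    (enc ℓ).map (fun L => (L.1, L.2.1, L.2.2.1)) = sh ℓ := by
  apply List.ext_getElem
  · simp [enc, sh]
  · intro n h1 h2
    simp [enc, sh, letter]

lemma foldl_none {I Q : Type} (step : Q → I × Fin 64 × Bool → Q) (k : ℕ) (q : Q) :
    (replicate k (none : Option (Letter I))).foldl (ostep step) q = q := by
  induction k with
  | zero => rfl
  | succ k ih => rw [List.replicate_succ, List.foldl_cons]; exact ih

lemma foldl_pad {I Q : Type} (step : Q → I × Fin 64 × Bool → Q) (ℓ : List (I × ℕ)) (k : ℕ)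
    (q : Q) : ((enc ℓ).map some ++ replicate k none).foldl (ostep step) q =
      (sh ℓ).foldl step q := by
  rw [List.foldl_append, foldl_none, List.foldl_map, ← enc_sh, List.foldl_map]
  rfl

theorem uni_ite (hi : StmBimIte) : StmUniIte := by
  rintro I hI Q hQ step q0 acc R₁ R₂ ⟨F₁, c₁, hF₁, h₁⟩ ⟨F₂, c₂, hF₂, h₂⟩
  refine ⟨fun w => if acc (w.foldl (ostep step) q0) = true then F₁ w else F₂ w, c₁ + c₂,
    hi _ _ Q hQ (ostep step) q0 acc F₁ F₂ hF₁ hF₂, ?_⟩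
  intro ℓ ℓ' hr j
  have a1 : j + (c₁ + c₂) = j + c₂ + c₁ := by omega
  have a2 : j + (c₁ + c₂) = j + c₁ + c₂ := by omega
  by_cases h : acc ((sh ℓ).foldl step q0) = true
  · rw [if_pos h] at hr
    obtain ⟨j', hj', e⟩ := h₁ ℓ ℓ' hr (j + c₂)
    refine ⟨j', by omega, ?_⟩
    simp only [foldl_pad]
    rw [if_pos h, a1, e]
  · rw [if_neg h] at hr
    obtain ⟨j', hj', e⟩ := h₂ ℓ ℓ' hr (j + c₁)
    refine ⟨j', by omega, ?_⟩
    simp only [foldl_pad]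
    rw [if_neg h, a2, e]

end Pool.Agent.R652.CA
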