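import Pool.Agent.R652.CA.Defs

/-!
# CA-UP: the local rules of the tiling
-/

set_option autoImplicit false

namespace Pool.Agent.R652.CA

namespace UpAux

theorem m_pos (t : ℕ) : 0 < m t := by
  unfold m
  positivity

theorem lt_m (t : ℕ) : t < m t := Nat.lt_size_self t

theorem m_le {t : ℕ} (h : 1 ≤ t) : m t ≤ 2 * t := by
  unfold m
  obtain ⟨k, hk⟩ : ∃ k, Nat.size t = k + 1 := by
    refine ⟨Nat.size t - 1, ?_⟩
    have : 0 < Nat.size t := Nat.size_pos.2 h
    omega
  have h1 : 2 ^ k ≤ t := Nat.lt_size.1 (by omega)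
  rw [hk, pow_succ]
  omega

theorem m_same {t : ℕ} (h : t + 1 < m t) : m (t + 1) = m t := by
  unfold m at *
  congr 1
  apply le_antisymm
  · exact Nat.size_le.2 h
  · exact Nat.size_le_size (Nat.le_succ t)

theorem m_double {t : ℕ} (h : t + 1 = m t) : m (t + 1) = m t * 2 := by
  have h1 : Nat.size (t + 1) = Nat.size t + 1 := by
    apply le_antisymm
    · apply Nat.size_le.2
      rw [h]
      unfold m
      exact Nat.pow_lt_pow_right (by norm_num) (Nat.lt_succ_self _)
    · have : Nat.size t < Nat.size (t + 1) := by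
        apply Nat.lt_size.2
        exact le_of_eq h.symm
      omega
  show 2 ^ Nat.size (t + 1) = 2 ^ Nat.size t * 2
  rw [h1, pow_succ]

theorem m_even {t : ℕ} (h : 1 ≤ t) : m t % 2 = 0 := by
  unfold m
  obtain ⟨k, hk⟩ : ∃ k, Nat.size t = k + 1 := by
    refine ⟨Nat.size t - 1, ?_⟩
    have : 0 < Nat.size t := Nat.size_pos.2 h
    omega
  rw [hk, pow_succ]
  omega

theorem S_pow (k i : ℕ) : S (2 ^ k * (2 * i + 1)) = decide (i % 2 = 1) := by
  unfold S
  have h1 : padicValNat 2 (2 ^ k * (2 * i + 1)) = k := by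
    have : Fact (Nat.Prime 2) := ⟨Nat.prime_two⟩
    rw [padicValNat.mul (by positivity) (by omega), padicValNat.prime_pow,
      padicValNat.eq_zero_of_not_dvd (by omega)]
    rfl
  rw [h1]
  have h2 : (2 ^ k * (2 * i + 1)).testBit (k + 1) = (2 * i + 1).testBit 1 := by
    rw [mul_comm, Nat.testBit_mul_two_pow]
    simp
  rw [h2, Nat.testBit_eq_decide_div_mod_eq]
  congr 2
  omega

theorem S_m {t y : ℕ} (h1 : y % m t = 0) (h2 : y / m t % 2 = 1) :
    S y = decide (y / m t / 2 % 2 = 1) := by
  have h3 : y = 2 ^ Nat.size t * (2 * (y / m t / 2) + 1) := by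
    have h4 : 2 * (y / m t / 2) + 1 = y / m t := by omega
    rw [h4]
    have h5 := Nat.div_add_mod y (m t)
    rw [h1, add_zero] at h5
    exact h5.symm
  conv_lhs => rw [h3]
  exact S_pow _ _

theorem shift (M a b k : ℕ) : a % M = b % M ↔ (a + k) % M = (b + k) % M :=
  ⟨fun h => Nat.ModEq.add_right k h, fun h => Nat.ModEq.add_right_cancel' k h⟩

theorem mod_double (M y : ℕ) : y % (M * 2) = y % M + M * (y / M % 2) := Nat.mod_mul

theorem div_double (M y : ℕ) : y / (M * 2) = y / M / 2 := (Nat.div_div_eq_div_mul _ _ _).symm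

/-- the rule -/
def up (a2 a1 : Option T0) (c b1 _b2 : T0) : T0 :=
  (c.1,
   c.2.1 && !(c.2.1 && decide (b1.2.2.2.2 = some true)),
   (match a1, a2 with
    | none, _ => b1.2.2.2.2.isSome
    | some _, none => false
    | some _, some a => a.2.2.1 && !(c.2.1 && decide (b1.2.2.2.2 = some true))),
   (if c.2.1 = true ∧ b1.2.2.2.2.isSome = true then
      (if b1.2.2.2.2 = some true then some c.1 else none)
    else (match a1 with | none => none | some a => a.2.2.2.1)),
   (if c.2.1 = true ∧ b1.2.2.2.2.isSome = true then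
      (if b1.2.2.2.2 = some true then some c.1 else none)
    else b1.2.2.2.2))

theorem up_A {y t : ℕ} (h : t + 1 < m t) :
    T y (t + 1) = up (if 2 ≤ y then some (T (y - 2) t) else none)
      (if 1 ≤ y then some (T (y - 1) t) else none) (T y t) (T (y + 1) t) (T (y + 2) t) := by
  have ht : 1 ≤ t := by
    by_contra h0
    have : t = 0 := by omega
    subst this
    have h1 : m 0 = 1 := rfl
    omega
  have hm := m_same h
  have hle := m_le ht
  have hev := m_even ht
  obtain ⟨M, hM⟩ : ∃ M, M = m t := ⟨_, rfl⟩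
  have hT1 : ∀ x, T x (t + 1) = (S x, decide (x % M = 0), decide (x % M = (2 * (t + 1)) % M),
      if x % M = (t + 1) % M then some (decide (x / M % 2 = 1)) else none,
      if (x + (t + 1)) % M = 0 then some (decide (((x + (t + 1)) / M + 1) % 2 = 1)) else none) := by
    intro x
    unfold T
    rw [hm, hM]
  have hT0 : ∀ x, T x t = (S x, decide (x % M = 0), decide (x % M = (2 * t) % M),
      if x % M = t % M then some (decide (x / M % 2 = 1)) else none,
      if (x + t) % M = 0 then some (decide (((x + t) / M + 1) % 2 = 1)) else none) := by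
    intro x
    unfold T
    rw [hM]
  rw [← hM] at h hle hev
  have hMpos : 0 < M := by omega
  -- no top
  have htop : ¬ (y % M = 0 ∧ (y + 1 + t) % M = 0) := by
    rintro ⟨h1, h2⟩
    have h3 : M ∣ t + 1 := by
      have h4 := Nat.dvd_of_mod_eq_zero h1
      have h5 := Nat.dvd_of_mod_eq_zero h2
      have h6 : y + 1 + t = y + (t + 1) := by ring
      rw [h6] at h5
      exact (Nat.dvd_add_right h4).1 h5
    have := Nat.le_of_dvd (by omega) h3
    omega
  have hodd : ¬ (y % M = 0 ∧ (if (y + 1 + t) % M = 0 then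
      some (decide (((y + 1 + t) / M + 1) % 2 = 1)) else none) = some true) := by
    rintro ⟨h1, h2⟩
    by_cases h3 : (y + 1 + t) % M = 0
    · exact htop ⟨h1, h3⟩
    · rw [if_neg h3] at h2
      exact absurd h2 (by simp)
  have hd2 : ¬ M ∣ 2 * (t + 1) := by
    rintro ⟨k, hk⟩
    have h1 : k = 1 := by
      have h2 : 0 < k := by
        by_contra h3
        have : k = 0 := by omega
        rw [this] at hk
        omega
      have h3 : k < 2 := by
        by_contra h4
        have : M * 2 ≤ M * k := Nat.mul_le_mul_left M (by omega)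
        omega
      omega
    rw [h1] at hk
    omega
  rw [hT1 y, hT0 y, hT0 (y + 1), hT0 (y + 2)]
  unfold up
  refine Prod.ext rfl (Prod.ext ?_ (Prod.ext ?_ (Prod.ext ?_ ?_)))
  · -- walls
    simp only
    by_cases h1 : y % M = 0
    · have h2 : ¬ (if (y + 1 + t) % M = 0 then
          some (decide (((y + 1 + t) / M + 1) % 2 = 1)) else none) = some true := fun h2 => hodd ⟨h1, h2⟩
      rw [decide_eq_true h1, decide_eq_false h2]
      rfl
    · rw [decide_eq_false h1]
      rfl
  · -- P
    simp only
    have hne : (decide (y % M = 0) && decide ((if (y + 1 + t) % M = 0 then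
        some (decide (((y + 1 + t) / M + 1) % 2 = 1)) else none) = some true)) = false := by
      by_cases h1 : y % M = 0
      · have h2 : ¬ (if (y + 1 + t) % M = 0 then
            some (decide (((y + 1 + t) / M + 1) % 2 = 1)) else none) = some true := fun h2 => hodd ⟨h1, h2⟩
        rw [decide_eq_false h2, Bool.and_false]
      · rw [decide_eq_false h1, Bool.false_and]
    rcases y with _ | _ | y
    · have h1 : ¬ (0 % M = (2 * (t + 1)) % M) := by
        rw [Nat.zero_mod]
        intro h2
        exact hd2 (Nat.dvd_of_mod_eq_zero h2.symm)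
      have h2 : ¬ ((0 + 1 + t) % M = 0) := by
        rw [Nat.mod_eq_of_lt (by omega)]
        omega
      simp only [h2, if_false]
      rw [decide_eq_false h1]
      simp
    · have h1 : ¬ ((0 + 1) % M = (2 * (t + 1)) % M) := by
        intro h2
        have h3 : (0 + 1) % M % 2 = (2 * (t + 1)) % M % 2 := by rw [h2]
        have h4 : 2 ∣ M := Nat.dvd_of_mod_eq_zero hev
        rw [Nat.mod_mod_of_dvd _ h4, Nat.mod_mod_of_dvd _ h4] at h3
        omega
      rw [decide_eq_false h1]
      simp
    · rw [hne]
      have e1 : (2 : ℕ) ≤ y + 1 + 1 := by omega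
      have e2 : (1 : ℕ) ≤ y + 1 + 1 := by omega
      have e3 : y + 1 + 1 - 2 = y := by omega
      have e4 : y + 1 + 1 - 1 = y + 1 := by omega
      rw [if_pos e1, if_pos e2, e3, e4]
      simp only [Bool.not_false, Bool.and_true]
      rw [hT0 y]
      simp only
      congr 1
      rw [show 2 * (t + 1) = 2 * t + 2 by ring, show y + 1 + 1 = y + 2 by ring]
      exact propext (shift M y (2 * t) 2).symm
  · -- X+
    simp only
    have h1 : ¬ (decide (y % M = 0) = true ∧ (if (y + 1 + t) % M = 0 then
        some (decide (((y + 1 + t) / M + 1) % 2 = 1)) else none).isSome = true) := by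
      rintro ⟨h1, h2⟩
      by_cases h3 : (y + 1 + t) % M = 0
      · exact htop ⟨of_decide_eq_true h1, h3⟩
      · rw [if_neg h3] at h2
        exact absurd h2 (by simp)
    rw [if_neg h1]
    rcases y with _ | y
    · have h2 : ¬ (0 % M = (t + 1) % M) := by
        rw [Nat.zero_mod, Nat.mod_eq_of_lt h]
        omega
      rw [if_neg h2]
      simp
    · have e2 : (1 : ℕ) ≤ y + 1 := by omega
      have e4 : y + 1 - 1 = y := by omega
      rw [if_pos e2, e4]
      simp only
      rw [hT0 y]
      simp only
      by_cases h2 : (y + 1) % M = (t + 1) % M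
      · have h3 := (shift M y t 1).2 h2
        rw [if_pos h2, if_pos h3]
        congr 3
        rw [Nat.mod_eq_of_lt (by omega : t < M)] at h3
        rw [Nat.succ_div, if_neg]
        · rfl
        · intro h4
          have h5 := Nat.mod_eq_zero_of_dvd h4
          rw [h5, Nat.mod_eq_of_lt h] at h2
          omega
      · have h3 : ¬ y % M = t % M := fun h3 => h2 ((shift M y t 1).1 h3)
        rw [if_neg h2, if_neg h3]
  · -- X-
    simp only
    have h1 : ¬ (decide (y % M = 0) = true ∧ (if (y + 1 + t) % M = 0 then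
        some (decide (((y + 1 + t) / M + 1) % 2 = 1)) else none).isSome = true) := by
      rintro ⟨h1, h2⟩
      by_cases h3 : (y + 1 + t) % M = 0
      · exact htop ⟨of_decide_eq_true h1, h3⟩
      · rw [if_neg h3] at h2
        exact absurd h2 (by simp)
    rw [if_neg h1, show y + (t + 1) = y + 1 + t by ring]

/-- the row of height `M = m t`, `M = t + 1` -/
theorem T_dbl {t : ℕ} (h : t + 1 = m t) (x : ℕ) : T x (t + 1) =
    (S x, decide (x % m t = 0 ∧ x / m t % 2 = 0), decide (x % m t = 0 ∧ x / m t % 2 = 0),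
      if x % m t = 0 ∧ x / m t % 2 = 1 then some (decide (x / m t / 2 % 2 = 1)) else none,
      if x % m t = 0 ∧ x / m t % 2 = 1 then some (decide (x / m t / 2 % 2 = 1)) else none) := by
  have hm := m_double h
  have hpos := m_pos t
  obtain ⟨M, hM⟩ : ∃ M, M = m t := ⟨_, rfl⟩
  unfold T
  rw [hm]
  rw [← hM] at h hpos ⊢
  rw [h]
  have e0 : x % (M * 2) = 0 ↔ x % M = 0 ∧ x / M % 2 = 0 := by
    rw [mod_double]
    rcases Nat.mod_two_eq_zero_or_one (x / M) with h1 | h1 <;> rw [h1]
    · simp
    · constructor
      · intro h2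
        omega
      · rintro ⟨-, h2⟩
        omega
  have e1 : x % (M * 2) = M ↔ x % M = 0 ∧ x / M % 2 = 1 := by
    have h3 := Nat.mod_lt x hpos
    rw [mod_double]
    rcases Nat.mod_two_eq_zero_or_one (x / M) with h1 | h1 <;> rw [h1]
    · constructor
      · intro h2
        omega
      · rintro ⟨-, h2⟩
        omega
    · constructor
      · intro h2
        exact ⟨by omega, rfl⟩
      · rintro ⟨h2, -⟩
        omega
  have e2 : (2 * M) % (M * 2) = 0 := by rw [mul_comm, Nat.mod_self]
  have e3 : M % (M * 2) = M := Nat.mod_eq_of_lt (by omega)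
  have e4 : (x + M) % (M * 2) = 0 ↔ x % M = 0 ∧ x / M % 2 = 1 := by
    rw [mod_double, Nat.add_mod_right, Nat.add_div_right _ hpos]
    rcases Nat.mod_two_eq_zero_or_one (x / M) with h1 | h1
    · have h2 : (x / M).succ % 2 = 1 := by omega
      rw [h1, h2]
      constructor
      · intro h2
        omega
      · rintro ⟨-, h2⟩
        omega
    · have h2 : (x / M).succ % 2 = 0 := by omega
      rw [h1, h2]
      simp
  have e5 : x % M = 0 ∧ x / M % 2 = 1 →
      (((x + M) / (M * 2) + 1) % 2 = 1 ↔ x / M / 2 % 2 = 1) := by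
    rintro ⟨h1, h2⟩
    rw [div_double, Nat.add_div_right _ hpos]
    have : (x / M).succ / 2 = x / M / 2 + 1 := by omega
    rw [this]
    omega
  rw [e2, e3]
  refine Prod.ext rfl (Prod.ext ?_ (Prod.ext ?_ (Prod.ext ?_ ?_)))
  · simp only [e0]
  · simp only [e0]
  · simp only [e1, div_double]
  · simp only [e4]
    by_cases h1 : x % M = 0 ∧ x / M % 2 = 1
    · rw [if_pos h1, if_pos h1]
      simp only [e5 h1]
    · rw [if_neg h1, if_neg h1]

theorem up_B {y t : ℕ} (h : t + 1 = m t) :
    T y (t + 1) = up (if 2 ≤ y then some (T (y - 2) t) else none)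
      (if 1 ≤ y then some (T (y - 1) t) else none) (T y t) (T (y + 1) t) (T (y + 2) t) := by
  have hpos := m_pos t
  rw [T_dbl h y]
  have hS := S_m (t := t) (y := y)
  obtain ⟨M, hM⟩ : ∃ M, M = m t := ⟨_, rfl⟩
  have hT0 : ∀ x, T x t = (S x, decide (x % M = 0), decide (x % M = (2 * t) % M),
      if x % M = t % M then some (decide (x / M % 2 = 1)) else none,
      if (x + t) % M = 0 then some (decide (((x + t) / M + 1) % 2 = 1)) else none) := by
    intro x
    unfold T
    rw [hM]
  rw [← hM] at h hpos hS ⊢
  have hb : (T (y + 1) t).2.2.2.2 = if y % M = 0 then some (decide (y / M % 2 = 1)) else none := by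
    rw [hT0]
    simp only
    rw [show y + 1 + t = y + M by omega, Nat.add_mod_right, Nat.add_div_right _ hpos]
    by_cases h1 : y % M = 0
    · rw [if_pos h1, if_pos h1]
      congr 2
      apply propext
      omega
    · rw [if_neg h1, if_neg h1]
  have hc : (T y t).2.1 = decide (y % M = 0) := by rw [hT0]
  have hcS : (T y t).1 = S y := by rw [hT0]
  unfold up
  rw [hb, hc, hcS]
  by_cases h1 : y % M = 0
  · rw [if_pos h1]
    rcases Nat.mod_two_eq_zero_or_one (y / M) with h2 | h2
    · have h3 : ¬ y / M % 2 = 1 := by omega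
      refine Prod.ext rfl (Prod.ext ?_ (Prod.ext ?_ (Prod.ext ?_ ?_)))
      · simp [h1, h2]
      · rcases y with _ | _ | y
        · simp
        · exfalso
          have h4 : M = 1 := by
            have := Nat.dvd_of_mod_eq_zero h1
            exact Nat.dvd_one.1 this
          subst h4
          omega
        · have e1 : (2 : ℕ) ≤ y + 1 + 1 := by omega
          have e2 : (1 : ℕ) ≤ y + 1 + 1 := by omega
          have e3 : y + 1 + 1 - 2 = y := by omega
          have h5 : y % M = (2 * t) % M := by
            rw [shift M y (2 * t) 2, show 2 * t + 2 = M * 2 by omega, Nat.mul_mod_right]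
            exact h1
          rw [if_pos e1, if_pos e2, e3]
          simp only
          rw [hT0 y]
          simp only
          rw [decide_eq_true h5, decide_eq_true h1, decide_eq_true (show (y + 1 + 1) % M = 0 ∧
            (y + 1 + 1) / M % 2 = 0 from ⟨h1, h2⟩), decide_eq_false h3]
          simp
      · simp [h1, h2]
      · simp [h1, h2]
    · have h3 : ¬ y / M % 2 = 0 := by omega
      refine Prod.ext rfl (Prod.ext ?_ (Prod.ext ?_ (Prod.ext ?_ ?_)))
      · simp [h1, h2]
      · rcases y with _ | _ | y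
        · exfalso
          simp at h2
        · simp [h2]
        · simp [h2]
          intro _
          exact h1
      · simp [h1, h2, hS h1 h2]
      · simp [h1, h2, hS h1 h2]
  · rw [if_neg h1]
    have h2 : ¬ (y % M = 0 ∧ y / M % 2 = 0) := fun h => h1 h.1
    have h3 : ¬ (y % M = 0 ∧ y / M % 2 = 1) := fun h => h1 h.1
    rw [if_neg h3, decide_eq_false h2, decide_eq_false h1]
    refine Prod.ext rfl (Prod.ext ?_ (Prod.ext ?_ (Prod.ext ?_ ?_)))
    · simp
    · rcases y with _ | _ | y
      · exact absurd (Nat.zero_mod M) h1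
      · simp
      · have e1 : (2 : ℕ) ≤ y + 1 + 1 := by omega
        have e2 : (1 : ℕ) ≤ y + 1 + 1 := by omega
        have e3 : y + 1 + 1 - 2 = y := by omega
        have h5 : ¬ y % M = (2 * t) % M := by
          rw [shift M y (2 * t) 2, show 2 * t + 2 = M * 2 by omega, Nat.mul_mod_right]
          exact h1
        rw [if_pos e1, if_pos e2, e3]
        simp only
        rw [hT0 y]
        simp only
        rw [decide_eq_false h5]
        simp
    · simp only [Bool.false_eq_true, false_and, if_false]
      rcases y with _ | y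
      · exact absurd (Nat.zero_mod M) h1
      · have e2 : (1 : ℕ) ≤ y + 1 := by omega
        have e4 : y + 1 - 1 = y := by omega
        rw [if_pos e2, e4]
        simp only
        rw [hT0 y]
        simp only
        have h5 : ¬ y % M = t % M := by
          rw [shift M y t 1, h, Nat.mod_self]
          exact h1
        rw [if_neg h5]
    · simp

/-- the downward rule -/
def down (a1 : Option T0) (c b1 b2 : T0) : T0 :=
  (c.1,
   c.2.1 || (c.2.2.2.1.isSome && c.2.2.2.2.isSome),
   b2.2.2.1 || (b2.2.2.2.1.isSome && b2.2.2.2.2.isSome),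
   (if b1.2.2.2.1.isSome = true ∧ b1.2.2.2.2.isSome = true then some false
    else if b1.2.1 = true ∧ b1.2.2.1 = true then some true else b1.2.2.2.1),
   (match a1 with
    | none => if b1.2.2.2.1.isSome = true then some true else none
    | some a => if a.2.1 = true ∧ a.2.2.1 = true then some false
      else if a.2.2.2.1.isSome = true ∧ a.2.2.2.2.isSome = true then some true else a.2.2.2.2))

theorem down_A {y t : ℕ} (h : t + 1 < m t) :
    T y t = down (if 1 ≤ y then some (T (y - 1) (t + 1)) else none) (T y (t + 1))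
      (T (y + 1) (t + 1)) (T (y + 2) (t + 1)) := by
  have ht : 1 ≤ t := by
    by_contra h0
    have : t = 0 := by omega
    subst this
    have h1 : m 0 = 1 := rfl
    omega
  have hm := m_same h
  have hle := m_le ht
  obtain ⟨M, hM⟩ : ∃ M, M = m t := ⟨_, rfl⟩
  have hT1 : ∀ x, T x (t + 1) = (S x, decide (x % M = 0), decide (x % M = (2 * (t + 1)) % M),
      if x % M = (t + 1) % M then some (decide (x / M % 2 = 1)) else none,
      if (x + (t + 1)) % M = 0 then some (decide (((x + (t + 1)) / M + 1) % 2 = 1)) else none) := by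
    intro x
    unfold T
    rw [hm, hM]
  have hT0 : T y t = (S y, decide (y % M = 0), decide (y % M = (2 * t) % M),
      if y % M = t % M then some (decide (y / M % 2 = 1)) else none,
      if (y + t) % M = 0 then some (decide (((y + t) / M + 1) % 2 = 1)) else none) := by
    unfold T
    rw [hM]
  rw [← hM] at h hle
  have hMpos : 0 < M := by omega
  have hd2 : ¬ M ∣ 2 * (t + 1) := by
    rintro ⟨k, hk⟩
    have h1 : k = 1 := by
      have h2 : 0 < k := by
        by_contra h3
        have : k = 0 := by omega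
        rw [this] at hk
        omega
      have h3 : k < 2 := by
        by_contra h4
        have : M * 2 ≤ M * k := Nat.mul_le_mul_left M (by omega)
        omega
      omega
    rw [h1] at hk
    omega
  have hboth : ∀ x, ¬ (x % M = (t + 1) % M ∧ (x + (t + 1)) % M = 0) := by
    rintro x ⟨h1, h2⟩
    apply hd2
    have h3 := (shift M x (t + 1) (t + 1)).1 h1
    rw [h2] at h3
    rw [two_mul]
    exact Nat.dvd_of_mod_eq_zero h3.symm
  have hwp : ∀ x, ¬ (x % M = 0 ∧ x % M = (2 * (t + 1)) % M) := by
    rintro x ⟨h1, h2⟩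
    rw [h1] at h2
    exact hd2 (Nat.dvd_of_mod_eq_zero h2.symm)
  have hbs : ∀ x, (T x (t + 1)).2.2.2.1.isSome = true ∧ (T x (t + 1)).2.2.2.2.isSome = true →
      False := by
    intro x hx
    rw [hT1 x] at hx
    simp only at hx
    by_cases h1 : x % M = (t + 1) % M
    · by_cases h2 : (x + (t + 1)) % M = 0
      · exact hboth x ⟨h1, h2⟩
      · rw [if_neg h2] at hx
        exact absurd hx.2 (by simp)
    · rw [if_neg h1] at hx
      exact absurd hx.1 (by simp)
  have hws : ∀ x, (T x (t + 1)).2.1 = true ∧ (T x (t + 1)).2.2.1 = true → False := by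
    intro x hx
    rw [hT1 x] at hx
    exact hwp x ⟨of_decide_eq_true hx.1, of_decide_eq_true hx.2⟩
  have hbf : ∀ x, ((T x (t + 1)).2.2.2.1.isSome && (T x (t + 1)).2.2.2.2.isSome) = false := by
    intro x
    rw [Bool.eq_false_iff]
    intro h1
    rw [Bool.and_eq_true] at h1
    exact hbs x h1
  unfold down
  rw [hbf y, hbf (y + 2), if_neg (fun h => hbs (y + 1) h), if_neg (fun h => hws (y + 1) h),
    hT0]
  refine Prod.ext ?_ (Prod.ext ?_ (Prod.ext ?_ (Prod.ext ?_ ?_)))
  · rw [hT1]
  · rw [hT1]
    simp
  · rw [hT1 (y + 2)]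
    simp only [Bool.or_false]
    congr 1
    rw [show 2 * (t + 1) = 2 * t + 2 by ring]
    exact propext (shift M y (2 * t) 2)
  · rw [hT1 (y + 1)]
    simp only
    by_cases h2 : (y + 1) % M = (t + 1) % M
    · have h3 := (shift M y t 1).2 h2
      rw [if_pos h2, if_pos h3]
      congr 3
      rw [Nat.mod_eq_of_lt (by omega : t < M)] at h3
      rw [Nat.succ_div, if_neg]
      · rfl
      · intro h4
        have h5 := Nat.mod_eq_zero_of_dvd h4
        rw [h5, Nat.mod_eq_of_lt h] at h2
        omega
    · have h3 : ¬ y % M = t % M := fun h3 => h2 ((shift M y t 1).1 h3)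
      rw [if_neg h2, if_neg h3]
  · rcases y with _ | y
    · have h1 : ¬ ((0 + t) % M = 0) := by
        rw [Nat.mod_eq_of_lt (by omega)]
        omega
      have h2 : ¬ ((0 + 1) % M = (t + 1) % M) := by
        rw [Nat.mod_eq_of_lt (by omega), Nat.mod_eq_of_lt h]
        omega
      rw [hT1 (0 + 1)]
      simp only [h1, h2, if_false]
      simp
    · have e2 : (1 : ℕ) ≤ y + 1 := by omega
      have e4 : y + 1 - 1 = y := by omega
      rw [if_pos e2, e4]
      simp only
      rw [if_neg (fun h => hws y h), if_neg (fun h => hbs y h), hT1 y]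
      simp only
      rw [show y + (t + 1) = y + 1 + t by ring]

theorem down_B {y t : ℕ} (h : t + 1 = m t) :
    T y t = down (if 1 ≤ y then some (T (y - 1) (t + 1)) else none) (T y (t + 1))
      (T (y + 1) (t + 1)) (T (y + 2) (t + 1)) := by
  have hpos := m_pos t
  obtain ⟨M, hM⟩ : ∃ M, M = m t := ⟨_, rfl⟩
  have hT1 : ∀ x, T x (t + 1) =
      (S x, decide (x % M = 0 ∧ x / M % 2 = 0), decide (x % M = 0 ∧ x / M % 2 = 0),
        if x % M = 0 ∧ x / M % 2 = 1 then some (decide (x / M / 2 % 2 = 1)) else none,
        if x % M = 0 ∧ x / M % 2 = 1 then some (decide (x / M / 2 % 2 = 1)) else none) := by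
    intro x
    rw [T_dbl h x, hM]
  have hT0 : T y t = (S y, decide (y % M = 0), decide (y % M = (2 * t) % M),
      if y % M = t % M then some (decide (y / M % 2 = 1)) else none,
      if (y + t) % M = 0 then some (decide (((y + t) / M + 1) % 2 = 1)) else none) := by
    unfold T
    rw [hM]
  rw [← hM] at h hpos
  have hb : ∀ x, ((T x (t + 1)).2.2.2.1.isSome = true ∧ (T x (t + 1)).2.2.2.2.isSome = true) ↔
      (x % M = 0 ∧ x / M % 2 = 1) := by
    intro x
    rw [hT1]
    by_cases h1 : x % M = 0 ∧ x / M % 2 = 1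
    · simp [h1]
    · simp only [if_neg h1]
      simp only [Option.isSome_none, Bool.false_eq_true, and_self, false_iff]
      exact h1
  have hw : ∀ x, ((T x (t + 1)).2.1 = true ∧ (T x (t + 1)).2.2.1 = true) ↔
      (x % M = 0 ∧ x / M % 2 = 0) := by
    intro x
    rw [hT1]
    simp only [decide_eq_true_eq, and_self]
  have hb' : ∀ x, ((T x (t + 1)).2.2.2.1.isSome && (T x (t + 1)).2.2.2.2.isSome) =
      decide (x % M = 0 ∧ x / M % 2 = 1) := by
    intro x
    rw [Bool.eq_iff_iff, Bool.and_eq_true, hb, decide_eq_true_eq]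
  have hor : ∀ x, (decide (x % M = 0 ∧ x / M % 2 = 0) || decide (x % M = 0 ∧ x / M % 2 = 1)) =
      decide (x % M = 0) := by
    intro x
    rw [Bool.eq_iff_iff, Bool.or_eq_true, decide_eq_true_eq, decide_eq_true_eq,
      decide_eq_true_eq]
    have := Nat.mod_two_eq_zero_or_one (x / M)
    tauto
  unfold down
  rw [hb' y, hb' (y + 2), hT0]
  refine Prod.ext ?_ (Prod.ext ?_ (Prod.ext ?_ (Prod.ext ?_ ?_)))
  · rw [hT1]
  · rw [hT1]
    simp only
    rw [hor]
  · rw [hT1 (y + 2)]
    simp only
    rw [hor]
    congr 1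
    apply propext
    rw [shift M y (2 * t) 2, show 2 * t + 2 = M * 2 by omega, Nat.mul_mod_right]
  · simp only [hb (y + 1), hw (y + 1)]
    have e0 : y % M = t % M ↔ (y + 1) % M = 0 := by
      rw [shift M y t 1, h, Nat.mod_self]
    by_cases h1 : (y + 1) % M = 0
    · rw [if_pos (e0.2 h1)]
      have h2 : (y + 1) / M = y / M + 1 := by
        rw [Nat.succ_div, if_pos (Nat.dvd_of_mod_eq_zero h1)]
      rcases Nat.mod_two_eq_zero_or_one ((y + 1) / M) with h3 | h3
      · have h4 : ¬ ((y + 1) % M = 0 ∧ (y + 1) / M % 2 = 1) := by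
          rintro ⟨-, h5⟩
          omega
        rw [if_neg h4, if_pos ⟨h1, h3⟩]
        have h5 : y / M % 2 = 1 := by omega
        simp [h5]
      · rw [if_pos ⟨h1, h3⟩]
        have h5 : y / M % 2 = 0 := by omega
        simp [h5]
    · rw [if_neg (fun h2 => h1 (e0.1 h2)), if_neg (fun h2 => h1 h2.1), if_neg (fun h2 => h1 h2.1),
        hT1 (y + 1)]
      simp only
      rw [if_neg (fun h2 => h1 h2.1)]
  · rcases y with _ | y
    · rw [hT1 (0 + 1)]
      simp only [Nat.zero_add]
      rcases Nat.eq_zero_or_pos t with h1 | h1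
      · subst h1
        have h2 : M = 1 := by omega
        subst h2
        simp
      · have h2 : ¬ (t % M = 0) := by
          rw [Nat.mod_eq_of_lt (by omega)]
          omega
        have h3 : ¬ (1 % M = 0 ∧ 1 / M % 2 = 1) := by
          rintro ⟨h3, -⟩
          rw [Nat.mod_eq_of_lt (by omega)] at h3
          omega
        rw [if_neg h2]
        simp only [if_neg h3]
        simp
    · have e2 : (1 : ℕ) ≤ y + 1 := by omega
      have e4 : y + 1 - 1 = y := by omega
      rw [if_pos e2, e4]
      simp only [hb y, hw y]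
      rw [show y + 1 + t = y + M by omega, Nat.add_mod_right, Nat.add_div_right _ hpos]
      by_cases h1 : y % M = 0
      · rw [if_pos h1]
        rcases Nat.mod_two_eq_zero_or_one (y / M) with h3 | h3
        · rw [if_pos ⟨h1, h3⟩]
          have h5 : ¬ ((y / M).succ + 1) % 2 = 1 := by omega
          rw [decide_eq_false h5]
        · have h4 : ¬ (y % M = 0 ∧ y / M % 2 = 0) := by
            rintro ⟨-, h5⟩
            omega
          rw [if_neg h4, if_pos ⟨h1, h3⟩]
          have h5 : ((y / M).succ + 1) % 2 = 1 := by omega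
          rw [decide_eq_true h5]
      · rw [if_neg h1, if_neg (fun h2 => h1 h2.1), if_neg (fun h2 => h1 h2.1), hT1 y]
        simp only
        rw [if_neg (fun h2 => h1 h2.1)]

end UpAux

/-- the upward rule -/
theorem up : StmUp := by
  refine ⟨UpAux.up, fun y t => ?_⟩
  have h := UpAux.lt_m t
  rcases Nat.lt_or_ge (t + 1) (m t) with h1 | h1
  · exact UpAux.up_A h1
  · exact UpAux.up_B (by omega)

/-- the downward rule -/
theorem down : StmDown := by
  refine ⟨fun _ a1 c b1 b2 => UpAux.down a1 c b1 b2, fun y t => ?_⟩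
  have h := UpAux.lt_m t
  rcases Nat.lt_or_ge (t + 1) (m t) with h1 | h1
  · exact UpAux.down_A h1
  · exact UpAux.down_B (by omega)

end Pool.Agent.R652.CA
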