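import Pool.Agent.R652.CA.Tran

/-!
# Project CA: going up to the parent
-/

set_option autoImplicit false

namespace Pool.Agent.R652.CA

open List MV

namespace Um

/-- states -/
inductive US
  | out
  | ins

/-- code of a state -/
def US.code : US → Bool
  | US.out => false
  | US.ins => true

instance : Finite US := Finite.of_injective US.code (by
  intro a b h
  cases a <;> cases b <;> first | rfl | cases h)

/-- the machine -/
def st (q : US) (c : Info × Fin 64 × Bool) : US × (Info × Fin 64) :=
  match c.2.2 with
  | true =>
    match c.1 with
    | Info.nd b i l => (if i = 0 then US.ins else if i = 4 then US.out else q,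
        (Info.nd b i l, c.2.1 + 1))
    | Info.tl _ => (q, (Info.en, c.2.1))
    | Info.lf l => (q, (Info.lf l, c.2.1 + 1))
    | Info.en => (q, (Info.en, c.2.1))
  | false =>
    match q with
    | US.ins => (q, (c.1, c.2.1 + 1))
    | US.out => (q, (c.1, c.2.1 - 1))

theorem ins_plus (i : Info) (h : Fin 64) : st US.ins (i, h, false) = (US.ins, (i, h + 1)) := rfl

theorem out_minus (i : Info) (h : Fin 64) : st US.out (i, h, false) = (US.out, (i, h - 1)) := rfl

/-- a zero cell of a node -/
theorem nd_zero (q : US) (b : Bool) (i : Fin 5) (l : Option Lab) :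
    Tran st q [(Info.nd b i l, 0)] [(Info.nd b i l, 0 + 1)]
      (if i = 0 then US.ins else if i = 4 then US.out else q) := by
  refine Tran.one ?_ ?_
  · simp only [decide_true, st, md_succ]
  · push_cast
    norm_num

/-- a nonzero cell in the state `out` -/
theorem out_cell (i : Info) (d : ℕ) : Tran st US.out [(i, d + 1)] [(i, d)] US.out := by
  refine Tran.one ?_ ?_
  · have : decide (d + 1 = 0) = false := decide_eq_false (Nat.succ_ne_zero _)
    simp only [this]
    rw [out_minus, md_pred]
  · push_cast
    rw [abs_le]
    constructor <;> omega

/-- leaving the root of a tree -/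
theorem leave (hO : StmOut) (s : Tr) (l : Option Lab) :
    Tran st US.out (tourO s 0 l) (tourO s 1 l) US.out := by
  cases s with
  | leaf =>
    refine Tran.one ?_ ?_
    · simp only [decide_true, st, md_succ]
    · push_cast
      norm_num
  | node b c0 c1 c2 c3 =>
    exact tran_node (nd_zero US.out b 0 l) (tourO_plus hO _ ins_plus c0 0 (some 0))
      (nd_zero US.ins b 1 l) (tourO_plus hO _ ins_plus c1 0 (some 1))
      (nd_zero US.ins b 2 l) (tourO_plus hO _ ins_plus c2 0 (some 2))
      (nd_zero US.ins b 3 l) (tourO_plus hO _ ins_plus c3 0 (some 3))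
      (nd_zero US.ins b 4 l)

theorem tourI_nil (t : Tr) (last : Option Lab) : tourI t [] last = tourO t 0 last := by
  cases t <;> rfl

theorem tour (hO : StmOut) (hP : StmPut) (x : Lab) : ∀ (p : List Lab) (t : Tr) (last : Option Lab),
    OnTree t (p ++ [x]) → Tran st US.out (tourI t (p ++ [x]) last) (tourI t p last) US.out := by
  intro p
  induction p with
  | nil =>
    intro t last ht
    cases t with
    | leaf => exact absurd rfl (hP.2.2.2.1 _ _ _ ht).1
    | node b c0 c1 c2 c3 =>
      have hcell : ∀ i : Fin 5, Tran st US.out [(Info.nd b i last, ([] : List Lab).length + 1)]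
          [(Info.nd b i last, 0)] US.out := fun i => out_cell _ _
      have hch : ∀ (k : Lab) (c : Tr),
          Tran st US.out (if x = k then tourI c [] (some k)
            else tourO c (([] : List Lab).length + 2) (some k)) (tourO c (0 + 1) (some k))
            US.out := by
        intro k c
        by_cases h : x = k
        · rw [if_pos h, tourI_nil]
          exact leave hO c (some k)
        · rw [if_neg h]
          exact tourO_minus hO _ out_minus c 1 (some k)
      have := tran_node (hcell 0) (hch 0 c0) (hcell 1) (hch 1 c1) (hcell 2) (hch 2 c2)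
        (hcell 3) (hch 3 c3) (hcell 4)
      exact this
  | cons y p ih =>
    intro t last ht
    cases t with
    | leaf => exact absurd rfl (hP.2.2.2.1 _ _ _ ht).1
    | node b c0 c1 c2 c3 =>
      have hlen : (p ++ [x]).length = p.length + 1 := by simp
      have hcell : ∀ i : Fin 5, Tran st US.out [(Info.nd b i last, (p ++ [x]).length + 1)]
          [(Info.nd b i last, p.length + 1)] US.out := by
        intro i
        rw [hlen]
        exact out_cell _ _
      have hch : ∀ (k : Lab) (c : Tr), ((Tr.node b c0 c1 c2 c3).child k = c) →
          Tran st US.out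
            (if y = k then tourI c (p ++ [x]) (some k)
              else tourO c ((p ++ [x]).length + 2) (some k))
            (if y = k then tourI c p (some k) else tourO c (p.length + 2) (some k)) US.out := by
        intro k c hc
        by_cases h : y = k
        · rw [if_pos h, if_pos h]
          refine ih c (some k) ?_
          have := (hP.2.2.2.1 _ _ _ ht).2
          rw [h, hc] at this
          exact this
        · rw [if_neg h, if_neg h, hlen]
          exact tourO_minus hO _ out_minus c (p.length + 2) (some k)
      exact tran_node (hcell 0) (hch 0 c0 rfl) (hcell 1) (hch 1 c1 rfl) (hcell 2) (hch 2 c2 rfl)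
        (hcell 3) (hch 3 c3 rfl) (hcell 4)

theorem tl (x : Lab) (j : ℕ) : ∀ (p : List Lab) (last : Option Lab),
    Tran st US.out (tail (p ++ [x]) last ++ replicate (j + 1) (Info.en, 0))
      (tail p last ++ replicate (j + 1 + 1) (Info.en, 0)) US.out := by
  intro p
  induction p with
  | nil =>
    intro last
    have e1 : tail [] last ++ replicate (j + 1 + 1) (Info.en, 0) =
        (Info.tl last, 0) :: (Info.en, 0) :: replicate (j + 1) (Info.en, 0) := rfl
    have e2 : tail ([] ++ [x]) last ++ replicate (j + 1) (Info.en, 0) =
        (Info.tl last, 0 + 1) :: (Info.tl (some x), 0) :: replicate (j + 1) (Info.en, 0) := rfl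
    rw [e1, e2]
    have h1 := out_cell (Info.tl last) 0
    have h2 : Tran st US.out [(Info.tl (some x), 0)] [(Info.en, 0)] US.out := by
      refine Tran.one rfl ?_
      norm_num
    have h3 : Tran st US.out (replicate (j + 1) (Info.en, 0)) (replicate (j + 1) (Info.en, 0))
        US.out := by
      refine Tran.same _ _ ?_
      intro c hc
      rw [List.eq_of_mem_replicate hc]
      rfl
    exact h1.append (h2.append h3)
  | cons y p ih =>
    intro last
    have hlen : (p ++ [x]).length = p.length + 1 := by simp
    have h1 : Tran st US.out [(Info.tl last, (p ++ [x]).length + 1)]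
        [(Info.tl last, p.length + 1)] US.out := by
      rw [hlen]
      exact out_cell _ _
    exact h1.append (ih (some y))

end Um

open Um in
theorem up_move : StmBimL → StmValid → StmOut → StmPut → StmUpMove := by
  intro hB hV hO hP
  refine ⟨mealyL st US.out, hB _ _ _ inferInstance _ _, ?_⟩
  intro t p x j ht
  have hT : Tran st US.out (tape t (p ++ [x]) j) (tape t p (j + 1)) US.out :=
    (tour hO hP x p t none ht).append (tl x j p none)
  exact ⟨hV t (p ++ [x]) j ht, hV t p (j + 1) (hP.2.2.2.2.1 t p x ht).1, hT.close, hT.run⟩

end Pool.Agent.R652.CA
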