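import Pool.Agent.R652.CA.Basic

set_option autoImplicit false

/-!
# CA-VALID: the tapes are valid
-/

namespace Pool.Agent.R652.CA

open List

/-- a nonempty chain whose first height is `s` and whose last height is `e` -/
def SegV {I : Type} (s e : ℕ) (l : List (I × ℕ)) : Prop :=
  l.IsChain (fun a b => |(a.2 : ℤ) - b.2| ≤ 1) ∧ (∃ i, l.head? = some (i, s)) ∧
    (∃ i, l.getLast? = some (i, e))

theorem SegV.single {I : Type} (i : I) (d : ℕ) : SegV d d [(i, d)] := by
  refine ⟨?_, ⟨i, rfl⟩, ⟨i, rfl⟩⟩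
  simp

theorem SegV.append {I : Type} {s e s' e' : ℕ} {l l' : List (I × ℕ)} (h : SegV s e l)
    (h' : SegV s' e' l') (hd : |(e : ℤ) - s'| ≤ 1) : SegV s e' (l ++ l') := by
  obtain ⟨h1, ⟨i, h2⟩, ⟨j, h3⟩⟩ := h
  obtain ⟨h1', ⟨i', h2'⟩, ⟨j', h3'⟩⟩ := h'
  refine ⟨?_, ⟨i, ?_⟩, ⟨j', ?_⟩⟩
  · rw [isChain_append]
    refine ⟨h1, h1', ?_⟩
    intro x hx y hy
    rw [h3] at hx
    rw [h2'] at hy
    obtain rfl := Option.some_injective _ hx
    obtain rfl := Option.some_injective _ hy
    exact hd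
  · rw [head?_append, h2]
    rfl
  · rw [getLast?_append, h3']
    rfl

theorem SegV.cons {I : Type} {s e d : ℕ} {l : List (I × ℕ)} (i : I) (h : SegV s e l)
    (hd : |(d : ℤ) - s| ≤ 1) : SegV d e ((i, d) :: l) :=
  (SegV.single i d).append h hd

theorem SegV.five {I : Type} {d s0 s1 s2 s3 : ℕ} {l0 l1 l2 l3 : List (I × ℕ)} (i0 i1 i2 i3 i4 : I)
    (h0 : SegV s0 s0 l0) (h1 : SegV s1 s1 l1) (h2 : SegV s2 s2 l2) (h3 : SegV s3 s3 l3)
    (k0 : |(d : ℤ) - s0| ≤ 1) (k1 : |(d : ℤ) - s1| ≤ 1) (k2 : |(d : ℤ) - s2| ≤ 1)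
    (k3 : |(d : ℤ) - s3| ≤ 1) :
    SegV d d ((i0, d) :: (l0 ++ (i1, d) :: (l1 ++ (i2, d) :: (l2 ++ (i3, d) ::
      (l3 ++ [(i4, d)]))))) := by
  refine SegV.cons _ (h0.append (SegV.cons _ (h1.append (SegV.cons _ (h2.append (SegV.cons _
    (h3.append (SegV.single _ _) ?_) k3) ?_) k2) ?_) k1) ?_) k0
  · rwa [abs_sub_comm]
  · rwa [abs_sub_comm]
  · rwa [abs_sub_comm]
  · rwa [abs_sub_comm]

theorem segV_tourO (t : Tr) (d : ℕ) (last : Option Lab) : SegV d d (tourO t d last) := by
  induction t generalizing d last with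
  | leaf => exact SegV.single _ _
  | node b c0 c1 c2 c3 h0 h1 h2 h3 =>
    simp only [tourO]
    have k : |(d : ℤ) - ((d + 1 : ℕ) : ℤ)| ≤ 1 := by
      push_cast
      rw [abs_le]
      constructor <;> linarith
    exact SegV.five _ _ _ _ _ (h0 _ _) (h1 _ _) (h2 _ _) (h3 _ _) k k k k

theorem segV_tourI (t : Tr) (p : List Lab) (last : Option Lab) :
    SegV p.length p.length (tourI t p last) := by
  induction p generalizing t last with
  | nil => simpa [tourI] using segV_tourO t 0 last
  | cons x p ih =>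
    cases t with
    | leaf => simpa [tourI] using SegV.single (Info.lf last) (p.length + 1)
    | node b c0 c1 c2 c3 =>
      have key : ∀ (c : Tr) (y : Lab), ∃ s, SegV s s
          (if x = y then tourI c p (some y) else tourO c (p.length + 2) (some y)) ∧
          |(((x :: p).length : ℕ) : ℤ) - s| ≤ 1 := by
        intro c y
        by_cases hxy : x = y
        · refine ⟨p.length, ?_, ?_⟩
          · rw [if_pos hxy]; exact ih c _
          · rw [length_cons, abs_le]; push_cast
            constructor <;> linarith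
        · refine ⟨p.length + 2, ?_, ?_⟩
          · rw [if_neg hxy]; exact segV_tourO c _ _
          · rw [length_cons, abs_le]; push_cast
            constructor <;> linarith
      obtain ⟨s0, a0, b0⟩ := key c0 0
      obtain ⟨s1, a1, b1⟩ := key c1 1
      obtain ⟨s2, a2, b2⟩ := key c2 2
      obtain ⟨s3, a3, b3⟩ := key c3 3
      exact SegV.five _ _ _ _ _ a0 a1 a2 a3 b0 b1 b2 b3

theorem segV_tail (p : List Lab) (last : Option Lab) : SegV p.length 0 (tail p last) := by
  induction p generalizing last with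
  | nil => exact SegV.single _ _
  | cons x p ih =>
    refine SegV.cons _ (ih _) ?_
    rw [length_cons, abs_le]; push_cast
    constructor <;> linarith

theorem segV_replicate (j : ℕ) : SegV 0 0 (replicate (j + 1) (Info.en, 0)) := by
  induction j with
  | zero => exact SegV.single _ _
  | succ j ih =>
    rw [replicate_succ]
    exact SegV.cons _ ih (by simp)

theorem valid_thm : StmValid := by
  intro t p j _
  have h := (segV_tourI t p none).append ((segV_tail p none).append (segV_replicate j)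
    (by simp)) (by simp)
  obtain ⟨h1, _, ⟨i, h3⟩⟩ := h
  refine ⟨h1, ?_⟩
  obtain ⟨a, ha⟩ := getLast?_eq_some_iff.1 h3
  exact ⟨a, i, ha⟩

end Pool.Agent.R652.CA
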