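import Pool.Agent.R652.CA.Defs

/-!
# Project CA, piece Z: recognising the row zero
-/

namespace Pool.Agent.R652.CA

open List

theorem zero_thm : StmZero := by
  refine ⟨fun b => (b 0).2.1 && (b 0).2.2.2.1.isSome, fun n t => ?_⟩
  change (decide ((32 * n + ((0 : Fin 32) : ℕ)) % m t = 0) &&
    (if (32 * n + ((0 : Fin 32) : ℕ)) % m t = t % m t then
      some (decide ((32 * n + ((0 : Fin 32) : ℕ)) / m t % 2 = 1)) else none).isSome) =
    decide (t = 0)
  rcases Nat.eq_zero_or_pos t with rfl | ht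
  · simp [m, Nat.size_zero, Nat.mod_one]
  · have h1 : t % m t = t := Nat.mod_eq_of_lt (Nat.lt_size_self t)
    rw [h1]
    have h2 : decide (t = 0) = false := by
      rw [decide_eq_false_iff_not]; omega
    rw [h2]
    by_cases h3 : (32 * n + ((0 : Fin 32) : ℕ)) % m t = 0
    · rw [if_neg (by rw [h3]; omega)]
      simp
    · rw [decide_eq_false h3]; rfl

theorem S_eq (k j : ℕ) : S (2 ^ k * (2 * j + 1)) = decide (j % 2 = 1) := by
  have h1 : padicValNat 2 (2 ^ k * (2 * j + 1)) = k := by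
    rw [padicValNat.mul (by positivity) (by omega), padicValNat.prime_pow,
      padicValNat.eq_zero_of_not_dvd (by omega), add_zero]
  unfold S
  rw [h1, Nat.testBit_eq_decide_div_mod_eq]
  have h2 : 2 ^ k * (2 * j + 1) / 2 ^ (k + 1) = j := by
    rw [pow_succ, ← Nat.div_div_eq_div_mul, Nat.mul_div_cancel_left _ (by positivity)]
    omega
  rw [h2]

theorem S_zero : S 0 = false := by
  unfold S; simp

theorem S_32 (n : ℕ) : S (32 * n) = S n := by
  rcases Nat.eq_zero_or_pos n with rfl | hn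
  · rfl
  · obtain ⟨k, q, hq, rfl⟩ := Nat.exists_eq_two_pow_mul_odd hn.ne'
    obtain ⟨j, rfl⟩ := hq
    rw [S_eq, show 32 * (2 ^ k * (2 * j + 1)) = 2 ^ (k + 5) * (2 * j + 1) by ring, S_eq]

theorem S_16 (n : ℕ) : S (32 * n + 16) = decide (n % 2 = 1) := by
  rw [show 32 * n + 16 = 2 ^ 4 * (2 * n + 1) by ring, S_eq]

theorem S_other {n i : ℕ} (h0 : i ≠ 0) (h16 : i ≠ 16) (h32 : i < 32) : S (32 * n + i) = S i := by
  obtain ⟨k, q, hq, rfl⟩ := Nat.exists_eq_two_pow_mul_odd h0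
  obtain ⟨j, rfl⟩ := hq
  have hk : k ≤ 3 := by
    by_contra hcon
    push Not at hcon
    obtain ⟨k', rfl⟩ : ∃ k', k = k' + 4 := ⟨k - 4, by omega⟩
    rw [pow_add] at h32 h16
    have h1 : 1 ≤ 2 ^ k' := Nat.one_le_two_pow
    have h2 : 2 ^ k' * 2 ^ 4 * (2 * j + 1) = 16 * (2 ^ k' * (2 * j + 1)) := by ring
    rw [h2] at h32 h16
    have h3 : 1 ≤ 2 ^ k' * (2 * j + 1) := by
      have := Nat.mul_le_mul h1 (by omega : 1 ≤ 2 * j + 1)
      simpa using this
    omega
  obtain ⟨l, hl⟩ : ∃ l, 4 = k + l + 1 := ⟨3 - k, by omega⟩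
  have h5 : (32 : ℕ) = 2 ^ k * (2 * (2 * 2 ^ l)) := by
    have : (32 : ℕ) = 2 ^ (4 + 1) := by norm_num
    rw [this, hl]; ring
  have h6 : 32 * n + 2 ^ k * (2 * j + 1) = 2 ^ k * (2 * (2 * (2 ^ l * n) + j) + 1) := by
    rw [h5]; ring
  rw [h6, S_eq, S_eq]
  congr 1
  rw [eq_iff_iff]
  omega

theorem b0_thm : StmB0 := by
  refine ⟨fun s p i => (if i = 0 then s else if i = 16 then p else S i, true, true,
    some (decide ((i : ℕ) % 2 = 1)), some (decide (((i : ℕ) + 1) % 2 = 1))), fun n => ?_⟩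
  funext i
  have hm : m 0 = 1 := by simp [m]
  unfold blk T
  rw [hm]
  have e1 : S (32 * n + i) = if i = 0 then S n else
      if i = 16 then decide (n % 2 = 1) else S i := by
    by_cases h0 : i = 0
    · rw [if_pos h0, h0]
      exact S_32 n
    · rw [if_neg h0]
      by_cases h16 : i = 16
      · rw [if_pos h16, h16]
        exact S_16 n
      · rw [if_neg h16]
        refine S_other (fun h => h0 (Fin.ext h)) (fun h => h16 (Fin.ext h)) i.2
  have e2 : (32 * n + (i : ℕ)) % 2 = (i : ℕ) % 2 := by omega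
  have e3 : (32 * n + (i : ℕ) + 1) % 2 = ((i : ℕ) + 1) % 2 := by omega
  simp only [Nat.mod_one, Nat.div_one, add_zero, mul_zero, decide_true, if_true, e1, e2, e3]

end Pool.Agent.R652.CA
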